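import Pool.Agent.H882R3.BSLower

set_option autoImplicit false
set_option linter.unusedSectionVars false
set_option linter.unusedVariables false
set_option linter.unusedSimpArgs false

open MvPolynomial

namespace Pool.Agent.H882R3.BS

/-- First coordinate. -/
noncomputable abbrev x : P2 := X 0

/-- Second coordinate. -/
noncomputable abbrev y : P2 := X 1

/-- The three functions. -/
noncomputable def FF : Fin 3 → P2 :=
  ![x * y * (x + y), (x + y - 2) * (y - 1) * (x - 1), y * (x + y) ^ 2 * (y - 1) * (x - 1) ^ 2]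

theorem FF_zero : FF 0 = x * y * (x + y) := rfl
theorem FF_one : FF 1 = (x + y - 2) * (y - 1) * (x - 1) := rfl
theorem FF_two : FF 2 = y * (x + y) ^ 2 * (y - 1) * (x - 1) ^ 2 := rfl

theorem ne_zero_of_eval (p : P2) (c : Fin 2 → ℂ) (h : eval c p ≠ 0) : p ≠ 0 := by
  rintro rfl
  exact h (map_zero _)

theorem line0 : x ≠ 0 := X_ne_zero 0
theorem line1 : y ≠ 0 := X_ne_zero 1
theorem line2 : x + y ≠ 0 := ne_zero_of_eval _ (fun _ => 1) (by simp)
theorem line3 : x + y - 2 ≠ 0 := ne_zero_of_eval _ (fun _ => 0) (by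
  rw [map_sub, map_add, eval_X, eval_X, map_ofNat]; norm_num)
theorem line4 : y - 1 ≠ 0 := ne_zero_of_eval _ (fun _ => 0) (by simp)
theorem line5 : x - 1 ≠ 0 := ne_zero_of_eval _ (fun _ => 0) (by simp)

theorem FF_ne_zero : ∀ j, FF j ≠ 0 := by
  intro j
  fin_cases j
  · change FF 0 ≠ 0
    rw [FF_zero]
    exact mul_ne_zero (mul_ne_zero line0 line1) line2
  · change FF 1 ≠ 0
    rw [FF_one]
    exact mul_ne_zero (mul_ne_zero line3 line4) line5
  · change FF 2 ≠ 0
    rw [FF_two]
    exact mul_ne_zero (mul_ne_zero (mul_ne_zero line1 (pow_ne_zero 2 line2)) line4)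
      (pow_ne_zero 2 line5)

/-- The derivation of `ℂ[x, y]` with `x ↦ a`, `y ↦ b`. -/
noncomputable def vf (a b : P2) : Derivation ℂ P2 P2 := mkDerivation ℂ ![a, b]

theorem vf_x (a b : P2) : vf a b x = a := mkDerivation_X ℂ _ _
theorem vf_y (a b : P2) : vf a b y = b := mkDerivation_X ℂ _ _
theorem vf_one (a b : P2) : vf a b 1 = 0 := Derivation.map_one_eq_zero _
theorem vf_two (a b : P2) : vf a b 2 = 0 := by
  have h := (vf a b).map_natCast 2
  simpa using h

theorem low_00_u {N : AddSubgroup (MvPolynomial (Fin 3) (FractionRing P2))}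
    (hN : IsDSubmodule FF N) (h0 : C (algebraMap P2 (FractionRing P2) (FF 0)) ∈ N) :
    C (algebraMap P2 (FractionRing P2) ((y * (x + y) * (y - 1) * (x - 1) : P2) ^ 2)) *
      (1 + ∑ j, C ((![1, 0, 0] j : ℕ) : FractionRing P2) * X j) ∈ N := by
  refine lower_aux FF FF_ne_zero hN (vf (1) (-1)) (x) (y * (x + y) * (y - 1) * (x - 1)) ![1, 0, 0]
    ![y * (x + y), (x + y - 2) * (y - 1) * (x - 1), y * (x + y) ^ 2 * (y - 1) * (x - 1) ^ 2]
    ![(-1) * ((x + y) * (y - 1) * (x - 1)), (-1) * (y * (x + y) * (x - 1)) + (1) * (y * (x + y) * (y - 1)), (-1) * ((x + y) * (y - 1) * (x - 1)) + (-1) * (y * (x + y) * (x - 1)) + (2) * (y * (x + y) * (y - 1))] line0 ?_ ?_ ?_ ?_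
  · simp only [map_add, map_sub, vf_x, vf_y, vf_one, vf_two] <;> ring
  · intro j
    fin_cases j
    · change FF 0 = x ^ 1 * (y * (x + y))
      rw [FF_zero]
      ring
    · change FF 1 = x ^ 0 * ((x + y - 2) * (y - 1) * (x - 1))
      rw [FF_one]
      ring
    · change FF 2 = x ^ 0 * (y * (x + y) ^ 2 * (y - 1) * (x - 1) ^ 2)
      rw [FF_two]
      ring
  · intro j
    fin_cases j
    · change (y * (x + y) * (y - 1) * (x - 1)) * vf (1) (-1) (y * (x + y)) =
        ((-1) * ((x + y) * (y - 1) * (x - 1))) * (y * (x + y))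
      simp only [Derivation.leibniz, Derivation.leibniz_pow, map_add, map_sub, vf_x, vf_y, vf_one,
        vf_two, smul_eq_mul, nsmul_eq_mul, Nat.cast_ofNat]
      ring
    · change (y * (x + y) * (y - 1) * (x - 1)) * vf (1) (-1) ((x + y - 2) * (y - 1) * (x - 1)) =
        ((-1) * (y * (x + y) * (x - 1)) + (1) * (y * (x + y) * (y - 1))) * ((x + y - 2) * (y - 1) * (x - 1))
      simp only [Derivation.leibniz, Derivation.leibniz_pow, map_add, map_sub, vf_x, vf_y, vf_one,
        vf_two, smul_eq_mul, nsmul_eq_mul, Nat.cast_ofNat]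
      ring
    · change (y * (x + y) * (y - 1) * (x - 1)) * vf (1) (-1) (y * (x + y) ^ 2 * (y - 1) * (x - 1) ^ 2) =
        ((-1) * ((x + y) * (y - 1) * (x - 1)) + (-1) * (y * (x + y) * (x - 1)) + (2) * (y * (x + y) * (y - 1))) * (y * (x + y) ^ 2 * (y - 1) * (x - 1) ^ 2)
      simp only [Derivation.leibniz, Derivation.leibniz_pow, map_add, map_sub, vf_x, vf_y, vf_one,
        vf_two, smul_eq_mul, nsmul_eq_mul, Nat.cast_ofNat]
      ring
  · have h := hN.function_mem ((y - 1) * (x - 1)) _ h0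
    rw [← map_mul, ← map_mul] at h
    have he : (y * (x + y) * (y - 1) * (x - 1)) * (x) = ((y - 1) * (x - 1)) * FF 0 := by
      rw [FF_zero]
      ring
    rw [he]
    exact h

theorem low_00_v {N : AddSubgroup (MvPolynomial (Fin 3) (FractionRing P2))}
    (hN : IsDSubmodule FF N) (h1 : C (algebraMap P2 (FractionRing P2) (FF 1)) ∈ N) :
    C (algebraMap P2 (FractionRing P2) ((y * (x + y) * (y - 1) * (x - 1) : P2) ^ 2)) *
      (1 + ∑ j, C ((![0, 1, 0] j : ℕ) : FractionRing P2) * X j) ∈ N := by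
  refine lower_aux FF FF_ne_zero hN (vf (0) (1)) ((x + y - 2)) (y * (x + y) * (y - 1) * (x - 1)) ![0, 1, 0]
    ![x * y * (x + y), (y - 1) * (x - 1), y * (x + y) ^ 2 * (y - 1) * (x - 1) ^ 2]
    ![(1) * ((x + y) * (y - 1) * (x - 1)) + (1) * (y * (y - 1) * (x - 1)), (1) * (y * (x + y) * (x - 1)), (1) * ((x + y) * (y - 1) * (x - 1)) + (2) * (y * (y - 1) * (x - 1)) + (1) * (y * (x + y) * (x - 1))] line3 ?_ ?_ ?_ ?_
  · simp only [map_add, map_sub, vf_x, vf_y, vf_one, vf_two] <;> ring
  · intro j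
    fin_cases j
    · change FF 0 = (x + y - 2) ^ 0 * (x * y * (x + y))
      rw [FF_zero]
      ring
    · change FF 1 = (x + y - 2) ^ 1 * ((y - 1) * (x - 1))
      rw [FF_one]
      ring
    · change FF 2 = (x + y - 2) ^ 0 * (y * (x + y) ^ 2 * (y - 1) * (x - 1) ^ 2)
      rw [FF_two]
      ring
  · intro j
    fin_cases j
    · change (y * (x + y) * (y - 1) * (x - 1)) * vf (0) (1) (x * y * (x + y)) =
        ((1) * ((x + y) * (y - 1) * (x - 1)) + (1) * (y * (y - 1) * (x - 1))) * (x * y * (x + y))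
      simp only [Derivation.leibniz, Derivation.leibniz_pow, map_add, map_sub, vf_x, vf_y, vf_one,
        vf_two, smul_eq_mul, nsmul_eq_mul, Nat.cast_ofNat]
      ring
    · change (y * (x + y) * (y - 1) * (x - 1)) * vf (0) (1) ((y - 1) * (x - 1)) =
        ((1) * (y * (x + y) * (x - 1))) * ((y - 1) * (x - 1))
      simp only [Derivation.leibniz, Derivation.leibniz_pow, map_add, map_sub, vf_x, vf_y, vf_one,
        vf_two, smul_eq_mul, nsmul_eq_mul, Nat.cast_ofNat]
      ring
    · change (y * (x + y) * (y - 1) * (x - 1)) * vf (0) (1) (y * (x + y) ^ 2 * (y - 1) * (x - 1) ^ 2) =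
        ((1) * ((x + y) * (y - 1) * (x - 1)) + (2) * (y * (y - 1) * (x - 1)) + (1) * (y * (x + y) * (x - 1))) * (y * (x + y) ^ 2 * (y - 1) * (x - 1) ^ 2)
      simp only [Derivation.leibniz, Derivation.leibniz_pow, map_add, map_sub, vf_x, vf_y, vf_one,
        vf_two, smul_eq_mul, nsmul_eq_mul, Nat.cast_ofNat]
      ring
  · have h := hN.function_mem (y * (x + y)) _ h1
    rw [← map_mul, ← map_mul] at h
    have he : (y * (x + y) * (y - 1) * (x - 1)) * ((x + y - 2)) = (y * (x + y)) * FF 1 := by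
      rw [FF_one]
      ring
    rw [he]
    exact h

theorem low_01_u {N : AddSubgroup (MvPolynomial (Fin 3) (FractionRing P2))}
    (hN : IsDSubmodule FF N) (h0 : C (algebraMap P2 (FractionRing P2) (FF 0)) ∈ N) :
    C (algebraMap P2 (FractionRing P2) ((y * (x + y) * (x + y - 2) * (x - 1) : P2) ^ 2)) *
      (1 + ∑ j, C ((![1, 0, 0] j : ℕ) : FractionRing P2) * X j) ∈ N := by
  refine lower_aux FF FF_ne_zero hN (vf (1) (0)) (x) (y * (x + y) * (x + y - 2) * (x - 1)) ![1, 0, 0]
    ![y * (x + y), (x + y - 2) * (y - 1) * (x - 1), y * (x + y) ^ 2 * (y - 1) * (x - 1) ^ 2]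
    ![(1) * (y * (x + y - 2) * (x - 1)), (1) * (y * (x + y) * (x - 1)) + (1) * (y * (x + y) * (x + y - 2)), (2) * (y * (x + y - 2) * (x - 1)) + (2) * (y * (x + y) * (x + y - 2))] line0 ?_ ?_ ?_ ?_
  · simp only [map_add, map_sub, vf_x, vf_y, vf_one, vf_two] <;> ring
  · intro j
    fin_cases j
    · change FF 0 = x ^ 1 * (y * (x + y))
      rw [FF_zero]
      ring
    · change FF 1 = x ^ 0 * ((x + y - 2) * (y - 1) * (x - 1))
      rw [FF_one]
      ring
    · change FF 2 = x ^ 0 * (y * (x + y) ^ 2 * (y - 1) * (x - 1) ^ 2)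
      rw [FF_two]
      ring
  · intro j
    fin_cases j
    · change (y * (x + y) * (x + y - 2) * (x - 1)) * vf (1) (0) (y * (x + y)) =
        ((1) * (y * (x + y - 2) * (x - 1))) * (y * (x + y))
      simp only [Derivation.leibniz, Derivation.leibniz_pow, map_add, map_sub, vf_x, vf_y, vf_one,
        vf_two, smul_eq_mul, nsmul_eq_mul, Nat.cast_ofNat]
      ring
    · change (y * (x + y) * (x + y - 2) * (x - 1)) * vf (1) (0) ((x + y - 2) * (y - 1) * (x - 1)) =
        ((1) * (y * (x + y) * (x - 1)) + (1) * (y * (x + y) * (x + y - 2))) * ((x + y - 2) * (y - 1) * (x - 1))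
      simp only [Derivation.leibniz, Derivation.leibniz_pow, map_add, map_sub, vf_x, vf_y, vf_one,
        vf_two, smul_eq_mul, nsmul_eq_mul, Nat.cast_ofNat]
      ring
    · change (y * (x + y) * (x + y - 2) * (x - 1)) * vf (1) (0) (y * (x + y) ^ 2 * (y - 1) * (x - 1) ^ 2) =
        ((2) * (y * (x + y - 2) * (x - 1)) + (2) * (y * (x + y) * (x + y - 2))) * (y * (x + y) ^ 2 * (y - 1) * (x - 1) ^ 2)
      simp only [Derivation.leibniz, Derivation.leibniz_pow, map_add, map_sub, vf_x, vf_y, vf_one,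
        vf_two, smul_eq_mul, nsmul_eq_mul, Nat.cast_ofNat]
      ring
  · have h := hN.function_mem ((x + y - 2) * (x - 1)) _ h0
    rw [← map_mul, ← map_mul] at h
    have he : (y * (x + y) * (x + y - 2) * (x - 1)) * (x) = ((x + y - 2) * (x - 1)) * FF 0 := by
      rw [FF_zero]
      ring
    rw [he]
    exact h

theorem low_01_v {N : AddSubgroup (MvPolynomial (Fin 3) (FractionRing P2))}
    (hN : IsDSubmodule FF N) (h1 : C (algebraMap P2 (FractionRing P2) (FF 1)) ∈ N) :
    C (algebraMap P2 (FractionRing P2) ((y * (x + y) * (x + y - 2) * (x - 1) : P2) ^ 2)) *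
      (1 + ∑ j, C ((![0, 1, 1] j : ℕ) : FractionRing P2) * X j) ∈ N := by
  refine lower_aux FF FF_ne_zero hN (vf (0) (1)) ((y - 1)) (y * (x + y) * (x + y - 2) * (x - 1)) ![0, 1, 1]
    ![x * y * (x + y), (x + y - 2) * (x - 1), y * (x + y) ^ 2 * (x - 1) ^ 2]
    ![(1) * ((x + y) * (x + y - 2) * (x - 1)) + (1) * (y * (x + y - 2) * (x - 1)), (1) * (y * (x + y) * (x - 1)), (1) * ((x + y) * (x + y - 2) * (x - 1)) + (2) * (y * (x + y - 2) * (x - 1))] line4 ?_ ?_ ?_ ?_
  · simp only [map_add, map_sub, vf_x, vf_y, vf_one, vf_two] <;> ring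
  · intro j
    fin_cases j
    · change FF 0 = (y - 1) ^ 0 * (x * y * (x + y))
      rw [FF_zero]
      ring
    · change FF 1 = (y - 1) ^ 1 * ((x + y - 2) * (x - 1))
      rw [FF_one]
      ring
    · change FF 2 = (y - 1) ^ 1 * (y * (x + y) ^ 2 * (x - 1) ^ 2)
      rw [FF_two]
      ring
  · intro j
    fin_cases j
    · change (y * (x + y) * (x + y - 2) * (x - 1)) * vf (0) (1) (x * y * (x + y)) =
        ((1) * ((x + y) * (x + y - 2) * (x - 1)) + (1) * (y * (x + y - 2) * (x - 1))) * (x * y * (x + y))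
      simp only [Derivation.leibniz, Derivation.leibniz_pow, map_add, map_sub, vf_x, vf_y, vf_one,
        vf_two, smul_eq_mul, nsmul_eq_mul, Nat.cast_ofNat]
      ring
    · change (y * (x + y) * (x + y - 2) * (x - 1)) * vf (0) (1) ((x + y - 2) * (x - 1)) =
        ((1) * (y * (x + y) * (x - 1))) * ((x + y - 2) * (x - 1))
      simp only [Derivation.leibniz, Derivation.leibniz_pow, map_add, map_sub, vf_x, vf_y, vf_one,
        vf_two, smul_eq_mul, nsmul_eq_mul, Nat.cast_ofNat]
      ring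
    · change (y * (x + y) * (x + y - 2) * (x - 1)) * vf (0) (1) (y * (x + y) ^ 2 * (x - 1) ^ 2) =
        ((1) * ((x + y) * (x + y - 2) * (x - 1)) + (2) * (y * (x + y - 2) * (x - 1))) * (y * (x + y) ^ 2 * (x - 1) ^ 2)
      simp only [Derivation.leibniz, Derivation.leibniz_pow, map_add, map_sub, vf_x, vf_y, vf_one,
        vf_two, smul_eq_mul, nsmul_eq_mul, Nat.cast_ofNat]
      ring
  · have h := hN.function_mem (y * (x + y)) _ h1
    rw [← map_mul, ← map_mul] at h
    have he : (y * (x + y) * (x + y - 2) * (x - 1)) * ((y - 1)) = (y * (x + y)) * FF 1 := by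
      rw [FF_one]
      ring
    rw [he]
    exact h

theorem low_10_u {N : AddSubgroup (MvPolynomial (Fin 3) (FractionRing P2))}
    (hN : IsDSubmodule FF N) (h0 : C (algebraMap P2 (FractionRing P2) (FF 0)) ∈ N) :
    C (algebraMap P2 (FractionRing P2) ((x * (x + y) * (y - 1) * (x - 1) : P2) ^ 2)) *
      (1 + ∑ j, C ((![1, 0, 1] j : ℕ) : FractionRing P2) * X j) ∈ N := by
  refine lower_aux FF FF_ne_zero hN (vf (-1) (1)) (y) (x * (x + y) * (y - 1) * (x - 1)) ![1, 0, 1]
    ![x * (x + y), (x + y - 2) * (y - 1) * (x - 1), (x + y) ^ 2 * (y - 1) * (x - 1) ^ 2]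
    ![(-1) * ((x + y) * (y - 1) * (x - 1)), (1) * (x * (x + y) * (x - 1)) + (-1) * (x * (x + y) * (y - 1)), (1) * (x * (x + y) * (x - 1)) + (-2) * (x * (x + y) * (y - 1))] line1 ?_ ?_ ?_ ?_
  · simp only [map_add, map_sub, vf_x, vf_y, vf_one, vf_two] <;> ring
  · intro j
    fin_cases j
    · change FF 0 = y ^ 1 * (x * (x + y))
      rw [FF_zero]
      ring
    · change FF 1 = y ^ 0 * ((x + y - 2) * (y - 1) * (x - 1))
      rw [FF_one]
      ring
    · change FF 2 = y ^ 1 * ((x + y) ^ 2 * (y - 1) * (x - 1) ^ 2)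
      rw [FF_two]
      ring
  · intro j
    fin_cases j
    · change (x * (x + y) * (y - 1) * (x - 1)) * vf (-1) (1) (x * (x + y)) =
        ((-1) * ((x + y) * (y - 1) * (x - 1))) * (x * (x + y))
      simp only [Derivation.leibniz, Derivation.leibniz_pow, map_add, map_sub, vf_x, vf_y, vf_one,
        vf_two, smul_eq_mul, nsmul_eq_mul, Nat.cast_ofNat]
      ring
    · change (x * (x + y) * (y - 1) * (x - 1)) * vf (-1) (1) ((x + y - 2) * (y - 1) * (x - 1)) =
        ((1) * (x * (x + y) * (x - 1)) + (-1) * (x * (x + y) * (y - 1))) * ((x + y - 2) * (y - 1) * (x - 1))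
      simp only [Derivation.leibniz, Derivation.leibniz_pow, map_add, map_sub, vf_x, vf_y, vf_one,
        vf_two, smul_eq_mul, nsmul_eq_mul, Nat.cast_ofNat]
      ring
    · change (x * (x + y) * (y - 1) * (x - 1)) * vf (-1) (1) ((x + y) ^ 2 * (y - 1) * (x - 1) ^ 2) =
        ((1) * (x * (x + y) * (x - 1)) + (-2) * (x * (x + y) * (y - 1))) * ((x + y) ^ 2 * (y - 1) * (x - 1) ^ 2)
      simp only [Derivation.leibniz, Derivation.leibniz_pow, map_add, map_sub, vf_x, vf_y, vf_one,
        vf_two, smul_eq_mul, nsmul_eq_mul, Nat.cast_ofNat]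
      ring
  · have h := hN.function_mem ((y - 1) * (x - 1)) _ h0
    rw [← map_mul, ← map_mul] at h
    have he : (x * (x + y) * (y - 1) * (x - 1)) * (y) = ((y - 1) * (x - 1)) * FF 0 := by
      rw [FF_zero]
      ring
    rw [he]
    exact h

theorem low_10_v {N : AddSubgroup (MvPolynomial (Fin 3) (FractionRing P2))}
    (hN : IsDSubmodule FF N) (h1 : C (algebraMap P2 (FractionRing P2) (FF 1)) ∈ N) :
    C (algebraMap P2 (FractionRing P2) ((x * (x + y) * (y - 1) * (x - 1) : P2) ^ 2)) *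
      (1 + ∑ j, C ((![0, 1, 0] j : ℕ) : FractionRing P2) * X j) ∈ N := by
  refine lower_aux FF FF_ne_zero hN (vf (1) (0)) ((x + y - 2)) (x * (x + y) * (y - 1) * (x - 1)) ![0, 1, 0]
    ![x * y * (x + y), (y - 1) * (x - 1), y * (x + y) ^ 2 * (y - 1) * (x - 1) ^ 2]
    ![(1) * ((x + y) * (y - 1) * (x - 1)) + (1) * (x * (y - 1) * (x - 1)), (1) * (x * (x + y) * (y - 1)), (2) * (x * (y - 1) * (x - 1)) + (2) * (x * (x + y) * (y - 1))] line3 ?_ ?_ ?_ ?_
  · simp only [map_add, map_sub, vf_x, vf_y, vf_one, vf_two] <;> ring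
  · intro j
    fin_cases j
    · change FF 0 = (x + y - 2) ^ 0 * (x * y * (x + y))
      rw [FF_zero]
      ring
    · change FF 1 = (x + y - 2) ^ 1 * ((y - 1) * (x - 1))
      rw [FF_one]
      ring
    · change FF 2 = (x + y - 2) ^ 0 * (y * (x + y) ^ 2 * (y - 1) * (x - 1) ^ 2)
      rw [FF_two]
      ring
  · intro j
    fin_cases j
    · change (x * (x + y) * (y - 1) * (x - 1)) * vf (1) (0) (x * y * (x + y)) =
        ((1) * ((x + y) * (y - 1) * (x - 1)) + (1) * (x * (y - 1) * (x - 1))) * (x * y * (x + y))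
      simp only [Derivation.leibniz, Derivation.leibniz_pow, map_add, map_sub, vf_x, vf_y, vf_one,
        vf_two, smul_eq_mul, nsmul_eq_mul, Nat.cast_ofNat]
      ring
    · change (x * (x + y) * (y - 1) * (x - 1)) * vf (1) (0) ((y - 1) * (x - 1)) =
        ((1) * (x * (x + y) * (y - 1))) * ((y - 1) * (x - 1))
      simp only [Derivation.leibniz, Derivation.leibniz_pow, map_add, map_sub, vf_x, vf_y, vf_one,
        vf_two, smul_eq_mul, nsmul_eq_mul, Nat.cast_ofNat]
      ring
    · change (x * (x + y) * (y - 1) * (x - 1)) * vf (1) (0) (y * (x + y) ^ 2 * (y - 1) * (x - 1) ^ 2) =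
        ((2) * (x * (y - 1) * (x - 1)) + (2) * (x * (x + y) * (y - 1))) * (y * (x + y) ^ 2 * (y - 1) * (x - 1) ^ 2)
      simp only [Derivation.leibniz, Derivation.leibniz_pow, map_add, map_sub, vf_x, vf_y, vf_one,
        vf_two, smul_eq_mul, nsmul_eq_mul, Nat.cast_ofNat]
      ring
  · have h := hN.function_mem (x * (x + y)) _ h1
    rw [← map_mul, ← map_mul] at h
    have he : (x * (x + y) * (y - 1) * (x - 1)) * ((x + y - 2)) = (x * (x + y)) * FF 1 := by
      rw [FF_one]
      ring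
    rw [he]
    exact h

theorem low_12_u {N : AddSubgroup (MvPolynomial (Fin 3) (FractionRing P2))}
    (hN : IsDSubmodule FF N) (h0 : C (algebraMap P2 (FractionRing P2) (FF 0)) ∈ N) :
    C (algebraMap P2 (FractionRing P2) ((x * (x + y) * (x + y - 2) * (y - 1) : P2) ^ 2)) *
      (1 + ∑ j, C ((![1, 0, 1] j : ℕ) : FractionRing P2) * X j) ∈ N := by
  refine lower_aux FF FF_ne_zero hN (vf (0) (1)) (y) (x * (x + y) * (x + y - 2) * (y - 1)) ![1, 0, 1]
    ![x * (x + y), (x + y - 2) * (y - 1) * (x - 1), (x + y) ^ 2 * (y - 1) * (x - 1) ^ 2]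
    ![(1) * (x * (x + y - 2) * (y - 1)), (1) * (x * (x + y) * (y - 1)) + (1) * (x * (x + y) * (x + y - 2)), (2) * (x * (x + y - 2) * (y - 1)) + (1) * (x * (x + y) * (x + y - 2))] line1 ?_ ?_ ?_ ?_
  · simp only [map_add, map_sub, vf_x, vf_y, vf_one, vf_two] <;> ring
  · intro j
    fin_cases j
    · change FF 0 = y ^ 1 * (x * (x + y))
      rw [FF_zero]
      ring
    · change FF 1 = y ^ 0 * ((x + y - 2) * (y - 1) * (x - 1))
      rw [FF_one]
      ring
    · change FF 2 = y ^ 1 * ((x + y) ^ 2 * (y - 1) * (x - 1) ^ 2)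
      rw [FF_two]
      ring
  · intro j
    fin_cases j
    · change (x * (x + y) * (x + y - 2) * (y - 1)) * vf (0) (1) (x * (x + y)) =
        ((1) * (x * (x + y - 2) * (y - 1))) * (x * (x + y))
      simp only [Derivation.leibniz, Derivation.leibniz_pow, map_add, map_sub, vf_x, vf_y, vf_one,
        vf_two, smul_eq_mul, nsmul_eq_mul, Nat.cast_ofNat]
      ring
    · change (x * (x + y) * (x + y - 2) * (y - 1)) * vf (0) (1) ((x + y - 2) * (y - 1) * (x - 1)) =
        ((1) * (x * (x + y) * (y - 1)) + (1) * (x * (x + y) * (x + y - 2))) * ((x + y - 2) * (y - 1) * (x - 1))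
      simp only [Derivation.leibniz, Derivation.leibniz_pow, map_add, map_sub, vf_x, vf_y, vf_one,
        vf_two, smul_eq_mul, nsmul_eq_mul, Nat.cast_ofNat]
      ring
    · change (x * (x + y) * (x + y - 2) * (y - 1)) * vf (0) (1) ((x + y) ^ 2 * (y - 1) * (x - 1) ^ 2) =
        ((2) * (x * (x + y - 2) * (y - 1)) + (1) * (x * (x + y) * (x + y - 2))) * ((x + y) ^ 2 * (y - 1) * (x - 1) ^ 2)
      simp only [Derivation.leibniz, Derivation.leibniz_pow, map_add, map_sub, vf_x, vf_y, vf_one,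
        vf_two, smul_eq_mul, nsmul_eq_mul, Nat.cast_ofNat]
      ring
  · have h := hN.function_mem ((x + y - 2) * (y - 1)) _ h0
    rw [← map_mul, ← map_mul] at h
    have he : (x * (x + y) * (x + y - 2) * (y - 1)) * (y) = ((x + y - 2) * (y - 1)) * FF 0 := by
      rw [FF_zero]
      ring
    rw [he]
    exact h

theorem low_12_v {N : AddSubgroup (MvPolynomial (Fin 3) (FractionRing P2))}
    (hN : IsDSubmodule FF N) (h1 : C (algebraMap P2 (FractionRing P2) (FF 1)) ∈ N) :
    C (algebraMap P2 (FractionRing P2) ((x * (x + y) * (x + y - 2) * (y - 1) : P2) ^ 2)) *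
      (1 + ∑ j, C ((![0, 1, 2] j : ℕ) : FractionRing P2) * X j) ∈ N := by
  refine lower_aux FF FF_ne_zero hN (vf (1) (0)) ((x - 1)) (x * (x + y) * (x + y - 2) * (y - 1)) ![0, 1, 2]
    ![x * y * (x + y), (x + y - 2) * (y - 1), y * (x + y) ^ 2 * (y - 1)]
    ![(1) * ((x + y) * (x + y - 2) * (y - 1)) + (1) * (x * (x + y - 2) * (y - 1)), (1) * (x * (x + y) * (y - 1)), (2) * (x * (x + y - 2) * (y - 1))] line5 ?_ ?_ ?_ ?_
  · simp only [map_add, map_sub, vf_x, vf_y, vf_one, vf_two] <;> ring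
  · intro j
    fin_cases j
    · change FF 0 = (x - 1) ^ 0 * (x * y * (x + y))
      rw [FF_zero]
      ring
    · change FF 1 = (x - 1) ^ 1 * ((x + y - 2) * (y - 1))
      rw [FF_one]
      ring
    · change FF 2 = (x - 1) ^ 2 * (y * (x + y) ^ 2 * (y - 1))
      rw [FF_two]
      ring
  · intro j
    fin_cases j
    · change (x * (x + y) * (x + y - 2) * (y - 1)) * vf (1) (0) (x * y * (x + y)) =
        ((1) * ((x + y) * (x + y - 2) * (y - 1)) + (1) * (x * (x + y - 2) * (y - 1))) * (x * y * (x + y))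
      simp only [Derivation.leibniz, Derivation.leibniz_pow, map_add, map_sub, vf_x, vf_y, vf_one,
        vf_two, smul_eq_mul, nsmul_eq_mul, Nat.cast_ofNat]
      ring
    · change (x * (x + y) * (x + y - 2) * (y - 1)) * vf (1) (0) ((x + y - 2) * (y - 1)) =
        ((1) * (x * (x + y) * (y - 1))) * ((x + y - 2) * (y - 1))
      simp only [Derivation.leibniz, Derivation.leibniz_pow, map_add, map_sub, vf_x, vf_y, vf_one,
        vf_two, smul_eq_mul, nsmul_eq_mul, Nat.cast_ofNat]
      ring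
    · change (x * (x + y) * (x + y - 2) * (y - 1)) * vf (1) (0) (y * (x + y) ^ 2 * (y - 1)) =
        ((2) * (x * (x + y - 2) * (y - 1))) * (y * (x + y) ^ 2 * (y - 1))
      simp only [Derivation.leibniz, Derivation.leibniz_pow, map_add, map_sub, vf_x, vf_y, vf_one,
        vf_two, smul_eq_mul, nsmul_eq_mul, Nat.cast_ofNat]
      ring
  · have h := hN.function_mem (x * (x + y)) _ h1
    rw [← map_mul, ← map_mul] at h
    have he : (x * (x + y) * (x + y - 2) * (y - 1)) * ((x - 1)) = (x * (x + y)) * FF 1 := by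
      rw [FF_one]
      ring
    rw [he]
    exact h

theorem low_21_u {N : AddSubgroup (MvPolynomial (Fin 3) (FractionRing P2))}
    (hN : IsDSubmodule FF N) (h0 : C (algebraMap P2 (FractionRing P2) (FF 0)) ∈ N) :
    C (algebraMap P2 (FractionRing P2) ((x * y * (x + y - 2) * (x - 1) : P2) ^ 2)) *
      (1 + ∑ j, C ((![1, 0, 2] j : ℕ) : FractionRing P2) * X j) ∈ N := by
  refine lower_aux FF FF_ne_zero hN (vf (1) (0)) ((x + y)) (x * y * (x + y - 2) * (x - 1)) ![1, 0, 2]
    ![x * y, (x + y - 2) * (y - 1) * (x - 1), y * (y - 1) * (x - 1) ^ 2]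
    ![(1) * (y * (x + y - 2) * (x - 1)), (1) * (x * y * (x - 1)) + (1) * (x * y * (x + y - 2)), (2) * (x * y * (x + y - 2))] line2 ?_ ?_ ?_ ?_
  · simp only [map_add, map_sub, vf_x, vf_y, vf_one, vf_two] <;> ring
  · intro j
    fin_cases j
    · change FF 0 = (x + y) ^ 1 * (x * y)
      rw [FF_zero]
      ring
    · change FF 1 = (x + y) ^ 0 * ((x + y - 2) * (y - 1) * (x - 1))
      rw [FF_one]
      ring
    · change FF 2 = (x + y) ^ 2 * (y * (y - 1) * (x - 1) ^ 2)
      rw [FF_two]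
      ring
  · intro j
    fin_cases j
    · change (x * y * (x + y - 2) * (x - 1)) * vf (1) (0) (x * y) =
        ((1) * (y * (x + y - 2) * (x - 1))) * (x * y)
      simp only [Derivation.leibniz, Derivation.leibniz_pow, map_add, map_sub, vf_x, vf_y, vf_one,
        vf_two, smul_eq_mul, nsmul_eq_mul, Nat.cast_ofNat]
      ring
    · change (x * y * (x + y - 2) * (x - 1)) * vf (1) (0) ((x + y - 2) * (y - 1) * (x - 1)) =
        ((1) * (x * y * (x - 1)) + (1) * (x * y * (x + y - 2))) * ((x + y - 2) * (y - 1) * (x - 1))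
      simp only [Derivation.leibniz, Derivation.leibniz_pow, map_add, map_sub, vf_x, vf_y, vf_one,
        vf_two, smul_eq_mul, nsmul_eq_mul, Nat.cast_ofNat]
      ring
    · change (x * y * (x + y - 2) * (x - 1)) * vf (1) (0) (y * (y - 1) * (x - 1) ^ 2) =
        ((2) * (x * y * (x + y - 2))) * (y * (y - 1) * (x - 1) ^ 2)
      simp only [Derivation.leibniz, Derivation.leibniz_pow, map_add, map_sub, vf_x, vf_y, vf_one,
        vf_two, smul_eq_mul, nsmul_eq_mul, Nat.cast_ofNat]
      ring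
  · have h := hN.function_mem ((x + y - 2) * (x - 1)) _ h0
    rw [← map_mul, ← map_mul] at h
    have he : (x * y * (x + y - 2) * (x - 1)) * ((x + y)) = ((x + y - 2) * (x - 1)) * FF 0 := by
      rw [FF_zero]
      ring
    rw [he]
    exact h

theorem low_21_v {N : AddSubgroup (MvPolynomial (Fin 3) (FractionRing P2))}
    (hN : IsDSubmodule FF N) (h1 : C (algebraMap P2 (FractionRing P2) (FF 1)) ∈ N) :
    C (algebraMap P2 (FractionRing P2) ((x * y * (x + y - 2) * (x - 1) : P2) ^ 2)) *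
      (1 + ∑ j, C ((![0, 1, 1] j : ℕ) : FractionRing P2) * X j) ∈ N := by
  refine lower_aux FF FF_ne_zero hN (vf (-1) (1)) ((y - 1)) (x * y * (x + y - 2) * (x - 1)) ![0, 1, 1]
    ![x * y * (x + y), (x + y - 2) * (x - 1), y * (x + y) ^ 2 * (x - 1) ^ 2]
    ![(-1) * (y * (x + y - 2) * (x - 1)) + (1) * (x * (x + y - 2) * (x - 1)), (-1) * (x * y * (x + y - 2)), (1) * (x * (x + y - 2) * (x - 1)) + (-2) * (x * y * (x + y - 2))] line4 ?_ ?_ ?_ ?_
  · simp only [map_add, map_sub, vf_x, vf_y, vf_one, vf_two] <;> ring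
  · intro j
    fin_cases j
    · change FF 0 = (y - 1) ^ 0 * (x * y * (x + y))
      rw [FF_zero]
      ring
    · change FF 1 = (y - 1) ^ 1 * ((x + y - 2) * (x - 1))
      rw [FF_one]
      ring
    · change FF 2 = (y - 1) ^ 1 * (y * (x + y) ^ 2 * (x - 1) ^ 2)
      rw [FF_two]
      ring
  · intro j
    fin_cases j
    · change (x * y * (x + y - 2) * (x - 1)) * vf (-1) (1) (x * y * (x + y)) =
        ((-1) * (y * (x + y - 2) * (x - 1)) + (1) * (x * (x + y - 2) * (x - 1))) * (x * y * (x + y))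
      simp only [Derivation.leibniz, Derivation.leibniz_pow, map_add, map_sub, vf_x, vf_y, vf_one,
        vf_two, smul_eq_mul, nsmul_eq_mul, Nat.cast_ofNat]
      ring
    · change (x * y * (x + y - 2) * (x - 1)) * vf (-1) (1) ((x + y - 2) * (x - 1)) =
        ((-1) * (x * y * (x + y - 2))) * ((x + y - 2) * (x - 1))
      simp only [Derivation.leibniz, Derivation.leibniz_pow, map_add, map_sub, vf_x, vf_y, vf_one,
        vf_two, smul_eq_mul, nsmul_eq_mul, Nat.cast_ofNat]
      ring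
    · change (x * y * (x + y - 2) * (x - 1)) * vf (-1) (1) (y * (x + y) ^ 2 * (x - 1) ^ 2) =
        ((1) * (x * (x + y - 2) * (x - 1)) + (-2) * (x * y * (x + y - 2))) * (y * (x + y) ^ 2 * (x - 1) ^ 2)
      simp only [Derivation.leibniz, Derivation.leibniz_pow, map_add, map_sub, vf_x, vf_y, vf_one,
        vf_two, smul_eq_mul, nsmul_eq_mul, Nat.cast_ofNat]
      ring
  · have h := hN.function_mem (x * y) _ h1
    rw [← map_mul, ← map_mul] at h
    have he : (x * y * (x + y - 2) * (x - 1)) * ((y - 1)) = (x * y) * FF 1 := by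
      rw [FF_one]
      ring
    rw [he]
    exact h

theorem low_22_u {N : AddSubgroup (MvPolynomial (Fin 3) (FractionRing P2))}
    (hN : IsDSubmodule FF N) (h0 : C (algebraMap P2 (FractionRing P2) (FF 0)) ∈ N) :
    C (algebraMap P2 (FractionRing P2) ((x * y * (x + y - 2) * (y - 1) : P2) ^ 2)) *
      (1 + ∑ j, C ((![1, 0, 2] j : ℕ) : FractionRing P2) * X j) ∈ N := by
  refine lower_aux FF FF_ne_zero hN (vf (0) (1)) ((x + y)) (x * y * (x + y - 2) * (y - 1)) ![1, 0, 2]
    ![x * y, (x + y - 2) * (y - 1) * (x - 1), y * (y - 1) * (x - 1) ^ 2]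
    ![(1) * (x * (x + y - 2) * (y - 1)), (1) * (x * y * (y - 1)) + (1) * (x * y * (x + y - 2)), (1) * (x * (x + y - 2) * (y - 1)) + (1) * (x * y * (x + y - 2))] line2 ?_ ?_ ?_ ?_
  · simp only [map_add, map_sub, vf_x, vf_y, vf_one, vf_two] <;> ring
  · intro j
    fin_cases j
    · change FF 0 = (x + y) ^ 1 * (x * y)
      rw [FF_zero]
      ring
    · change FF 1 = (x + y) ^ 0 * ((x + y - 2) * (y - 1) * (x - 1))
      rw [FF_one]
      ring
    · change FF 2 = (x + y) ^ 2 * (y * (y - 1) * (x - 1) ^ 2)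
      rw [FF_two]
      ring
  · intro j
    fin_cases j
    · change (x * y * (x + y - 2) * (y - 1)) * vf (0) (1) (x * y) =
        ((1) * (x * (x + y - 2) * (y - 1))) * (x * y)
      simp only [Derivation.leibniz, Derivation.leibniz_pow, map_add, map_sub, vf_x, vf_y, vf_one,
        vf_two, smul_eq_mul, nsmul_eq_mul, Nat.cast_ofNat]
      ring
    · change (x * y * (x + y - 2) * (y - 1)) * vf (0) (1) ((x + y - 2) * (y - 1) * (x - 1)) =
        ((1) * (x * y * (y - 1)) + (1) * (x * y * (x + y - 2))) * ((x + y - 2) * (y - 1) * (x - 1))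
      simp only [Derivation.leibniz, Derivation.leibniz_pow, map_add, map_sub, vf_x, vf_y, vf_one,
        vf_two, smul_eq_mul, nsmul_eq_mul, Nat.cast_ofNat]
      ring
    · change (x * y * (x + y - 2) * (y - 1)) * vf (0) (1) (y * (y - 1) * (x - 1) ^ 2) =
        ((1) * (x * (x + y - 2) * (y - 1)) + (1) * (x * y * (x + y - 2))) * (y * (y - 1) * (x - 1) ^ 2)
      simp only [Derivation.leibniz, Derivation.leibniz_pow, map_add, map_sub, vf_x, vf_y, vf_one,
        vf_two, smul_eq_mul, nsmul_eq_mul, Nat.cast_ofNat]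
      ring
  · have h := hN.function_mem ((x + y - 2) * (y - 1)) _ h0
    rw [← map_mul, ← map_mul] at h
    have he : (x * y * (x + y - 2) * (y - 1)) * ((x + y)) = ((x + y - 2) * (y - 1)) * FF 0 := by
      rw [FF_zero]
      ring
    rw [he]
    exact h

theorem low_22_v {N : AddSubgroup (MvPolynomial (Fin 3) (FractionRing P2))}
    (hN : IsDSubmodule FF N) (h1 : C (algebraMap P2 (FractionRing P2) (FF 1)) ∈ N) :
    C (algebraMap P2 (FractionRing P2) ((x * y * (x + y - 2) * (y - 1) : P2) ^ 2)) *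
      (1 + ∑ j, C ((![0, 1, 2] j : ℕ) : FractionRing P2) * X j) ∈ N := by
  refine lower_aux FF FF_ne_zero hN (vf (1) (-1)) ((x - 1)) (x * y * (x + y - 2) * (y - 1)) ![0, 1, 2]
    ![x * y * (x + y), (x + y - 2) * (y - 1), y * (x + y) ^ 2 * (y - 1)]
    ![(1) * (y * (x + y - 2) * (y - 1)) + (-1) * (x * (x + y - 2) * (y - 1)), (-1) * (x * y * (x + y - 2)), (-1) * (x * (x + y - 2) * (y - 1)) + (-1) * (x * y * (x + y - 2))] line5 ?_ ?_ ?_ ?_
  · simp only [map_add, map_sub, vf_x, vf_y, vf_one, vf_two] <;> ring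
  · intro j
    fin_cases j
    · change FF 0 = (x - 1) ^ 0 * (x * y * (x + y))
      rw [FF_zero]
      ring
    · change FF 1 = (x - 1) ^ 1 * ((x + y - 2) * (y - 1))
      rw [FF_one]
      ring
    · change FF 2 = (x - 1) ^ 2 * (y * (x + y) ^ 2 * (y - 1))
      rw [FF_two]
      ring
  · intro j
    fin_cases j
    · change (x * y * (x + y - 2) * (y - 1)) * vf (1) (-1) (x * y * (x + y)) =
        ((1) * (y * (x + y - 2) * (y - 1)) + (-1) * (x * (x + y - 2) * (y - 1))) * (x * y * (x + y))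
      simp only [Derivation.leibniz, Derivation.leibniz_pow, map_add, map_sub, vf_x, vf_y, vf_one,
        vf_two, smul_eq_mul, nsmul_eq_mul, Nat.cast_ofNat]
      ring
    · change (x * y * (x + y - 2) * (y - 1)) * vf (1) (-1) ((x + y - 2) * (y - 1)) =
        ((-1) * (x * y * (x + y - 2))) * ((x + y - 2) * (y - 1))
      simp only [Derivation.leibniz, Derivation.leibniz_pow, map_add, map_sub, vf_x, vf_y, vf_one,
        vf_two, smul_eq_mul, nsmul_eq_mul, Nat.cast_ofNat]
      ring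
    · change (x * y * (x + y - 2) * (y - 1)) * vf (1) (-1) (y * (x + y) ^ 2 * (y - 1)) =
        ((-1) * (x * (x + y - 2) * (y - 1)) + (-1) * (x * y * (x + y - 2))) * (y * (x + y) ^ 2 * (y - 1))
      simp only [Derivation.leibniz, Derivation.leibniz_pow, map_add, map_sub, vf_x, vf_y, vf_one,
        vf_two, smul_eq_mul, nsmul_eq_mul, Nat.cast_ofNat]
      ring
  · have h := hN.function_mem (x * y) _ h1
    rw [← map_mul, ← map_mul] at h
    have he : (x * y * (x + y - 2) * (y - 1)) * ((x - 1)) = (x * y) * FF 1 := by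
      rw [FF_one]
      ring
    rw [he]
    exact h

end Pool.Agent.H882R3.BS
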