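import Mathlib

set_option autoImplicit false

open MvPolynomial

namespace Pool.Agent.H882R3.BS

variable {S : Type*} [CommRing S] [IsDomain S] [Algebra ℂ S] {r : ℕ}

/-- A vector field on `X = Spec S`, as a `ℂ`-derivation of the function field `K = Frac S` that
maps `S` into itself. -/
def IsVectorField (δ : Derivation ℂ (FractionRing S) (FractionRing S)) : Prop :=
  ∀ a : S, ∃ b : S, δ (algebraMap S (FractionRing S) a) = algebraMap S (FractionRing S) b

/-- A derivation of `K` acting on the coefficients of a polynomial in `K[s_1, …, s_r]`. -/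
noncomputable def coeffwise (δ : Derivation ℂ (FractionRing S) (FractionRing S))
    (g : MvPolynomial (Fin r) (FractionRing S)) : MvPolynomial (Fin r) (FractionRing S) :=
  ∑ m ∈ g.support, monomial m (δ (coeff m g))

/-- An element `g` of `K[s]` stands for `g F^s`.  The vector field `δ` acts by
`δ (g F^s) = (δ g + g * (∑ s_j δ(f_j) / f_j)) F^s`. -/
noncomputable def act (F : Fin r → S) (δ : Derivation ℂ (FractionRing S) (FractionRing S))
    (g : MvPolynomial (Fin r) (FractionRing S)) : MvPolynomial (Fin r) (FractionRing S) :=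
  coeffwise δ g + g * ∑ j, X j * C (δ (algebraMap S (FractionRing S) (F j)) /
    algebraMap S (FractionRing S) (F j))

/-- `D_X[s]`-submodules of `K[s] F^s`: additive subgroups closed under multiplication by functions
in `S`, under multiplication by the variables `s_j` and under all vector fields (for smooth
affine `X` the ring `D_X` is generated by `S` and the vector fields). -/
structure IsDSubmodule (F : Fin r → S)
    (N : AddSubgroup (MvPolynomial (Fin r) (FractionRing S))) : Prop where
  function_mem : ∀ (a : S), ∀ g ∈ N, C (algebraMap S (FractionRing S) a) * g ∈ N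
  variable_mem : ∀ (j : Fin r), ∀ g ∈ N, X j * g ∈ N
  act_mem : ∀ δ : Derivation ℂ (FractionRing S) (FractionRing S), IsVectorField δ →
    ∀ g ∈ N, act F δ g ∈ N

/-- The `D_X[s]`-submodule `∑_j D_X[s] F^(s + m_j)` of `K[s] F^s`, generated by the elements
`F^(s + m_j) = (∏_i f_i ^ (m_j)_i) F^s`. -/
noncomputable def dSpan (F : Fin r → S) {p : ℕ} (m : Fin p → Fin r → ℕ) :
    AddSubgroup (MvPolynomial (Fin r) (FractionRing S)) :=
  sInf {N | IsDSubmodule F N ∧
    ∀ j : Fin p, C (∏ i, algebraMap S (FractionRing S) (F i) ^ m j i) ∈ N}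

theorem dSpan_isDSubmodule (F : Fin r → S) {p : ℕ} (m : Fin p → Fin r → ℕ) :
    IsDSubmodule F (dSpan F m) where
  function_mem a g hg := by
    rw [dSpan, AddSubgroup.mem_sInf] at hg ⊢
    exact fun N hN => hN.1.function_mem a g (hg N hN)
  variable_mem j g hg := by
    rw [dSpan, AddSubgroup.mem_sInf] at hg ⊢
    exact fun N hN => hN.1.variable_mem j g (hg N hN)
  act_mem δ hδ g hg := by
    rw [dSpan, AddSubgroup.mem_sInf] at hg ⊢
    exact fun N hN => hN.1.act_mem δ hδ g (hg N hN)

theorem gen_mem_dSpan (F : Fin r → S) {p : ℕ} (m : Fin p → Fin r → ℕ) (j : Fin p) :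
    C (∏ i, algebraMap S (FractionRing S) (F i) ^ m j i) ∈ dSpan F m := by
  rw [dSpan, AddSubgroup.mem_sInf]
  exact fun N hN => hN.2 j

theorem dSpan_le (F : Fin r → S) {p : ℕ} (m : Fin p → Fin r → ℕ)
    {N : AddSubgroup (MvPolynomial (Fin r) (FractionRing S))} (hN : IsDSubmodule F N)
    (h : ∀ j : Fin p, C (∏ i, algebraMap S (FractionRing S) (F i) ^ m j i) ∈ N) :
    dSpan F m ≤ N :=
  sInf_le ⟨hN, h⟩

/-- A `D_X[s]`-submodule is closed under multiplication by polynomials in `S[s]`. -/
theorem IsDSubmodule.poly_mem {F : Fin r → S}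
    {N : AddSubgroup (MvPolynomial (Fin r) (FractionRing S))} (hN : IsDSubmodule F N)
    (b : MvPolynomial (Fin r) S) {g : MvPolynomial (Fin r) (FractionRing S)} (hg : g ∈ N) :
    map (algebraMap S (FractionRing S)) b * g ∈ N := by
  induction b using MvPolynomial.induction_on generalizing g with
  | C a => rw [map_C]; exact hN.function_mem a g hg
  | add p q hp hq => rw [map_add, add_mul]; exact N.add_mem (hp hg) (hq hg)
  | mul_X p i hp =>
    rw [map_mul, map_X, mul_assoc]
    exact hp (hN.variable_mem i g hg)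

/-- The Bernstein-Sato ideal `B_F^(m_1, …, m_p)` in `ℂ[s_1, …, s_r]`: all `b` with
`b(s) F^s ∈ ∑_j D_X[s] F^(s + m_j)`. -/
noncomputable def bsIdeal (F : Fin r → S) {p : ℕ} (m : Fin p → Fin r → ℕ) :
    Ideal (MvPolynomial (Fin r) ℂ) where
  carrier := {b | map (algebraMap ℂ (FractionRing S)) b ∈ dSpan F m}
  add_mem' {a b} ha hb := by
    simp only [Set.mem_setOf_eq, map_add] at ha hb ⊢
    exact (dSpan F m).add_mem ha hb
  zero_mem' := by
    simp only [Set.mem_setOf_eq, map_zero]
    exact (dSpan F m).zero_mem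
  smul_mem' c b hb := by
    simp only [Set.mem_setOf_eq, smul_eq_mul, map_mul] at hb ⊢
    have h := (dSpan_isDSubmodule F m).poly_mem (map (algebraMap ℂ S) c) hb
    rwa [map_map, ← IsScalarTower.algebraMap_eq ℂ S (FractionRing S)] at h

theorem mem_bsIdeal {F : Fin r → S} {p : ℕ} {m : Fin p → Fin r → ℕ}
    {b : MvPolynomial (Fin r) ℂ} :
    b ∈ bsIdeal F m ↔ map (algebraMap ℂ (FractionRing S)) b ∈ dSpan F m := Iff.rfl

end Pool.Agent.H882R3.BS
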