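import Pool.Agent.H882R3.BSUp

set_option autoImplicit false
set_option linter.unusedSectionVars false
set_option linter.unusedVariables false
set_option linter.unusedSimpArgs false

open MvPolynomial

namespace Pool.Agent.H882R3.BS

/-- Restriction to the line through `z = (-1, -1, 0)` with direction `d`. -/
noncomputable def rho (d : Fin 3 → ℂ) : MvPolynomial (Fin 3) ℂ →ₐ[ℂ] Polynomial ℂ :=
  aeval (fun i => Polynomial.C ((![-1, -1, 0] : Fin 3 → ℂ) i) + Polynomial.X * Polynomial.C (d i))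

theorem eval_rho (d : Fin 3 → ℂ) (t : ℂ) (g : MvPolynomial (Fin 3) ℂ) :
    Polynomial.eval t (rho d g) = eval (fun i => (![-1, -1, 0] : Fin 3 → ℂ) i + t * d i) g := by
  have h : (Polynomial.evalRingHom t).comp (rho d : MvPolynomial (Fin 3) ℂ →+* Polynomial ℂ) =
      eval (fun i => (![-1, -1, 0] : Fin 3 → ℂ) i + t * d i) := by
    apply MvPolynomial.ringHom_ext
    · intro r
      simp [rho]
    · intro i
      simp [rho]
      ring
  exact congrArg (fun f : MvPolynomial (Fin 3) ℂ →+* ℂ => f g) h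

theorem rho_eq_zero {b : MvPolynomial (Fin 3) ℂ} (α β : ℕ)
    (h : ∀ t : ℤ, eval ![(-1 - α * t : ℂ), -1 - β * t, t] b = 0) :
    rho ![-(α : ℂ), -(β : ℂ), 1] b = 0 := by
  apply Polynomial.eq_zero_of_infinite_isRoot
  apply Set.Infinite.mono (s := Set.range (fun t : ℤ => (t : ℂ)))
  · rintro _ ⟨t, rfl⟩
    change Polynomial.eval (t : ℂ) (rho ![-(α : ℂ), -(β : ℂ), 1] b) = 0
    refine (eval_rho _ _ _).trans (Eq.trans ?_ (h t))
    congr 2
    funext i
    fin_cases i
    · change (-1 : ℂ) + t * (-(α : ℂ)) = -1 - α * t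
      ring
    · change (-1 : ℂ) + t * (-(β : ℂ)) = -1 - β * t
      ring
    · change (0 : ℂ) + t * 1 = t
      ring
  · exact Set.infinite_range_of_injective Int.cast_injective

/-- Linear form on directions. -/
def lf (m d : Fin 3 → ℂ) : ℂ := m 0 * d 0 + m 1 * d 1 + m 2 * d 2

/-- Polynomials of degree at most one restrict to `a + t m(d)`. -/
def Aff (l : MvPolynomial (Fin 3) ℂ) : Prop :=
  ∃ (a : ℂ) (m : Fin 3 → ℂ), ∀ d, rho d l = Polynomial.C a + Polynomial.X * Polynomial.C (lf m d)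

theorem Aff.add {l l' : MvPolynomial (Fin 3) ℂ} (h : Aff l) (h' : Aff l') : Aff (l + l') := by
  obtain ⟨a, m, h⟩ := h
  obtain ⟨a', m', h'⟩ := h'
  refine ⟨a + a', m + m', fun d => ?_⟩
  rw [map_add, h, h', map_add]
  have : lf (m + m') d = lf m d + lf m' d := by
    simp only [lf, Pi.add_apply]
    ring
  rw [this, map_add]
  ring

theorem Aff.C (c : ℂ) : Aff (C c) := by
  refine ⟨c, 0, fun d => ?_⟩
  simp [rho, lf]

theorem Aff.X (i : Fin 3) (c : ℂ) : Aff (monomial (Finsupp.single i 1) c) := by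
  refine ⟨c * (![-1, -1, 0] : Fin 3 → ℂ) i, Pi.single i c, fun d => ?_⟩
  have h : monomial (Finsupp.single i 1) c = MvPolynomial.C c * MvPolynomial.X i := by
    rw [← MvPolynomial.C_mul_X_eq_monomial]
  have h2 : lf (Pi.single i c) d = c * d i := by
    fin_cases i <;> simp [lf, Pi.single_apply]
  rw [h, h2]
  simp only [rho, map_mul, aeval_X, algHom_C, Polynomial.algebraMap_eq]
  ring

theorem aff_of_totalDegree_le_one (l : MvPolynomial (Fin 3) ℂ) (hl : l.totalDegree ≤ 1) :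
    Aff l := by
  rw [l.as_sum]
  apply Finset.sum_induction _ Aff (fun _ _ => Aff.add)
  · have := Aff.C 0
    rwa [map_zero] at this
  · intro s hs
    have h1 := (le_totalDegree hs).trans hl
    rw [Finsupp.sum_fintype _ _ (fun _ => rfl), Fin.sum_univ_three] at h1
    have h2 : (s 0 = 0 ∧ s 1 = 0 ∧ s 2 = 0) ∨ (s 0 = 1 ∧ s 1 = 0 ∧ s 2 = 0) ∨
        (s 0 = 0 ∧ s 1 = 1 ∧ s 2 = 0) ∨ (s 0 = 0 ∧ s 1 = 0 ∧ s 2 = 1) := by omega
    rcases h2 with h2 | h2 | h2 | h2
    · have : s = 0 := by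
        ext i; fin_cases i
        · exact h2.1
        · exact h2.2.1
        · exact h2.2.2
      rw [this]
      exact Aff.C _
    · have : s = Finsupp.single 0 1 := by
        ext i; fin_cases i
        · exact h2.1.trans (by simp [Finsupp.single_apply])
        · exact h2.2.1.trans (by simp [Finsupp.single_apply])
        · exact h2.2.2.trans (by simp [Finsupp.single_apply])
      rw [this]
      exact Aff.X _ _
    · have : s = Finsupp.single 1 1 := by
        ext i; fin_cases i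
        · exact h2.1.trans (by simp [Finsupp.single_apply])
        · exact h2.2.1.trans (by simp [Finsupp.single_apply])
        · exact h2.2.2.trans (by simp [Finsupp.single_apply])
      rw [this]
      exact Aff.X _ _
    · have : s = Finsupp.single 2 1 := by
        ext i; fin_cases i
        · exact h2.1.trans (by simp [Finsupp.single_apply])
        · exact h2.2.1.trans (by simp [Finsupp.single_apply])
        · exact h2.2.2.trans (by simp [Finsupp.single_apply])
      rw [this]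
      exact Aff.X _ _

/-- Shape of the two-jet at `z` of a product of polynomials of degree at most one. -/
def Phi (g : MvPolynomial (Fin 3) ℂ) : Prop :=
  (∃ c : ℂ, c ≠ 0 ∧ ∀ d, (rho d g).coeff 0 = c) ∨
  (∃ m : Fin 3 → ℂ, m ≠ 0 ∧ ∀ d, (rho d g).coeff 0 = 0 ∧ (rho d g).coeff 1 = lf m d) ∨
  (∃ m m' : Fin 3 → ℂ, ∀ d, (rho d g).coeff 0 = 0 ∧ (rho d g).coeff 1 = 0 ∧
    (rho d g).coeff 2 = lf m d * lf m' d)

theorem coeff_mul_aff (p : Polynomial ℂ) (a b : ℂ) :
    ((Polynomial.C a + Polynomial.X * Polynomial.C b) * p).coeff 0 = a * p.coeff 0 ∧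
    ((Polynomial.C a + Polynomial.X * Polynomial.C b) * p).coeff 1 =
      a * p.coeff 1 + b * p.coeff 0 ∧
    ((Polynomial.C a + Polynomial.X * Polynomial.C b) * p).coeff 2 =
      a * p.coeff 2 + b * p.coeff 1 := by
  have h : (Polynomial.C a + Polynomial.X * Polynomial.C b) * p =
      Polynomial.C a * p + Polynomial.X * (Polynomial.C b * p) := by ring
  refine ⟨?_, ?_, ?_⟩
  · rw [h, Polynomial.coeff_add, Polynomial.coeff_C_mul, Polynomial.mul_coeff_zero,
      Polynomial.coeff_X_zero, zero_mul, add_zero]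
  · rw [h, Polynomial.coeff_add, Polynomial.coeff_C_mul,
      show (1 : ℕ) = 0 + 1 from rfl, Polynomial.coeff_X_mul, Polynomial.coeff_C_mul]
  · rw [h, Polynomial.coeff_add, Polynomial.coeff_C_mul,
      show (2 : ℕ) = 1 + 1 from rfl, Polynomial.coeff_X_mul, Polynomial.coeff_C_mul]

theorem Phi.mul_aff {l g : MvPolynomial (Fin 3) ℂ} (hl : Aff l) (hg : Phi g) : Phi (l * g) := by
  obtain ⟨a, m, hl⟩ := hl
  have hc : ∀ d, (rho d (l * g)).coeff 0 = a * (rho d g).coeff 0 ∧
      (rho d (l * g)).coeff 1 = a * (rho d g).coeff 1 + lf m d * (rho d g).coeff 0 ∧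
      (rho d (l * g)).coeff 2 = a * (rho d g).coeff 2 + lf m d * (rho d g).coeff 1 := by
    intro d
    rw [map_mul, hl d]
    exact coeff_mul_aff _ _ _
  rcases hg with ⟨c, hc0, h⟩ | ⟨m', hm', h⟩ | ⟨m', m'', h⟩
  · by_cases ha : a = 0
    · by_cases hm : m = 0
      · right; right
        refine ⟨0, 0, fun d => ?_⟩
        obtain ⟨h0, h1, h2⟩ := hc d
        rw [h0, h1, h2, ha, hm]
        simp [lf]
      · right; left
        refine ⟨c • m, smul_ne_zero hc0 hm, fun d => ?_⟩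
        obtain ⟨h0, h1, h2⟩ := hc d
        rw [h0, h1, ha, h d]
        refine ⟨zero_mul _, ?_⟩
        simp only [lf, Pi.smul_apply, smul_eq_mul]
        ring
    · left
      refine ⟨a * c, mul_ne_zero ha hc0, fun d => ?_⟩
      rw [(hc d).1, h d]
  · by_cases ha : a = 0
    · right; right
      refine ⟨m, m', fun d => ?_⟩
      obtain ⟨h0, h1, h2⟩ := hc d
      rw [h0, h1, h2, ha, (h d).1, (h d).2]
      refine ⟨zero_mul _, by ring, by ring⟩
    · right; left
      refine ⟨a • m', smul_ne_zero ha hm', fun d => ?_⟩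
      obtain ⟨h0, h1, h2⟩ := hc d
      rw [h0, h1, (h d).1, (h d).2]
      refine ⟨mul_zero _, ?_⟩
      simp only [lf, Pi.smul_apply, smul_eq_mul]
      ring
  · right; right
    refine ⟨a • m', m'', fun d => ?_⟩
    obtain ⟨h0, h1, h2⟩ := hc d
    rw [h0, h1, h2, (h d).1, (h d).2.1, (h d).2.2]
    refine ⟨mul_zero _, by ring, ?_⟩
    simp only [lf, Pi.smul_apply, smul_eq_mul]
    ring

theorem phi_prod (L : Multiset (MvPolynomial (Fin 3) ℂ)) (hL : ∀ l ∈ L, l.totalDegree ≤ 1) :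
    Phi L.prod := by
  induction L using Multiset.induction_on with
  | empty =>
    left
    refine ⟨1, one_ne_zero, fun d => ?_⟩
    rw [Multiset.prod_zero, map_one, Polynomial.coeff_one_zero]
  | cons a s ih =>
    rw [Multiset.prod_cons]
    exact (ih fun l hl => hL l (Multiset.mem_cons_of_mem hl)).mul_aff
      (aff_of_totalDegree_le_one a (hL a (Multiset.mem_cons_self a s)))

theorem alg_aux (a b c a' b' c' : ℂ) (h00 : c * c' = 0)
    (h01 : (-b + c) * (-b' + c') = 0) (h10 : (-a + c) * (-a' + c') = 0)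
    (h12 : (-a - 2 * b + c) * (-a' - 2 * b' + c') = 0)
    (h21 : (-2 * a - b + c) * (-2 * a' - b' + c') = 0) :
    a * a' = 0 ∧ b * b' = 0 ∧ c * c' = 0 ∧ a * b' + b * a' = 0 ∧ a * c' + c * a' = 0 ∧
      b * c' + c * b' = 0 := by
  have e1 : b * b' = b * c' + c * b' := by linear_combination h01 - h00
  have e2 : a * a' = a * c' + c * a' := by linear_combination h10 - h00
  have e3 : a * b' + b * a' = - (b * b') := by
    linear_combination (1 / 2 : ℂ) * h12 - (1 / 2 : ℂ) * h00 - (1 / 2 : ℂ) * e2 - e1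
  have e4 : a * b' + b * a' = - (a * a') := by
    linear_combination (1 / 2 : ℂ) * h21 - (1 / 2 : ℂ) * h00 - (1 / 2 : ℂ) * e1 - e2
  have hid : 4 * (a * a') * (b * b') * (c * c') +
      (a * b' + b * a') * (a * c' + c * a') * (b * c' + c * b') -
      (a * a') * (b * c' + c * b') ^ 2 - (b * b') * (a * c' + c * a') ^ 2 -
      (c * c') * (a * b' + b * a') ^ 2 = 0 := by ring
  have e5 : a * a' = b * b' := by linear_combination e4 - e3
  rw [h00, ← e1, ← e2, e4, ← e5] at hid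
  have h3 : (a * a') ^ 3 = 0 := by linear_combination (-1 / 3 : ℂ) * hid
  have h4 : a * a' = 0 := by
    exact pow_eq_zero_iff (n := 3) (by norm_num) |>.mp h3
  refine ⟨h4, e5 ▸ h4, h00, ?_, ?_, ?_⟩
  · rw [e4, h4, neg_zero]
  · rw [← e2, h4]
  · rw [← e1, ← e5, h4]

theorem jets_zero {g : MvPolynomial (Fin 3) ℂ} (hg : Phi g) (hb : g ∈ bsIdeal FF mm)
    (d : Fin 3 → ℂ) :
    (rho d g).coeff 0 = 0 ∧ (rho d g).coeff 1 = 0 ∧ (rho d g).coeff 2 = 0 := by
  have r00 := rho_eq_zero 0 0 (up_00 hb)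
  have r01 := rho_eq_zero 0 1 (up_01 hb)
  have r10 := rho_eq_zero 1 0 (up_10 hb)
  have r12 := rho_eq_zero 1 2 (up_12 hb)
  have r21 := rho_eq_zero 2 1 (up_21 hb)
  have l00 : ∀ m, lf m ![-((0 : ℕ) : ℂ), -((0 : ℕ) : ℂ), 1] = m 2 := by
    intro m; simp [lf]
  have l01 : ∀ m, lf m ![-((0 : ℕ) : ℂ), -((1 : ℕ) : ℂ), 1] = -m 1 + m 2 := by
    intro m; simp [lf]
  have l10 : ∀ m, lf m ![-((1 : ℕ) : ℂ), -((0 : ℕ) : ℂ), 1] = -m 0 + m 2 := by
    intro m; simp [lf]
  have l12 : ∀ m, lf m ![-((1 : ℕ) : ℂ), -((2 : ℕ) : ℂ), 1] = -m 0 - 2 * m 1 + m 2 := by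
    intro m; simp [lf]; ring
  have l21 : ∀ m, lf m ![-((2 : ℕ) : ℂ), -((1 : ℕ) : ℂ), 1] = -2 * m 0 - m 1 + m 2 := by
    intro m; simp [lf]; ring
  rcases hg with ⟨c, hc0, h⟩ | ⟨m, hm, h⟩ | ⟨m, m', h⟩
  · exfalso
    have h1 := h ![-((0 : ℕ) : ℂ), -((0 : ℕ) : ℂ), 1]
    rw [r00, Polynomial.coeff_zero] at h1
    exact hc0 h1.symm
  · exfalso
    have h1 := (h ![-((0 : ℕ) : ℂ), -((0 : ℕ) : ℂ), 1]).2
    have h2 := (h ![-((0 : ℕ) : ℂ), -((1 : ℕ) : ℂ), 1]).2
    have h3 := (h ![-((1 : ℕ) : ℂ), -((0 : ℕ) : ℂ), 1]).2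
    rw [r00, Polynomial.coeff_zero, l00] at h1
    rw [r01, Polynomial.coeff_zero, l01] at h2
    rw [r10, Polynomial.coeff_zero, l10] at h3
    apply hm
    funext i
    fin_cases i
    · change m 0 = 0
      linear_combination h3 - h1
    · change m 1 = 0
      linear_combination h2 - h1
    · exact h1.symm
  · have h00 := (h ![-((0 : ℕ) : ℂ), -((0 : ℕ) : ℂ), 1]).2.2
    have h01 := (h ![-((0 : ℕ) : ℂ), -((1 : ℕ) : ℂ), 1]).2.2
    have h10 := (h ![-((1 : ℕ) : ℂ), -((0 : ℕ) : ℂ), 1]).2.2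
    have h12 := (h ![-((1 : ℕ) : ℂ), -((2 : ℕ) : ℂ), 1]).2.2
    have h21 := (h ![-((2 : ℕ) : ℂ), -((1 : ℕ) : ℂ), 1]).2.2
    rw [r00, Polynomial.coeff_zero, l00, l00] at h00
    rw [r01, Polynomial.coeff_zero, l01, l01] at h01
    rw [r10, Polynomial.coeff_zero, l10, l10] at h10
    rw [r12, Polynomial.coeff_zero, l12, l12] at h12
    rw [r21, Polynomial.coeff_zero, l21, l21] at h21
    obtain ⟨k1, k2, k3, k4, k5, k6⟩ := alg_aux _ _ _ _ _ _ h00.symm h01.symm h10.symm h12.symm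
      h21.symm
    obtain ⟨q0, q1, q2⟩ := h d
    refine ⟨q0, q1, ?_⟩
    rw [q2]
    simp only [lf]
    linear_combination (d 0 ^ 2) * k1 + (d 1 ^ 2) * k2 + (d 2 ^ 2) * k3 + (d 0 * d 1) * k4 +
      (d 0 * d 2) * k5 + (d 1 * d 2) * k6

theorem not_span (G : Set (MvPolynomial (Fin 3) ℂ))
    (hG : ∀ g ∈ G, ∃ L : Multiset (MvPolynomial (Fin 3) ℂ),
      (∀ l ∈ L, l.totalDegree ≤ 1) ∧ g = L.prod) :
    Ideal.span G ≠ bsIdeal FF mm := by
  intro hspan
  let d : Fin 3 → ℂ := ![1, 0, 0]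
  have hle : Ideal.span G ≤ Ideal.comap (rho d : MvPolynomial (Fin 3) ℂ →+* Polynomial ℂ)
      (Ideal.span {(Polynomial.X : Polynomial ℂ) ^ 3}) := by
    rw [Ideal.span_le]
    intro g hg
    rw [SetLike.mem_coe, Ideal.mem_comap, Ideal.mem_span_singleton, Polynomial.X_pow_dvd_iff]
    obtain ⟨L, hL, rfl⟩ := hG g hg
    have hmem : L.prod ∈ bsIdeal FF mm := by
      rw [← hspan]
      exact Ideal.subset_span hg
    obtain ⟨h0, h1, h2⟩ := jets_zero (phi_prod L hL) hmem d
    intro k hk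
    interval_cases k
    · exact h0
    · exact h1
    · exact h2
  have hq : qq ∈ Ideal.span G := by
    rw [hspan]
    exact qq_mem
  have h2 := hle hq
  rw [Ideal.mem_comap, Ideal.mem_span_singleton, Polynomial.X_pow_dvd_iff] at h2
  have h3 := h2 2 (by norm_num)
  have h4 : rho d qq = Polynomial.X ^ 2 := by
    have hd0 : d 0 = 1 := rfl
    have hd1 : d 1 = 0 := rfl
    have hd2 : d 2 = 0 := rfl
    simp [rho, qq, hd0, hd1, hd2]
  change (rho d qq).coeff 2 = 0 at h3
  rw [h4, Polynomial.coeff_X_pow] at h3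
  simp at h3

end Pool.Agent.H882R3.BS
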