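import Pool.Agent.H882R3.BSPoint

set_option autoImplicit false
set_option linter.unusedSectionVars false

open MvPolynomial TensorProduct

namespace Pool.Agent.H882R3.BS

/-- Derivations extend to the field of fractions (proof as in `Pool.Agent.H920R2.Fol4`). -/
theorem exists_der_frac {k B : Type*} [Field k] [CommRing B] [IsDomain B] [Algebra k B]
    (E : Derivation k B B) : ∃ E' : Derivation k (FractionRing B) (FractionRing B),
      ∀ b, E' (algebraMap B (FractionRing B) b) = algebraMap B (FractionRing B) (E b) := by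
  let L := FractionRing B
  have hfe : Algebra.FormallyEtale B L :=
    Algebra.FormallyEtale.of_isLocalization (nonZeroDivisors B)
  let l0 : Ω[B⁄k] →ₗ[B] L := (Algebra.linearMap B L) ∘ₗ E.liftKaehlerDifferential
  let l : L ⊗[B] Ω[B⁄k] →ₗ[L] L := LinearMap.liftBaseChange L l0
  let e := KaehlerDifferential.tensorKaehlerEquivOfFormallyEtale k B L
  refine ⟨(l ∘ₗ e.symm.toLinearMap).compDer (KaehlerDifferential.D k L), fun c => ?_⟩
  change l (e.symm (KaehlerDifferential.D k L (algebraMap B L c))) = _
  rw [KaehlerDifferential.tensorKaehlerEquivOfFormallyEtale_symm_D_algebraMap,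
    LinearMap.liftBaseChange_tmul, one_smul]
  change algebraMap B L (E.liftKaehlerDifferential (KaehlerDifferential.D k B c)) = _
  rw [Derivation.liftKaehlerDifferential_comp_D]

section lower

variable {S : Type*} [CommRing S] [IsDomain S] [Algebra ℂ S] {r : ℕ}

theorem lower_aux (F : Fin r → S) (hF : ∀ j, F j ≠ 0)
    {N : AddSubgroup (MvPolynomial (Fin r) (FractionRing S))} (hN : IsDSubmodule F N)
    (D : Derivation ℂ S S) (u e : S) (n : Fin r → ℕ) (g R : Fin r → S)
    (hu : u ≠ 0) (hDu : D u = 1) (hFg : ∀ j, F j = u ^ n j * g j)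
    (hR : ∀ j, e * D (g j) = R j * g j)
    (hmem : C (algebraMap S (FractionRing S) (e * u)) ∈ N) :
    C (algebraMap S (FractionRing S) (e ^ 2)) * (1 + ∑ j, C (n j : FractionRing S) * X j) ∈ N := by
  obtain ⟨δ, hδ⟩ := exists_der_frac D
  have hvf : IsVectorField δ := fun a => ⟨D a, hδ a⟩
  set ι := algebraMap S (FractionRing S) with hι
  have hinj : Function.Injective ι := IsFractionRing.injective S (FractionRing S)
  have hne : ∀ a : S, a ≠ 0 → ι a ≠ 0 := fun a ha h => ha (hinj (by rw [h, map_zero]))
  have hu0 := hne u hu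
  have hg0 : ∀ j, ι (g j) ≠ 0 := by
    intro j
    apply hne
    intro h
    apply hF j
    rw [hFg j, h, mul_zero]
  have hδu : δ (ι u) = 1 := by rw [hδ, hDu, map_one]
  -- logarithmic derivatives
  have hlog : ∀ j, ι e * ι e * ι u * (δ (ι (F j)) / ι (F j)) =
      ι e * ι e * (n j : FractionRing S) + ι e * ι u * ι (R j) := by
    intro j
    have h1 : ι e * δ (ι (g j)) = ι (R j) * ι (g j) := by
      rw [hδ, ← map_mul, hR j, map_mul]
    have h2 : δ (ι (F j)) = ι u ^ n j * δ (ι (g j)) +
        ι (g j) * ((n j : FractionRing S) * ι u ^ (n j - 1)) := by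
      rw [hFg j, map_mul, map_pow, Derivation.leibniz, Derivation.leibniz_pow, hδu]
      simp only [smul_eq_mul, nsmul_eq_mul, mul_one]
    rw [h2, hFg j, map_mul, map_pow]
    rcases Nat.eq_zero_or_pos (n j) with h0 | h0
    · rw [h0]
      simp only [pow_zero, one_mul, Nat.cast_zero, zero_mul, mul_zero, add_zero, zero_add]
      have hgj := hg0 j
      field_simp
      linear_combination (ι e) * h1
    · obtain ⟨m, hm⟩ : ∃ m, n j = m + 1 := ⟨n j - 1, by omega⟩
      rw [hm, Nat.add_sub_cancel]
      have hgj := hg0 j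
      have hum : ι u ^ m ≠ 0 := pow_ne_zero _ hu0
      rw [pow_succ]
      field_simp
      linear_combination (ι e * ι u) * h1
  have hact := hN.act_mem δ hvf _ hmem
  rw [act, coeffwise_C] at hact
  have hact2 := hN.function_mem e _ hact
  -- the correction term
  have hcorr := hN.poly_mem (C (D e) + ∑ j, C (R j) * X j) hmem
  have hsub := N.sub_mem hact2 hcorr
  have hkey : C (ι e) * (C (δ (ι (e * u))) + C (ι (e * u)) * ∑ j, X j * C (δ (ι (F j)) / ι (F j))) -
      map ι (C (D e) + ∑ j, C (R j) * X j) * C (ι (e * u)) =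
      C (ι (e ^ 2)) * (1 + ∑ j, C (n j : FractionRing S) * X j) := by
    have h3 : δ (ι (e * u)) = ι (D e) * ι u + ι e := by
      rw [map_mul, Derivation.leibniz, hδu, hδ e]
      simp only [smul_eq_mul, mul_one]
      ring
    rw [h3]
    simp only [map_add, map_mul, map_sum, map_C, map_X, map_pow]
    rw [mul_add, ← mul_assoc, Finset.mul_sum, mul_add (C (ι e) ^ 2), Finset.mul_sum]
    have h4 : ∑ i, C (ι e) * (C (ι e) * C (ι u)) * (X i * C (δ (ι (F i)) / ι (F i))) =
        ∑ i : Fin r, C (ι e) ^ 2 * (C (n i : FractionRing S) * X i) +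
          (∑ i : Fin r, C (ι (R i)) * X i) * (C (ι e) * C (ι u)) := by
      rw [Finset.sum_mul, ← Finset.sum_add_distrib]
      apply Finset.sum_congr rfl
      intro j _
      have h5 := congrArg (fun w : FractionRing S => (C w : MvPolynomial (Fin r) (FractionRing S)))
        (hlog j)
      simp only [map_mul, map_add] at h5
      linear_combination (X j) * h5
    rw [h4]
    ring
  rw [hkey] at hsub
  exact hsub

end lower

end Pool.Agent.H882R3.BS
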