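import Pool.Agent.H882R3.BSConc

set_option autoImplicit false
set_option linter.unusedSectionVars false
set_option linter.unusedVariables false
set_option linter.unusedSimpArgs false

open MvPolynomial

namespace Pool.Agent.H882R3.BS

/-- The quadric `(s₁+1)² - (s₁+1)(s₂+1) + (s₂+1)² + ((s₁+1) + (s₂+1)) s₃`. -/
noncomputable def qq : MvPolynomial (Fin 3) ℂ :=
  (X 0 + 1) ^ 2 - (X 0 + 1) * (X 1 + 1) + (X 1 + 1) ^ 2 + ((X 0 + 1) + (X 1 + 1)) * X 2

theorem comb {N : AddSubgroup (MvPolynomial (Fin 3) (FractionRing P2))}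
    (hN : IsDSubmodule FF N) (e : P2) (α β : ℕ) (hc : α ^ 2 + β ^ 2 = α * β + α + β)
    (h1 : C (algebraMap P2 (FractionRing P2) (e ^ 2)) *
      (1 + ∑ j, C ((![1, 0, α] j : ℕ) : FractionRing P2) * X j) ∈ N)
    (h2 : C (algebraMap P2 (FractionRing P2) (e ^ 2)) *
      (1 + ∑ j, C ((![0, 1, β] j : ℕ) : FractionRing P2) * X j) ∈ N) :
    C (algebraMap P2 (FractionRing P2) (e ^ 2)) *
      map (algebraMap ℂ (FractionRing P2)) qq ∈ N := by
  have k1 := hN.poly_mem ((1 + X 0 + (α : MvPolynomial (Fin 3) P2) * X 2) -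
    2 * (α : MvPolynomial (Fin 3) P2) * X 2 - (1 + X 1 + (β : MvPolynomial (Fin 3) P2) * X 2) +
    (β : MvPolynomial (Fin 3) P2) * X 2 + X 2) h1
  have k2 := hN.poly_mem ((1 + X 1 + (β : MvPolynomial (Fin 3) P2) * X 2) +
    (α : MvPolynomial (Fin 3) P2) * X 2 - 2 * (β : MvPolynomial (Fin 3) P2) * X 2 + X 2) h2
  have k3 := N.add_mem k1 k2
  have hrel : (α : MvPolynomial (Fin 3) (FractionRing P2)) ^ 2 +
      (β : MvPolynomial (Fin 3) (FractionRing P2)) ^ 2 = α * β + α + β := by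
    exact_mod_cast hc
  have e0 : ((![1, 0, α] : Fin 3 → ℕ) 0) = 1 := rfl
  have e1 : ((![1, 0, α] : Fin 3 → ℕ) 1) = 0 := rfl
  have e2 : ((![1, 0, α] : Fin 3 → ℕ) 2) = α := rfl
  have f0 : ((![0, 1, β] : Fin 3 → ℕ) 0) = 0 := rfl
  have f1 : ((![0, 1, β] : Fin 3 → ℕ) 1) = 1 := rfl
  have f2 : ((![0, 1, β] : Fin 3 → ℕ) 2) = β := rfl
  refine (congrArg (· ∈ N) ?_).mp k3
  rw [Fin.sum_univ_three, Fin.sum_univ_three, e0, e1, e2, f0, f1, f2, qq]
  simp only [map_add, map_sub, map_mul, map_pow, map_one, map_X, map_natCast, map_ofNat,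
    Nat.cast_one, Nat.cast_zero, map_zero]
  linear_combination (-(C (algebraMap P2 (FractionRing P2) e) ^ 2 * X 2 ^ 2)) * hrel

theorem cert :
    (1 : P2) * (y * (x + y) * (y - 1) * (x - 1)) ^ 2 +
    16 * (y * (x + y) * (x + y - 2) * (x - 1)) ^ 2 +
    1 * (x * (x + y) * (y - 1) * (x - 1)) ^ 2 +
    16 * (x * (x + y) * (x + y - 2) * (y - 1)) ^ 2 +
    1 * (x * y * (x + y - 2) * (x - 1)) ^ 2 +
    1 * (x * y * (x + y - 2) * (y - 1)) ^ 2 +
    ((-34) * x ^ 4 * y + (17) * x ^ 4 + (-98) * x ^ 3 * y ^ 2 + (266) * x ^ 3 * y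
       + (-115) * x ^ 3 + (-98) * x ^ 2 * y ^ 3 + (456) * x ^ 2 * y ^ 2 + (-630) * x ^ 2 * y
       + (229) * x ^ 2 + (-34) * x * y ^ 4 + (228) * x * y ^ 3 + (-516) * x * y ^ 2
       + (454) * x * y + (-149) * x + (17) * y ^ 4 + (-77) * y ^ 3 + (115) * y ^ 2 + (-73) * y
       + (50)) * FF 0 +
    ((17) * x ^ 4 + (-15) * x ^ 3 + (-14) * x ^ 2 + (38) * x * y ^ 3 + (-20) * x * y
       + (-12) * x + (17) * y ^ 4 + (-15) * y ^ 3 + (-14) * y ^ 2 + (-12) * y + (-8)) * FF 1 = 16 := by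
  rw [FF_zero, FF_one]
  ring

theorem qq_mem : qq ∈ bsIdeal FF mm := by
  rw [mem_bsIdeal]
  have hN := dSpan_isDSubmodule FF mm
  have h0 : C (algebraMap P2 (FractionRing P2) (FF 0)) ∈ dSpan FF mm := by
    have h := gen_mem_dSpan FF mm 0
    rw [Fin.prod_univ_three] at h
    change C (algebraMap P2 (FractionRing P2) (FF 0) ^ 1 * algebraMap P2 (FractionRing P2) (FF 1) ^ 0 *
      algebraMap P2 (FractionRing P2) (FF 2) ^ 0) ∈ _ at h
    rwa [pow_one, pow_zero, pow_zero, mul_one, mul_one] at h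
  have h1 : C (algebraMap P2 (FractionRing P2) (FF 1)) ∈ dSpan FF mm := by
    have h := gen_mem_dSpan FF mm 1
    rw [Fin.prod_univ_three] at h
    change C (algebraMap P2 (FractionRing P2) (FF 0) ^ 0 * algebraMap P2 (FractionRing P2) (FF 1) ^ 1 *
      algebraMap P2 (FractionRing P2) (FF 2) ^ 0) ∈ _ at h
    rwa [pow_one, pow_zero, pow_zero, mul_one, one_mul] at h
  set N := dSpan FF mm with hNdef
  set Q := map (algebraMap ℂ (FractionRing P2)) qq with hQ
  have p0 := comb hN _ 0 0 (by norm_num) (low_00_u hN h0) (low_00_v hN h1)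
  have p1 := comb hN _ 0 1 (by norm_num) (low_01_u hN h0) (low_01_v hN h1)
  have p2 := comb hN _ 1 0 (by norm_num) (low_10_u hN h0) (low_10_v hN h1)
  have p3 := comb hN _ 1 2 (by norm_num) (low_12_u hN h0) (low_12_v hN h1)
  have p4 := comb hN _ 2 1 (by norm_num) (low_21_u hN h0) (low_21_v hN h1)
  have p5 := comb hN _ 2 2 (by norm_num) (low_22_u hN h0) (low_22_v hN h1)
  have q0 := hN.poly_mem (map (algebraMap ℂ P2) qq * C ((-34) * x ^ 4 * y + (17) * x ^ 4 + (-98) * x ^ 3 * y ^ 2 + (266) * x ^ 3 * y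
       + (-115) * x ^ 3 + (-98) * x ^ 2 * y ^ 3 + (456) * x ^ 2 * y ^ 2 + (-630) * x ^ 2 * y
       + (229) * x ^ 2 + (-34) * x * y ^ 4 + (228) * x * y ^ 3 + (-516) * x * y ^ 2
       + (454) * x * y + (-149) * x + (17) * y ^ 4 + (-77) * y ^ 3 + (115) * y ^ 2 + (-73) * y
       + (50))) h0
  have q1 := hN.poly_mem (map (algebraMap ℂ P2) qq * C ((17) * x ^ 4 + (-15) * x ^ 3 + (-14) * x ^ 2 + (38) * x * y ^ 3 + (-20) * x * y
       + (-12) * x + (17) * y ^ 4 + (-15) * y ^ 3 + (-14) * y ^ 2 + (-12) * y + (-8))) h1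
  have r0 := hN.function_mem 1 _ p0
  have r1 := hN.function_mem 16 _ p1
  have r2 := hN.function_mem 1 _ p2
  have r3 := hN.function_mem 16 _ p3
  have r4 := hN.function_mem 1 _ p4
  have r5 := hN.function_mem 1 _ p5
  have t := N.add_mem (N.add_mem (N.add_mem (N.add_mem (N.add_mem (N.add_mem (N.add_mem r0 r1) r2) r3) r4) r5) q0) q1
  have hmm : ∀ a : P2, map (algebraMap P2 (FractionRing P2)) (map (algebraMap ℂ P2) qq * C a) =
      Q * C (algebraMap P2 (FractionRing P2) a) := by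
    intro a
    rw [map_mul, map_map, ← IsScalarTower.algebraMap_eq ℂ P2 (FractionRing P2), map_C]
  have hfin : C (algebraMap P2 (FractionRing P2) 16) * Q ∈ N := by
    rw [← cert]
    refine (congrArg (· ∈ N) ?_).mp t
    rw [hmm, hmm]
    simp only [map_add (algebraMap P2 (FractionRing P2)), map_mul (algebraMap P2 (FractionRing P2)),
      map_add (C : FractionRing P2 →+* MvPolynomial (Fin 3) (FractionRing P2)),
      map_mul (C : FractionRing P2 →+* MvPolynomial (Fin 3) (FractionRing P2)), map_pow]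
    ring
  have h16 := hN.function_mem (C (1 / 16 : ℂ)) _ hfin
  have hone : C (algebraMap P2 (FractionRing P2) (C (1 / 16 : ℂ))) *
      (C (algebraMap P2 (FractionRing P2) 16) * Q) = Q := by
    rw [← mul_assoc, ← map_mul, ← map_mul]
    have : (C (1 / 16 : ℂ) : P2) * 16 = 1 := by
      have h : (16 : P2) = C (16 : ℂ) := by rw [map_ofNat]
      rw [h, ← map_mul]
      norm_num
    rw [this, map_one, map_one, one_mul]
  rw [hone] at h16
  exact h16

end Pool.Agent.H882R3.BS
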