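import Pool.Agent.H882R3.BSUpper

set_option autoImplicit false
set_option linter.unusedSectionVars false

open MvPolynomial

namespace Pool.Agent.H882R3.BS

/-- The coordinate ring of the affine plane. -/
abbrev P2 : Type := MvPolynomial (Fin 2) ℂ

section point

variable {S : Type*} [CommRing S] [IsDomain S] [Algebra ℂ S]

/-- Denominators `h * u ^ k` with `h` not vanishing at the point given by `φ`. -/
def den (φ : S →ₐ[ℂ] P2) (u : S) : Submonoid S where
  carrier := {d | ∃ h : S, constantCoeff (φ h) ≠ 0 ∧ ∃ k : ℕ, d = h * u ^ k}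
  one_mem' := ⟨1, by simp, 0, by simp⟩
  mul_mem' := by
    rintro a b ⟨h, hh, k, rfl⟩ ⟨h', hh', k', rfl⟩
    refine ⟨h * h', ?_, k + k', by ring⟩
    rw [map_mul, map_mul]
    exact mul_ne_zero hh hh'

theorem coeff_aux (l k : ℕ) (p q : P2) :
    coeff (Finsupp.single 0 l + Finsupp.single 1 k) (X 0 ^ (l + 1) * p + X 1 ^ (k + 1) * q) = 0 := by
  rw [coeff_add, X_pow_eq_monomial, X_pow_eq_monomial, coeff_monomial_mul', coeff_monomial_mul',
    if_neg, if_neg, add_zero]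
  · intro h
    have h1 := h 1
    simp at h1
  · intro h
    have h1 := h 0
    simp at h1

theorem coeff_aux2 (l k : ℕ) (g : P2) :
    coeff (Finsupp.single 0 l + Finsupp.single 1 k) (X 1 ^ k * (X 0 ^ l * g)) =
      constantCoeff g := by
  rw [← mul_assoc, X_pow_eq_monomial, X_pow_eq_monomial, monomial_mul, add_comm (Finsupp.single 1 k),
    one_mul, coeff_monomial_mul', if_pos le_rfl, one_mul, tsub_self]
  rfl

theorem not_mem_aux (φ : S →ₐ[ℂ] P2) (u v : S) (hu : φ u = X 0) (hv : φ v = X 1)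
    {w w₁ w₂ : FractionRing S} {G₁ G₂ : S} (hG₁ : constantCoeff (φ G₁) ≠ 0)
    (hw : algebraMap S (FractionRing S) (G₂ * (u * v)) * w = algebraMap S (FractionRing S) G₁)
    (h₁ : w₁ ∈ regSet (den φ v)) (h₂ : w₂ ∈ regSet (den φ u)) (h : w = w₁ + w₂) : False := by
  obtain ⟨d₁, ⟨a₁, ha₁, k, rfl⟩, b₁, e₁⟩ := h₁
  obtain ⟨d₂, ⟨a₂, ha₂, l, rfl⟩, b₂, e₂⟩ := h₂
  have key : G₂ * (u * v) * (a₂ * u ^ l * b₁ + a₁ * v ^ k * b₂) =
      G₁ * (a₁ * v ^ k) * (a₂ * u ^ l) := by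
    apply IsFractionRing.injective S (FractionRing S)
    rw [map_mul, map_mul (algebraMap S (FractionRing S)) (G₁ * _),
      map_mul (algebraMap S (FractionRing S)) G₁, ← hw, h, map_add,
      map_mul (algebraMap S (FractionRing S)) _ b₁, map_mul (algebraMap S (FractionRing S)) _ b₂,
      ← e₁, ← e₂]
    ring
  have key2 := congrArg φ key
  simp only [map_mul, map_add, map_pow, hu, hv] at key2
  have key3 : X 1 ^ k * (X 0 ^ l * (φ G₁ * φ a₁ * φ a₂)) =
      X 0 ^ (l + 1) * (φ G₂ * X 1 * φ a₂ * φ b₁) +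
        X 1 ^ (k + 1) * (φ G₂ * X 0 * φ a₁ * φ b₂) := by
    linear_combination (-1 : P2) * key2
  have key4 := congrArg (coeff (Finsupp.single 0 l + Finsupp.single 1 k)) key3
  rw [coeff_aux, coeff_aux2, map_mul, map_mul] at key4
  exact mul_ne_zero (mul_ne_zero hG₁ ha₁) ha₂ key4

/-- Rational functions that are units at the point given by `φ`. -/
def PUnit' (φ : S →ₐ[ℂ] P2) (w : FractionRing S) : Prop :=
  ∃ g h : S, constantCoeff (φ g) ≠ 0 ∧ constantCoeff (φ h) ≠ 0 ∧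
    algebraMap S (FractionRing S) h * w = algebraMap S (FractionRing S) g

theorem PUnit'.mul {φ : S →ₐ[ℂ] P2} {w w' : FractionRing S} (h : PUnit' φ w) (h' : PUnit' φ w') :
    PUnit' φ (w * w') := by
  obtain ⟨g, d, hg, hd, e⟩ := h
  obtain ⟨g', d', hg', hd', e'⟩ := h'
  refine ⟨g * g', d * d', ?_, ?_, ?_⟩
  · rw [map_mul, map_mul]; exact mul_ne_zero hg hg'
  · rw [map_mul, map_mul]; exact mul_ne_zero hd hd'
  · rw [map_mul, map_mul, ← e, ← e']; ring

theorem PUnit'.of {φ : S →ₐ[ℂ] P2} {g : S} (h : constantCoeff (φ g) ≠ 0) :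
    PUnit' φ (algebraMap S (FractionRing S) g) :=
  ⟨g, 1, h, by simp, by simp⟩

theorem PUnit'.one {φ : S →ₐ[ℂ] P2} : PUnit' φ (1 : FractionRing S) :=
  ⟨1, 1, by simp, by simp, by simp⟩

theorem PUnit'.pow {φ : S →ₐ[ℂ] P2} {w : FractionRing S} (h : PUnit' φ w) (n : ℕ) :
    PUnit' φ (w ^ n) := by
  induction n with
  | zero => rw [pow_zero]; exact PUnit'.one
  | succ n ih => rw [pow_succ]; exact ih.mul h

theorem PUnit'.inv {φ : S →ₐ[ℂ] P2} {w : FractionRing S} (h : PUnit' φ w) :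
    PUnit' φ w⁻¹ := by
  obtain ⟨g, d, hg, hd, e⟩ := h
  refine ⟨d, g, hd, hg, ?_⟩
  have hw : w ≠ 0 := by
    rintro rfl
    rw [mul_zero] at e
    have : g = 0 := (IsFractionRing.injective S (FractionRing S)) (by rw [← e, map_zero])
    rw [this, map_zero, map_zero] at hg
    exact hg rfl
  rw [← e, mul_assoc, mul_inv_cancel₀ hw, mul_one]

theorem PUnit'.zpow {φ : S →ₐ[ℂ] P2} {w : FractionRing S} (h : PUnit' φ w) (n : ℤ) :
    PUnit' φ (w ^ n) := by
  cases n with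
  | ofNat n => rw [Int.ofNat_eq_natCast, zpow_natCast]; exact h.pow n
  | negSucc n => rw [zpow_negSucc]; exact (h.pow (n + 1)).inv

/-- The index data `K = ⟨e_1, e_2⟩` in three variables. -/
def mm : Fin 2 → Fin 3 → ℕ := ![![1, 0, 0], ![0, 1, 0]]

/-- Upper bound for the ideal: vanishing along the line attached to a crossing point. -/
theorem eval_eq_zero (F : Fin 3 → S) (hF : ∀ j, F j ≠ 0) (φ : S →ₐ[ℂ] P2) (u v : S)
    (hu : φ u = X 0) (hv : φ v = X 1) (g₀ g₁ g₂ : S) (α β : ℕ)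
    (h₀ : F 0 = u * g₀) (h₁ : F 1 = v * g₁) (h₂ : F 2 = u ^ α * v ^ β * g₂)
    (c₀ : constantCoeff (φ g₀) ≠ 0) (c₁ : constantCoeff (φ g₁) ≠ 0)
    (c₂ : constantCoeff (φ g₂) ≠ 0) {b : MvPolynomial (Fin 3) ℂ} (hb : b ∈ bsIdeal F mm) (t : ℤ) :
    eval ![(-1 - α * t : ℂ), -1 - β * t, t] b = 0 := by
  set ι := algebraMap S (FractionRing S) with hι
  have hinj : Function.Injective ι := IsFractionRing.injective S (FractionRing S)
  have hu0 : ι u ≠ 0 := by
    intro h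
    have : u = 0 := hinj (by rw [h, map_zero])
    rw [this, map_zero] at hu
    exact X_ne_zero 0 hu.symm
  have hv0 : ι v ≠ 0 := by
    intro h
    have : v = 0 := hinj (by rw [h, map_zero])
    rw [this, map_zero] at hv
    exact X_ne_zero 1 hv.symm
  let σ : Fin 3 → ℤ := ![-1 - α * t, -1 - β * t, t]
  have hσ0 : σ 0 = -1 - α * t := rfl
  have hσ1 : σ 1 = -1 - β * t := rfl
  have hσ2 : σ 2 = t := rfl
  -- the function `F^σ`
  have hFs : ι (u * v) * ∏ j, ι (F j) ^ σ j = (ι g₀) ^ (-1 - α * t) * (ι g₁) ^ (-1 - β * t) *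
      (ι g₂) ^ t := by
    rw [Fin.prod_univ_three, h₀, h₁, h₂, hσ0, hσ1, hσ2]
    simp only [map_mul, map_pow, mul_zpow]
    rw [← zpow_natCast (ι u), ← zpow_natCast (ι v), ← zpow_mul, ← zpow_mul, sub_eq_add_neg,
      sub_eq_add_neg, zpow_add₀ hu0, zpow_add₀ hv0, zpow_neg (ι u) (α * t),
      zpow_neg (ι v) (β * t), zpow_neg_one, zpow_neg_one]
    have hx : ι u ^ ((α : ℤ) * t) ≠ 0 := zpow_ne_zero _ hu0
    have hy : ι v ^ ((β : ℤ) * t) ≠ 0 := zpow_ne_zero _ hv0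
    field_simp
  obtain ⟨G₁, G₂, hG₁, hG₂, hG⟩ : PUnit' φ (ι (u * v) * ∏ j, ι (F j) ^ σ j) := by
    rw [hFs]
    exact (((PUnit'.of c₀).zpow _).mul ((PUnit'.of c₁).zpow _)).mul ((PUnit'.of c₂).zpow _)
  have hle : dSpan F mm ≤ specSub F σ (den φ v) (den φ u) := by
    apply dSpan_le F mm (specSub_isDSubmodule F hF σ _ _)
    intro j
    fin_cases j
    · -- `f_1 F^σ` has no pole along `u = 0`
      refine ⟨_, ?_, 0, (regSet _).zero_mem, (add_zero _).symm⟩
      refine ⟨G₂ * v ^ 1, ⟨G₂, hG₂, 1, rfl⟩, G₁ * g₀, ?_⟩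
      rw [spec, eval_C, Fin.prod_univ_three (f := fun i => ι (F i) ^ _)]
      change ι (G₂ * v ^ 1) * (ι (F 0) ^ 1 * ι (F 1) ^ 0 * ι (F 2) ^ 0 * ∏ j, ι (F j) ^ σ j) = _
      rw [map_mul ι G₁, ← hG, h₀]
      simp only [map_mul, map_pow]
      ring
    · refine ⟨0, (regSet _).zero_mem, _, ?_, (zero_add _).symm⟩
      refine ⟨G₂ * u ^ 1, ⟨G₂, hG₂, 1, rfl⟩, G₁ * g₁, ?_⟩
      rw [spec, eval_C, Fin.prod_univ_three (f := fun i => ι (F i) ^ _)]
      change ι (G₂ * u ^ 1) * (ι (F 0) ^ 0 * ι (F 1) ^ 1 * ι (F 2) ^ 0 * ∏ j, ι (F j) ^ σ j) = _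
      rw [map_mul ι G₁, ← hG, h₁]
      simp only [map_mul, map_pow]
      ring
  obtain ⟨w₁, k₁, w₂, k₂, e⟩ := hle (mem_bsIdeal.mp hb)
  by_contra hne
  -- the constant `b(σ)`
  have hev : eval (fun j => ((σ j : ℤ) : FractionRing S)) (map (algebraMap ℂ (FractionRing S)) b) =
      ι (algebraMap ℂ S (eval ![(-1 - α * t : ℂ), -1 - β * t, t] b)) := by
    rw [eval_map, ← IsScalarTower.algebraMap_apply ℂ S (FractionRing S)]
    have : (fun j => ((σ j : ℤ) : FractionRing S)) =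
        fun j => algebraMap ℂ (FractionRing S) (![(-1 - α * t : ℂ), -1 - β * t, t] j) := by
      funext j
      fin_cases j
      · change ((-1 - α * t : ℤ) : FractionRing S) = algebraMap ℂ _ (-1 - α * t : ℂ)
        push_cast
        simp
      · change ((-1 - β * t : ℤ) : FractionRing S) = algebraMap ℂ _ (-1 - β * t : ℂ)
        push_cast
        simp
      · change ((t : ℤ) : FractionRing S) = algebraMap ℂ _ (t : ℂ)
        simp
    rw [this]
    exact (eval₂_comp_left (algebraMap ℂ (FractionRing S)) (RingHom.id ℂ)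
      (![(-1 - α * t : ℂ), -1 - β * t, t]) b).symm
  have hne' : constantCoeff (φ (algebraMap ℂ S (eval ![(-1 - α * t : ℂ), -1 - β * t, t] b))) ≠ 0 := by
    rw [AlgHom.commutes, MvPolynomial.algebraMap_eq, constantCoeff_C]
    exact hne
  refine not_mem_aux φ u v hu hv (w := spec F σ (map (algebraMap ℂ (FractionRing S)) b))
    (G₁ := G₁ * algebraMap ℂ S (eval ![(-1 - α * t : ℂ), -1 - β * t, t] b)) (G₂ := G₂) ?_ ?_ k₁ k₂ e
  · rw [map_mul, map_mul]
    exact mul_ne_zero hG₁ hne'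
  · rw [spec, hev, map_mul, map_mul ι G₁, ← hG]
    ring

end point

end Pool.Agent.H882R3.BS
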