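import Pool.Agent.H882R3.BSMem

set_option autoImplicit false
set_option linter.unusedSectionVars false
set_option linter.unusedVariables false
set_option linter.unusedSimpArgs false

open MvPolynomial

namespace Pool.Agent.H882R3.BS

theorem up_00 {b : MvPolynomial (Fin 3) ℂ} (hb : b ∈ bsIdeal FF mm) (t : ℤ) :
    eval ![(-1 - (0 : ℕ) * t : ℂ), -1 - (0 : ℕ) * t, t] b = 0 := by
  have hx : aeval (R := ℂ) (![X 0, X 1 - X 0 + 2] : Fin 2 → P2) x = X 0 := aeval_X _ _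
  have hy : aeval (R := ℂ) (![X 0, X 1 - X 0 + 2] : Fin 2 → P2) y = X 1 - X 0 + 2 := aeval_X _ _
  refine eval_eq_zero FF FF_ne_zero (aeval (R := ℂ) (![X 0, X 1 - X 0 + 2] : Fin 2 → P2))
    (x) ((x + y - 2)) ?_ ?_ (y * (x + y)) ((y - 1) * (x - 1))
    (y * (x + y) ^ 2 * (y - 1) * (x - 1) ^ 2) 0 0 ?_ ?_ ?_ ?_ ?_ ?_ hb t
  · simp only [map_add, map_sub, map_one, map_ofNat, hx, hy] <;> ring
  · simp only [map_add, map_sub, map_one, map_ofNat, hx, hy] <;> ring
  · rw [FF_zero] <;> ring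
  · rw [FF_one] <;> ring
  · rw [FF_two] <;> ring
  · simp only [map_add, map_sub, map_mul, map_pow, map_one, map_ofNat, hx, hy, constantCoeff_X]
    norm_num
  · simp only [map_add, map_sub, map_mul, map_pow, map_one, map_ofNat, hx, hy, constantCoeff_X]
    norm_num
  · simp only [map_add, map_sub, map_mul, map_pow, map_one, map_ofNat, hx, hy, constantCoeff_X]
    norm_num

theorem up_01 {b : MvPolynomial (Fin 3) ℂ} (hb : b ∈ bsIdeal FF mm) (t : ℤ) :
    eval ![(-1 - (0 : ℕ) * t : ℂ), -1 - (1 : ℕ) * t, t] b = 0 := by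
  have hx : aeval (R := ℂ) (![X 0, X 1 + 1] : Fin 2 → P2) x = X 0 := aeval_X _ _
  have hy : aeval (R := ℂ) (![X 0, X 1 + 1] : Fin 2 → P2) y = X 1 + 1 := aeval_X _ _
  refine eval_eq_zero FF FF_ne_zero (aeval (R := ℂ) (![X 0, X 1 + 1] : Fin 2 → P2))
    (x) ((y - 1)) ?_ ?_ (y * (x + y)) ((x + y - 2) * (x - 1))
    (y * (x + y) ^ 2 * (x - 1) ^ 2) 0 1 ?_ ?_ ?_ ?_ ?_ ?_ hb t
  · simp only [map_add, map_sub, map_one, map_ofNat, hx, hy] <;> ring
  · simp only [map_add, map_sub, map_one, map_ofNat, hx, hy] <;> ring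
  · rw [FF_zero] <;> ring
  · rw [FF_one] <;> ring
  · rw [FF_two] <;> ring
  · simp only [map_add, map_sub, map_mul, map_pow, map_one, map_ofNat, hx, hy, constantCoeff_X]
    norm_num
  · simp only [map_add, map_sub, map_mul, map_pow, map_one, map_ofNat, hx, hy, constantCoeff_X]
    norm_num
  · simp only [map_add, map_sub, map_mul, map_pow, map_one, map_ofNat, hx, hy, constantCoeff_X]
    norm_num

theorem up_10 {b : MvPolynomial (Fin 3) ℂ} (hb : b ∈ bsIdeal FF mm) (t : ℤ) :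
    eval ![(-1 - (1 : ℕ) * t : ℂ), -1 - (0 : ℕ) * t, t] b = 0 := by
  have hx : aeval (R := ℂ) (![X 1 - X 0 + 2, X 0] : Fin 2 → P2) x = X 1 - X 0 + 2 := aeval_X _ _
  have hy : aeval (R := ℂ) (![X 1 - X 0 + 2, X 0] : Fin 2 → P2) y = X 0 := aeval_X _ _
  refine eval_eq_zero FF FF_ne_zero (aeval (R := ℂ) (![X 1 - X 0 + 2, X 0] : Fin 2 → P2))
    (y) ((x + y - 2)) ?_ ?_ (x * (x + y)) ((y - 1) * (x - 1))
    ((x + y) ^ 2 * (y - 1) * (x - 1) ^ 2) 1 0 ?_ ?_ ?_ ?_ ?_ ?_ hb t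
  · simp only [map_add, map_sub, map_one, map_ofNat, hx, hy] <;> ring
  · simp only [map_add, map_sub, map_one, map_ofNat, hx, hy] <;> ring
  · rw [FF_zero] <;> ring
  · rw [FF_one] <;> ring
  · rw [FF_two] <;> ring
  · simp only [map_add, map_sub, map_mul, map_pow, map_one, map_ofNat, hx, hy, constantCoeff_X]
    norm_num
  · simp only [map_add, map_sub, map_mul, map_pow, map_one, map_ofNat, hx, hy, constantCoeff_X]
    norm_num
  · simp only [map_add, map_sub, map_mul, map_pow, map_one, map_ofNat, hx, hy, constantCoeff_X]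
    norm_num

theorem up_12 {b : MvPolynomial (Fin 3) ℂ} (hb : b ∈ bsIdeal FF mm) (t : ℤ) :
    eval ![(-1 - (1 : ℕ) * t : ℂ), -1 - (2 : ℕ) * t, t] b = 0 := by
  have hx : aeval (R := ℂ) (![X 1 + 1, X 0] : Fin 2 → P2) x = X 1 + 1 := aeval_X _ _
  have hy : aeval (R := ℂ) (![X 1 + 1, X 0] : Fin 2 → P2) y = X 0 := aeval_X _ _
  refine eval_eq_zero FF FF_ne_zero (aeval (R := ℂ) (![X 1 + 1, X 0] : Fin 2 → P2))
    (y) ((x - 1)) ?_ ?_ (x * (x + y)) ((x + y - 2) * (y - 1))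
    ((x + y) ^ 2 * (y - 1)) 1 2 ?_ ?_ ?_ ?_ ?_ ?_ hb t
  · simp only [map_add, map_sub, map_one, map_ofNat, hx, hy] <;> ring
  · simp only [map_add, map_sub, map_one, map_ofNat, hx, hy] <;> ring
  · rw [FF_zero] <;> ring
  · rw [FF_one] <;> ring
  · rw [FF_two] <;> ring
  · simp only [map_add, map_sub, map_mul, map_pow, map_one, map_ofNat, hx, hy, constantCoeff_X]
    norm_num
  · simp only [map_add, map_sub, map_mul, map_pow, map_one, map_ofNat, hx, hy, constantCoeff_X]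
    norm_num
  · simp only [map_add, map_sub, map_mul, map_pow, map_one, map_ofNat, hx, hy, constantCoeff_X]
    norm_num

theorem up_21 {b : MvPolynomial (Fin 3) ℂ} (hb : b ∈ bsIdeal FF mm) (t : ℤ) :
    eval ![(-1 - (2 : ℕ) * t : ℂ), -1 - (1 : ℕ) * t, t] b = 0 := by
  have hx : aeval (R := ℂ) (![X 0 - X 1 - 1, X 1 + 1] : Fin 2 → P2) x = X 0 - X 1 - 1 := aeval_X _ _
  have hy : aeval (R := ℂ) (![X 0 - X 1 - 1, X 1 + 1] : Fin 2 → P2) y = X 1 + 1 := aeval_X _ _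
  refine eval_eq_zero FF FF_ne_zero (aeval (R := ℂ) (![X 0 - X 1 - 1, X 1 + 1] : Fin 2 → P2))
    ((x + y)) ((y - 1)) ?_ ?_ (x * y) ((x + y - 2) * (x - 1))
    (y * (x - 1) ^ 2) 2 1 ?_ ?_ ?_ ?_ ?_ ?_ hb t
  · simp only [map_add, map_sub, map_one, map_ofNat, hx, hy] <;> ring
  · simp only [map_add, map_sub, map_one, map_ofNat, hx, hy] <;> ring
  · rw [FF_zero] <;> ring
  · rw [FF_one] <;> ring
  · rw [FF_two] <;> ring
  · simp only [map_add, map_sub, map_mul, map_pow, map_one, map_ofNat, hx, hy, constantCoeff_X]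
    norm_num
  · simp only [map_add, map_sub, map_mul, map_pow, map_one, map_ofNat, hx, hy, constantCoeff_X]
    norm_num
  · simp only [map_add, map_sub, map_mul, map_pow, map_one, map_ofNat, hx, hy, constantCoeff_X]
    norm_num

theorem up_22 {b : MvPolynomial (Fin 3) ℂ} (hb : b ∈ bsIdeal FF mm) (t : ℤ) :
    eval ![(-1 - (2 : ℕ) * t : ℂ), -1 - (2 : ℕ) * t, t] b = 0 := by
  have hx : aeval (R := ℂ) (![X 1 + 1, X 0 - X 1 - 1] : Fin 2 → P2) x = X 1 + 1 := aeval_X _ _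
  have hy : aeval (R := ℂ) (![X 1 + 1, X 0 - X 1 - 1] : Fin 2 → P2) y = X 0 - X 1 - 1 := aeval_X _ _
  refine eval_eq_zero FF FF_ne_zero (aeval (R := ℂ) (![X 1 + 1, X 0 - X 1 - 1] : Fin 2 → P2))
    ((x + y)) ((x - 1)) ?_ ?_ (x * y) ((x + y - 2) * (y - 1))
    (y * (y - 1)) 2 2 ?_ ?_ ?_ ?_ ?_ ?_ hb t
  · simp only [map_add, map_sub, map_one, map_ofNat, hx, hy] <;> ring
  · simp only [map_add, map_sub, map_one, map_ofNat, hx, hy] <;> ring
  · rw [FF_zero] <;> ring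
  · rw [FF_one] <;> ring
  · rw [FF_two] <;> ring
  · simp only [map_add, map_sub, map_mul, map_pow, map_one, map_ofNat, hx, hy, constantCoeff_X]
    norm_num
  · simp only [map_add, map_sub, map_mul, map_pow, map_one, map_ofNat, hx, hy, constantCoeff_X]
    norm_num
  · simp only [map_add, map_sub, map_mul, map_pow, map_one, map_ofNat, hx, hy, constantCoeff_X]
    norm_num

end Pool.Agent.H882R3.BS
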