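import Pool.Agent.H882R3.BSDefs

set_option autoImplicit false

open MvPolynomial

namespace Pool.Agent.H882R3.BS

variable {S : Type*} [CommRing S] [IsDomain S] [Algebra ℂ S] {r : ℕ}

theorem coeff_coeffwise (δ : Derivation ℂ (FractionRing S) (FractionRing S))
    (g : MvPolynomial (Fin r) (FractionRing S)) (m : Fin r →₀ ℕ) :
    coeff m (coeffwise δ g) = δ (coeff m g) := by
  classical
  rw [coeffwise, coeff_sum]
  simp only [coeff_monomial]
  rw [Finset.sum_ite_eq' g.support m (fun m => δ (coeff m g))]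
  split_ifs with h
  · rfl
  · rw [notMem_support_iff.mp h, map_zero]

theorem coeffwise_add (δ : Derivation ℂ (FractionRing S) (FractionRing S))
    (g h : MvPolynomial (Fin r) (FractionRing S)) :
    coeffwise δ (g + h) = coeffwise δ g + coeffwise δ h := by
  ext m
  simp only [coeff_coeffwise, coeff_add, map_add]

theorem coeffwise_monomial (δ : Derivation ℂ (FractionRing S) (FractionRing S))
    (m : Fin r →₀ ℕ) (a : FractionRing S) :
    coeffwise δ (monomial m a) = monomial m (δ a) := by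
  classical
  ext n
  rw [coeff_coeffwise, coeff_monomial, coeff_monomial]
  split_ifs
  · rfl
  · exact map_zero δ

theorem coeffwise_C (δ : Derivation ℂ (FractionRing S) (FractionRing S))
    (a : FractionRing S) :
    coeffwise (r := r) δ (C a) = C (δ a) := coeffwise_monomial δ 0 a

/-- The coefficientwise action is compatible with evaluation at an integer point. -/
theorem der_eval (δ : Derivation ℂ (FractionRing S) (FractionRing S)) (σ : Fin r → ℤ)
    (g : MvPolynomial (Fin r) (FractionRing S)) :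
    δ (eval (fun j => ((σ j : ℤ) : FractionRing S)) g) =
      eval (fun j => ((σ j : ℤ) : FractionRing S)) (coeffwise δ g) := by
  induction g using MvPolynomial.induction_on' with
  | monomial m a =>
    rw [coeffwise_monomial, eval_monomial, eval_monomial, Derivation.leibniz]
    have h : δ (m.prod fun n e => ((σ n : ℤ) : FractionRing S) ^ e) = 0 := by
      have h2 : (m.prod fun n e => ((σ n : ℤ) : FractionRing S) ^ e) =
          ((m.prod fun n e => (σ n) ^ e : ℤ) : FractionRing S) := by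
        rw [Finsupp.prod, Finsupp.prod, Int.cast_prod]
        simp
      rw [h2]
      exact Derivation.map_intCast δ _
    rw [h, smul_zero, zero_add, smul_eq_mul, mul_comm]
  | add p q hp hq => rw [coeffwise_add, map_add, map_add, map_add, hp, hq]

/-- Specialisation `s = σ` at an integer point: `g F^s ↦ g(σ) F^σ` in the function field. -/
noncomputable def spec (F : Fin r → S) (σ : Fin r → ℤ)
    (g : MvPolynomial (Fin r) (FractionRing S)) : FractionRing S :=
  eval (fun j => ((σ j : ℤ) : FractionRing S)) g *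
    ∏ j, (algebraMap S (FractionRing S) (F j)) ^ σ j

theorem der_zpow (δ : Derivation ℂ (FractionRing S) (FractionRing S)) {a : FractionRing S}
    (ha : a ≠ 0) (n : ℤ) : δ (a ^ n) = a ^ n * ((n : FractionRing S) * (δ a / a)) := by
  rw [Derivation.leibniz_zpow]
  rw [zpow_sub_one₀ ha]
  simp only [zsmul_eq_mul, smul_eq_mul]
  field_simp

theorem der_prod_zpow (δ : Derivation ℂ (FractionRing S) (FractionRing S))
    (f : Fin r → FractionRing S) (hf : ∀ j, f j ≠ 0) (σ : Fin r → ℤ) (s : Finset (Fin r)) :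
    δ (∏ j ∈ s, f j ^ σ j) = (∏ j ∈ s, f j ^ σ j) * ∑ j ∈ s, (σ j : FractionRing S) * (δ (f j) / f j) := by
  classical
  induction s using Finset.induction_on with
  | empty => simp
  | insert i s hi ih =>
    rw [Finset.prod_insert hi, Finset.sum_insert hi, Derivation.leibniz, ih, der_zpow δ (hf i)]
    simp only [smul_eq_mul]
    ring

theorem der_spec (F : Fin r → S) (hF : ∀ j, F j ≠ 0) (σ : Fin r → ℤ)
    (δ : Derivation ℂ (FractionRing S) (FractionRing S))
    (g : MvPolynomial (Fin r) (FractionRing S)) :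
    δ (spec F σ g) = spec F σ (act F δ g) := by
  have hF' : ∀ j, algebraMap S (FractionRing S) (F j) ≠ 0 := fun j h =>
    hF j ((IsFractionRing.injective S (FractionRing S)) (by rw [h, map_zero]))
  rw [spec, spec, Derivation.leibniz, der_eval, der_prod_zpow δ _ hF', act]
  simp only [smul_eq_mul, map_add, map_mul, map_sum, eval_X, eval_C]
  ring

/-- Elements of `K` with a denominator in the submonoid `T`. -/
def regSet (T : Submonoid S) : AddSubgroup (FractionRing S) where
  carrier := {w | ∃ d ∈ T, ∃ a : S, algebraMap S (FractionRing S) d * w =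
    algebraMap S (FractionRing S) a}
  zero_mem' := ⟨1, T.one_mem, 0, by simp⟩
  add_mem' := by
    rintro w₁ w₂ ⟨d₁, h₁, a₁, e₁⟩ ⟨d₂, h₂, a₂, e₂⟩
    refine ⟨d₁ * d₂, T.mul_mem h₁ h₂, d₂ * a₁ + d₁ * a₂, ?_⟩
    simp only [map_mul, map_add, ← e₁, ← e₂]
    ring
  neg_mem' := by
    rintro w ⟨d, h, a, e⟩
    exact ⟨d, h, -a, by rw [mul_neg, e, map_neg]⟩

theorem regSet_smul (T : Submonoid S) (a : S) {w : FractionRing S} (hw : w ∈ regSet T) :
    algebraMap S (FractionRing S) a * w ∈ regSet T := by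
  obtain ⟨d, h, b, e⟩ := hw
  refine ⟨d, h, a * b, ?_⟩
  rw [map_mul, ← e]
  ring

theorem regSet_der (T : Submonoid S) {δ : Derivation ℂ (FractionRing S) (FractionRing S)}
    (hδ : IsVectorField δ) {w : FractionRing S} (hw : w ∈ regSet T) : δ w ∈ regSet T := by
  obtain ⟨d, h, b, e⟩ := hw
  obtain ⟨d', hd'⟩ := hδ d
  obtain ⟨b', hb'⟩ := hδ b
  refine ⟨d * d, T.mul_mem h h, d * b' - d' * b, ?_⟩
  have h1 := congrArg δ e
  rw [Derivation.leibniz, hd', hb', smul_eq_mul, smul_eq_mul] at h1
  simp only [map_mul, map_sub, ← e, ← h1]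
  ring

/-- The set of `g` whose specialisation at `σ` lies in `K_{T₁} + K_{T₂}`. -/
noncomputable def specSub (F : Fin r → S) (σ : Fin r → ℤ) (T₁ T₂ : Submonoid S) :
    AddSubgroup (MvPolynomial (Fin r) (FractionRing S)) where
  carrier := {g | ∃ w₁ ∈ regSet T₁, ∃ w₂ ∈ regSet T₂, spec F σ g = w₁ + w₂}
  zero_mem' := ⟨0, (regSet T₁).zero_mem, 0, (regSet T₂).zero_mem, by simp [spec]⟩
  add_mem' := by
    rintro g h ⟨w₁, h₁, w₂, h₂, e⟩ ⟨v₁, k₁, v₂, k₂, e'⟩
    refine ⟨w₁ + v₁, (regSet T₁).add_mem h₁ k₁, w₂ + v₂, (regSet T₂).add_mem h₂ k₂, ?_⟩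
    have : spec F σ (g + h) = spec F σ g + spec F σ h := by
      simp only [spec, map_add]; ring
    rw [this, e, e']; ring
  neg_mem' := by
    rintro g ⟨w₁, h₁, w₂, h₂, e⟩
    refine ⟨-w₁, (regSet T₁).neg_mem h₁, -w₂, (regSet T₂).neg_mem h₂, ?_⟩
    have : spec F σ (-g) = - spec F σ g := by
      simp only [spec, map_neg]; ring
    rw [this, e]; ring

theorem specSub_isDSubmodule (F : Fin r → S) (hF : ∀ j, F j ≠ 0) (σ : Fin r → ℤ)
    (T₁ T₂ : Submonoid S) : IsDSubmodule F (specSub F σ T₁ T₂) where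
  function_mem := by
    rintro a g ⟨w₁, h₁, w₂, h₂, e⟩
    refine ⟨_, regSet_smul T₁ a h₁, _, regSet_smul T₂ a h₂, ?_⟩
    rw [← mul_add, ← e, spec, spec, map_mul, eval_C]
    ring
  variable_mem := by
    rintro j g ⟨w₁, h₁, w₂, h₂, e⟩
    have hc : ((σ j : ℤ) : FractionRing S) = algebraMap S (FractionRing S) (σ j : S) := by
      rw [map_intCast]
    refine ⟨_, regSet_smul T₁ (σ j : S) h₁, _, regSet_smul T₂ (σ j : S) h₂, ?_⟩
    rw [← mul_add, ← e, spec, spec, map_mul, eval_X, hc]
    ring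
  act_mem := by
    rintro δ hδ g ⟨w₁, h₁, w₂, h₂, e⟩
    refine ⟨_, regSet_der T₁ hδ h₁, _, regSet_der T₂ hδ h₂, ?_⟩
    rw [← der_spec F hF, e, map_add]

end Pool.Agent.H882R3.BS
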