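import Mathlib

set_option autoImplicit false

/-!
# The censored walk on a monotone subset of the hypercube: definitions
-/

namespace Pool.Agent.H882R3.CW

/-- The hypercube `{0,1}^n`. -/
abbrev Cube (n : ℕ) := Fin n → Bool

/-- The point `x^{(i)}` obtained from `x` by flipping the coordinate `i`. -/
def flip {n : ℕ} (x : Cube n) (i : Fin n) : Cube n := Function.update x i (!(x i))

/-- `A` is monotone (up-closed). -/
def IsMonotone {n : ℕ} (A : Finset (Cube n)) : Prop :=
  ∀ x ∈ A, ∀ y : Cube n, (∀ i, x i ≤ y i) → y ∈ A

/-- The state reached from `x` when the coordinate `i` is picked: the move to `x^{(i)}` is made if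
`x^{(i)} ∈ A`, otherwise the chain stays at `x`. -/
def move {n : ℕ} (A : Finset (Cube n)) (x : Cube n) (i : Fin n) : Cube n :=
  if flip x i ∈ A then flip x i else x

/-- The transition probability from `x` to `y` of the lazy censored walk on `A`. -/
noncomputable def step {n : ℕ} (A : Finset (Cube n)) (x y : Cube n) : ℝ :=
  1 / 2 * (if x = y then 1 else 0) +
    1 / 2 * (1 / (n : ℝ) * ∑ i : Fin n, (if move A x i = y then 1 else 0))

/-- The law after `t` steps of the lazy censored walk on `A` started at `x`. -/
noncomputable def law {n : ℕ} (A : Finset (Cube n)) (x : Cube n) : ℕ → Cube n → ℝ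
  | 0 => fun y => if x = y then 1 else 0
  | t + 1 => fun y => ∑ z, law A x t z * step A z y

/-- The uniform distribution on `A`. -/
noncomputable def unif {n : ℕ} (A : Finset (Cube n)) (y : Cube n) : ℝ :=
  if y ∈ A then 1 / (A.card : ℝ) else 0

/-- Total variation distance. -/
noncomputable def tv {n : ℕ} (μ ν : Cube n → ℝ) : ℝ := 1 / 2 * ∑ y, |μ y - ν y|

/-- From every starting state in `A` the law after `t` steps is within total variation distance
`1/4` of the uniform distribution on `A`. -/
def Mixed {n : ℕ} (A : Finset (Cube n)) (t : ℕ) : Prop :=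
  ∀ x ∈ A, tv (law A x t) (unif A) ≤ 1 / 4

/-- The mixing time: the least `t` with `Mixed A t`. -/
noncomputable def tmix {n : ℕ} (A : Finset (Cube n)) : ℕ := sInf {t : ℕ | Mixed A t}

/-- The uniform measure `ℙ(A) = |A| / 2^n`. -/
noncomputable def prob {n : ℕ} (A : Finset (Cube n)) : ℝ := (A.card : ℝ) / 2 ^ n

end Pool.Agent.H882R3.CW
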