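import Mathlib
import Pool.Agent.H882R3.CWDefs

set_option autoImplicit false

namespace Pool.Agent.H882R3.CW

open Finset

variable {n : ℕ}

theorem flip_flip (x : Cube n) (i : Fin n) : flip (flip x i) i = x := by
  unfold flip
  simp

theorem flip_same (x : Cube n) (i : Fin n) : flip x i i = !(x i) := by
  unfold flip
  simp

theorem flip_other (x : Cube n) (i j : Fin n) (h : j ≠ i) : flip x i j = x j := by
  unfold flip
  simp [Function.update_of_ne h]

theorem flip_ne (x : Cube n) (i : Fin n) : flip x i ≠ x := by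
  intro h
  have h1 := congrFun h i
  rw [flip_same] at h1
  cases hx : x i <;> simp [hx] at h1

theorem step_nonneg (A : Finset (Cube n)) (x y : Cube n) : 0 ≤ step A x y := by
  unfold step
  have h1 : (0:ℝ) ≤ (if x = y then 1 else 0) := by split_ifs <;> norm_num
  have h2 : (0:ℝ) ≤ ∑ i : Fin n, (if move A x i = y then (1:ℝ) else 0) :=
    Finset.sum_nonneg fun i _ => by split_ifs <;> norm_num
  positivity

theorem step_row (A : Finset (Cube n)) (x : Cube n) (hn : 0 < n) : ∑ y, step A x y = 1 := by
  unfold step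
  rw [Finset.sum_add_distrib, ← Finset.mul_sum, ← Finset.mul_sum, ← Finset.mul_sum,
    Finset.sum_comm]
  have h1 : ∀ i : Fin n, ∑ y, (if move A x i = y then (1:ℝ) else 0) = 1 := by
    intro i
    simp
  rw [Finset.sum_congr rfl fun i _ => h1 i]
  have hn' : (n : ℝ) ≠ 0 := by positivity
  simp
  field_simp
  norm_num

theorem move_eq_iff (A : Finset (Cube n)) (x y : Cube n) (i : Fin n) (hne : x ≠ y) (hy : y ∈ A) :
    move A x i = y ↔ flip x i = y := by
  unfold move
  split_ifs with h
  · exact Iff.rfl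
  · constructor
    · intro h1
      exact absurd h1 hne
    · intro h1
      rw [h1] at h
      exact absurd hy h

theorem step_symm (A : Finset (Cube n)) (x y : Cube n) (hx : x ∈ A) (hy : y ∈ A) :
    step A x y = step A y x := by
  by_cases h : x = y
  · rw [h]
  · unfold step
    have h' : y ≠ x := fun e => h e.symm
    rw [if_neg h, if_neg h']
    congr 3
    apply Finset.sum_congr rfl
    intro i _
    have e : (move A x i = y) ↔ (move A y i = x) := by
      rw [move_eq_iff A x y i h hy, move_eq_iff A y x i h' hx]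
      constructor
      · intro e
        rw [← e, flip_flip]
      · intro e
        rw [← e, flip_flip]
    by_cases h1 : move A x i = y
    · rw [if_pos h1, if_pos (e.mp h1)]
    · rw [if_neg h1, if_neg (fun h2 => h1 (e.mpr h2))]

theorem move_mem (A : Finset (Cube n)) (x : Cube n) (hx : x ∈ A) (i : Fin n) : move A x i ∈ A := by
  unfold move
  split_ifs with h
  · exact h
  · exact hx

theorem step_out (A : Finset (Cube n)) (x y : Cube n) (hx : x ∈ A) (hy : y ∉ A) :
    step A x y = 0 := by
  unfold step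
  have h1 : x ≠ y := fun e => hy (e ▸ hx)
  have h2 : ∀ i : Fin n, (if move A x i = y then (1:ℝ) else 0) = 0 := by
    intro i
    rw [if_neg]
    intro e
    exact hy (e ▸ move_mem A x hx i)
  rw [if_neg h1, Finset.sum_congr rfl fun i _ => h2 i]
  simp

theorem step_col (A : Finset (Cube n)) (y : Cube n) (hn : 0 < n) :
    ∑ z ∈ A, step A z y ≤ 1 := by
  by_cases hy : y ∈ A
  · calc ∑ z ∈ A, step A z y = ∑ z ∈ A, step A y z :=
        Finset.sum_congr rfl fun z hz => step_symm A z y hz hy
      _ ≤ ∑ z, step A y z :=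
        Finset.sum_le_sum_of_subset_of_nonneg (Finset.subset_univ _) fun _ _ _ => step_nonneg A _ _
      _ = 1 := step_row A y hn
  · rw [Finset.sum_congr rfl fun z hz => step_out A z y hz hy]
    simp

theorem law_succ (A : Finset (Cube n)) (x : Cube n) (t : ℕ) (y : Cube n) :
    law A x (t + 1) y = ∑ z, law A x t z * step A z y := rfl

theorem law_zero (A : Finset (Cube n)) (x : Cube n) (y : Cube n) :
    law A x 0 y = if x = y then 1 else 0 := rfl

theorem law_nonneg (A : Finset (Cube n)) (x : Cube n) (t : ℕ) : ∀ y, 0 ≤ law A x t y := by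
  induction t with
  | zero =>
    intro y
    rw [law_zero]
    split_ifs <;> norm_num
  | succ t ih =>
    intro y
    rw [law_succ]
    exact Finset.sum_nonneg fun z _ => mul_nonneg (ih z) (step_nonneg A z y)

theorem law_out (A : Finset (Cube n)) (x : Cube n) (hx : x ∈ A) (t : ℕ) :
    ∀ y, y ∉ A → law A x t y = 0 := by
  induction t with
  | zero =>
    intro y hy
    rw [law_zero, if_neg]
    intro e
    exact hy (e ▸ hx)
  | succ t ih =>
    intro y hy
    rw [law_succ]
    apply Finset.sum_eq_zero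
    intro z _
    by_cases hz : z ∈ A
    · rw [step_out A z y hz hy, mul_zero]
    · rw [ih z hz, zero_mul]

theorem law_sum (A : Finset (Cube n)) (x : Cube n) (hn : 0 < n) (t : ℕ) :
    ∑ y, law A x t y = 1 := by
  induction t with
  | zero => simp [law_zero]
  | succ t ih =>
    simp only [law_succ]
    rw [Finset.sum_comm]
    calc ∑ z, ∑ y, law A x t z * step A z y = ∑ z, law A x t z := by
          apply Finset.sum_congr rfl
          intro z _
          rw [← Finset.mul_sum, step_row A z hn, mul_one]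
      _ = 1 := ih

/-- Sum over the starting points in `B` of the laws after `t` steps. -/
noncomputable def usum (A B : Finset (Cube n)) (t : ℕ) (y : Cube n) : ℝ := ∑ x ∈ B, law A x t y

theorem usum_nonneg (A B : Finset (Cube n)) (t : ℕ) (y : Cube n) : 0 ≤ usum A B t y :=
  Finset.sum_nonneg fun x _ => law_nonneg A x t y

theorem usum_succ (A B : Finset (Cube n)) (t : ℕ) (y : Cube n) :
    usum A B (t + 1) y = ∑ z, usum A B t z * step A z y := by
  unfold usum
  simp only [law_succ]
  rw [Finset.sum_comm]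
  exact Finset.sum_congr rfl fun z _ => by rw [Finset.sum_mul]

theorem usum_zero (A B : Finset (Cube n)) (y : Cube n) :
    usum A B 0 y = if y ∈ B then 1 else 0 := by
  unfold usum
  simp only [law_zero]
  rw [Finset.sum_ite_eq' B y fun _ => (1:ℝ)]

theorem usum_le_one (A B : Finset (Cube n)) (hBA : B ⊆ A) (hn : 0 < n) (t : ℕ) :
    ∀ y, usum A B t y ≤ 1 := by
  induction t with
  | zero =>
    intro y
    rw [usum_zero]
    split_ifs <;> norm_num
  | succ t ih =>
    intro y
    rw [usum_succ]
    have h0 : ∑ z, usum A B t z * step A z y = ∑ z ∈ A, usum A B t z * step A z y := by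
      symm
      apply Finset.sum_subset (Finset.subset_univ A)
      intro z _ hz
      have : usum A B t z = 0 := by
        unfold usum
        exact Finset.sum_eq_zero fun x hx => law_out A x (hBA hx) t z hz
      rw [this, zero_mul]
    rw [h0]
    calc ∑ z ∈ A, usum A B t z * step A z y ≤ ∑ z ∈ A, step A z y := by
          apply Finset.sum_le_sum
          intro z _
          have := mul_le_mul_of_nonneg_right (ih z) (step_nonneg A z y)
          simpa using this
      _ ≤ 1 := step_col A y hn

/-- The flow out of `B`. -/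
noncomputable def flow (A B : Finset (Cube n)) : ℝ := ∑ z ∈ B, ∑ y ∈ Bᶜ, step A z y

theorem mass_out (A B : Finset (Cube n)) (hBA : B ⊆ A) (hn : 0 < n) (t : ℕ) :
    ∑ y ∈ Bᶜ, usum A B t y ≤ t * flow A B := by
  induction t with
  | zero =>
    have : ∑ y ∈ Bᶜ, usum A B 0 y = 0 := by
      apply Finset.sum_eq_zero
      intro y hy
      rw [usum_zero, if_neg (Finset.mem_compl.mp hy)]
    rw [this]
    simp
  | succ t ih =>
    have h1 : ∑ y ∈ Bᶜ, usum A B (t + 1) y = ∑ z, usum A B t z * ∑ y ∈ Bᶜ, step A z y := by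
      simp only [usum_succ]
      rw [Finset.sum_comm]
      exact Finset.sum_congr rfl fun z _ => by rw [Finset.mul_sum]
    rw [h1, ← Finset.sum_add_sum_compl B]
    have h2 : ∑ z ∈ B, usum A B t z * ∑ y ∈ Bᶜ, step A z y ≤ flow A B := by
      unfold flow
      apply Finset.sum_le_sum
      intro z _
      have h3 : 0 ≤ ∑ y ∈ Bᶜ, step A z y := Finset.sum_nonneg fun y _ => step_nonneg A z y
      have := mul_le_mul_of_nonneg_right (usum_le_one A B hBA hn t z) h3
      simpa using this
    have h3 : ∑ z ∈ Bᶜ, usum A B t z * ∑ y ∈ Bᶜ, step A z y ≤ ∑ z ∈ Bᶜ, usum A B t z := by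
      apply Finset.sum_le_sum
      intro z _
      have h4 : ∑ y ∈ Bᶜ, step A z y ≤ 1 := by
        rw [← step_row A z hn]
        exact Finset.sum_le_sum_of_subset_of_nonneg (Finset.subset_univ _)
          fun _ _ _ => step_nonneg A _ _
      have := mul_le_mul_of_nonneg_left h4 (usum_nonneg A B t z)
      simpa using this
    push_cast
    nlinarith [h2, h3, ih]

theorem unif_sum (A : Finset (Cube n)) (hA : A.Nonempty) : ∑ y, unif A y = 1 := by
  unfold unif
  have h0 : (A.card : ℝ) ≠ 0 := by
    have := Finset.card_pos.mpr hA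
    positivity
  rw [Finset.sum_ite_mem]
  simp [h0]

theorem unif_sum_on (A B : Finset (Cube n)) (hBA : B ⊆ A) :
    ∑ y ∈ B, unif A y = B.card / A.card := by
  unfold unif
  rw [Finset.sum_congr rfl fun y hy => if_pos (hBA hy)]
  simp
  ring

theorem sub_le_tv (μ ν : Cube n → ℝ) (hμ : ∑ y, μ y = 1) (hν : ∑ y, ν y = 1)
    (D : Finset (Cube n)) : ∑ y ∈ D, ν y - ∑ y ∈ D, μ y ≤ tv μ ν := by
  have h1 : ∑ y ∈ D, ν y + ∑ y ∈ Dᶜ, ν y = 1 := by rw [Finset.sum_add_sum_compl, hν]
  have h2 : ∑ y ∈ D, μ y + ∑ y ∈ Dᶜ, μ y = 1 := by rw [Finset.sum_add_sum_compl, hμ]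
  have h3 : ∑ y, |μ y - ν y| = ∑ y ∈ D, |μ y - ν y| + ∑ y ∈ Dᶜ, |μ y - ν y| := by
    rw [Finset.sum_add_sum_compl]
  have h4 : ∑ y ∈ D, ν y - ∑ y ∈ D, μ y ≤ ∑ y ∈ D, |μ y - ν y| := by
    rw [← Finset.sum_sub_distrib]
    apply Finset.sum_le_sum
    intro y _
    rw [abs_sub_comm]
    exact le_abs_self _
  have h5 : ∑ y ∈ Dᶜ, μ y - ∑ y ∈ Dᶜ, ν y ≤ ∑ y ∈ Dᶜ, |μ y - ν y| := by
    rw [← Finset.sum_sub_distrib]
    apply Finset.sum_le_sum
    intro y _
    exact le_abs_self _
  unfold tv
  linarith

/-- The bottleneck bound. -/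
theorem bottleneck (A B : Finset (Cube n)) (hBA : B ⊆ A) (hA : A.Nonempty)
    (hhalf : 2 * B.card ≤ A.card) (hn : 0 < n) (t : ℕ) (ht : Mixed A t) :
    (B.card : ℝ) / 4 ≤ t * flow A B := by
  refine le_trans ?_ (mass_out A B hBA hn t)
  have hApos : (0:ℝ) < A.card := by exact_mod_cast Finset.card_pos.mpr hA
  have key : ∀ x ∈ B, (1:ℝ) / 4 ≤ ∑ y ∈ Bᶜ, law A x t y := by
    intro x hx
    have h1 := sub_le_tv (law A x t) (unif A) (law_sum A x hn t) (unif_sum A hA) Bᶜ
    have h2 := ht x (hBA hx)
    have h3 : ∑ y ∈ Bᶜ, unif A y = 1 - B.card / A.card := by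
      have := Finset.sum_add_sum_compl B (unif A)
      rw [unif_sum A hA, unif_sum_on A B hBA] at this
      linarith
    have h4 : (B.card : ℝ) / A.card ≤ 1 / 2 := by
      rw [div_le_iff₀ hApos]
      have : (2:ℝ) * B.card ≤ A.card := by exact_mod_cast hhalf
      linarith
    linarith
  calc (B.card : ℝ) / 4 = ∑ x ∈ B, (1:ℝ) / 4 := by
        rw [Finset.sum_const, nsmul_eq_mul]; ring
    _ ≤ ∑ x ∈ B, ∑ y ∈ Bᶜ, law A x t y := Finset.sum_le_sum key
    _ = ∑ y ∈ Bᶜ, usum A B t y := by
        unfold usum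
        rw [Finset.sum_comm]

end Pool.Agent.H882R3.CW
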