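import Mathlib
import Pool.Agent.H882R3.CWChain

set_option autoImplicit false

namespace Pool.Agent.H882R3.CW

open Finset

variable {n : ℕ}

/-- Backward equation (Chapman–Kolmogorov). -/
theorem law_add (A : Finset (Cube n)) (s t : ℕ) : ∀ x y : Cube n,
    law A x (s + t) y = ∑ z, law A x s z * law A z t y := by
  induction t with
  | zero =>
    intro x y
    rw [Nat.add_zero]
    simp only [law_zero]
    simp
  | succ t ih =>
    intro x y
    rw [← Nat.add_assoc, law_succ]
    simp only [law_succ, ih]
    simp only [Finset.sum_mul, Finset.mul_sum]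
    rw [Finset.sum_comm]
    apply Finset.sum_congr rfl
    intro z _
    apply Finset.sum_congr rfl
    intro w _
    ring

theorem law_one (A : Finset (Cube n)) (x y : Cube n) : law A x 1 y = step A x y := by
  show ∑ z, law A x 0 z * step A z y = step A x y
  simp [law_zero]

theorem step_self (A : Finset (Cube n)) (x : Cube n) : 1 / 2 ≤ step A x x := by
  unfold step
  have h2 : (0:ℝ) ≤ ∑ i : Fin n, (if move A x i = x then (1:ℝ) else 0) :=
    Finset.sum_nonneg fun i _ => by split_ifs <;> norm_num
  rw [if_pos rfl]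
  have h3 : 0 ≤ 1 / 2 * (1 / (n:ℝ) * ∑ i : Fin n, (if move A x i = x then (1:ℝ) else 0)) := by
    positivity
  linarith

theorem step_flip (A : Finset (Cube n)) (x : Cube n) (i : Fin n) (h : flip x i ∈ A) :
    1 / (2 * (n:ℝ)) ≤ step A x (flip x i) := by
  unfold step
  have h2 : (1:ℝ) ≤ ∑ j : Fin n, (if move A x j = flip x i then (1:ℝ) else 0) := by
    have h3 : move A x i = flip x i := by
      unfold move
      rw [if_pos h]
    calc (1:ℝ) = if move A x i = flip x i then (1:ℝ) else 0 := by rw [if_pos h3]
      _ ≤ _ := Finset.single_le_sum (f := fun j => if move A x j = flip x i then (1:ℝ) else 0)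
          (fun j _ => by show (0:ℝ) ≤ if _ then _ else _; split_ifs <;> norm_num)
          (Finset.mem_univ i)
  have h1 : (0:ℝ) ≤ (if x = flip x i then (1:ℝ) else 0) := by split_ifs <;> norm_num
  have h4 : 1 / (n:ℝ) * 1 ≤ 1 / (n:ℝ) *
      ∑ j : Fin n, (if move A x j = flip x i then (1:ℝ) else 0) :=
    mul_le_mul_of_nonneg_left h2 (by positivity)
  have h5 : 1 / (2 * (n:ℝ)) = 1 / 2 * (1 / (n:ℝ) * 1) := by ring
  rw [h5]
  linarith

/-- number of zeros -/
def zeros (x : Cube n) : ℕ := (Finset.univ.filter fun i => x i = false).card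

/-- the all-ones point -/
def ones (n : ℕ) : Cube n := fun _ => true

theorem zeros_zero (x : Cube n) (h : zeros x = 0) : x = ones n := by
  unfold zeros at h
  rw [Finset.card_eq_zero, Finset.filter_eq_empty_iff] at h
  funext i
  have := h (Finset.mem_univ i)
  unfold ones
  simpa using this

theorem zeros_flip (x : Cube n) (i : Fin n) (hi : x i = false) : zeros (flip x i) + 1 = zeros x := by
  unfold zeros
  have h : (Finset.univ.filter fun j => x j = false) =
      insert i (Finset.univ.filter fun j => flip x i j = false) := by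
    ext j
    simp only [Finset.mem_filter, Finset.mem_univ, true_and, Finset.mem_insert]
    by_cases hj : j = i
    · simp [hj, hi]
    · rw [flip_other x i j hj]
      simp [hj]
  rw [h, Finset.card_insert_of_notMem]
  simp only [Finset.mem_filter, Finset.mem_univ, true_and]
  rw [flip_same, hi]
  simp

theorem zeros_le (x : Cube n) : zeros x ≤ n := by
  unfold zeros
  calc _ ≤ (Finset.univ : Finset (Fin n)).card := Finset.card_filter_le _ _
    _ = n := by simp

theorem flip_up (A : Finset (Cube n)) (hm : IsMonotone A) (x : Cube n) (hx : x ∈ A) (i : Fin n)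
    (hi : x i = false) : flip x i ∈ A := by
  apply hm x hx
  intro j
  by_cases hj : j = i
  · rw [hj, hi]
    exact Bool.false_le _
  · rw [flip_other x i j hj]

theorem law_term (A : Finset (Cube n)) (x z y : Cube n) (t : ℕ) :
    step A x z * law A z t y ≤ law A x (t + 1) y := by
  rw [Nat.add_comm, law_add]
  simp only [law_one]
  exact Finset.single_le_sum (f := fun z => step A x z * law A z t y)
    (fun w _ => mul_nonneg (step_nonneg A x w) (law_nonneg A w t y)) (Finset.mem_univ z)

theorem reach (A : Finset (Cube n)) (hm : IsMonotone A) (hn : 0 < n) (t : ℕ) :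
    ∀ x ∈ A, zeros x ≤ t → (1 / (2 * (n:ℝ))) ^ t ≤ law A x t (ones n) := by
  have hq : 1 / (2 * (n:ℝ)) ≤ 1 / 2 := by
    have : (1:ℝ) ≤ n := by exact_mod_cast hn
    rw [div_le_div_iff₀ (by positivity) (by norm_num)]
    linarith
  have hq0 : 0 ≤ 1 / (2 * (n:ℝ)) := by positivity
  induction t with
  | zero =>
    intro x _ hz
    have := zeros_zero x (by omega)
    rw [law_zero, if_pos this]
    simp
  | succ t ih =>
    intro x hx hz
    rw [pow_succ']
    by_cases hzt : zeros x ≤ t
    · refine le_trans ?_ (law_term A x x (ones n) t)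
      exact mul_le_mul (le_trans hq (step_self A x)) (ih x hx hzt) (by positivity)
        (step_nonneg A x x)
    · have hne : x ≠ ones n := by
        intro e
        apply hzt
        rw [e]
        unfold zeros ones
        simp
      obtain ⟨i, hi⟩ : ∃ i, x i = false := by
        by_contra hc
        push Not at hc
        apply hne
        funext i
        have := hc i
        unfold ones
        simpa using this
      have hf := flip_up A hm x hx i hi
      have hzf := zeros_flip x i hi
      refine le_trans ?_ (law_term A x (flip x i) (ones n) t)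
      exact mul_le_mul (step_flip A x i hf) (ih _ hf (by omega)) (by positivity)
        (step_nonneg A _ _)

theorem ones_mem (A : Finset (Cube n)) (hm : IsMonotone A) (hA : A.Nonempty) : ones n ∈ A := by
  obtain ⟨x, hx⟩ := hA
  apply hm x hx
  intro i
  exact Bool.le_true _

theorem avg_bound (A : Finset (Cube n)) (a g : Cube n → ℝ) (ε M : ℝ) (o : Cube n) (ho : o ∈ A)
    (ha : ∀ z, 0 ≤ a z) (hsum : ∑ z, a z = 1) (hout : ∀ z, z ∉ A → a z = 0) (hε : ε ≤ a o)
    (hM : ∀ z ∈ A, g z ≤ M) : ∑ z, a z * g z ≤ ε * g o + (1 - ε) * M := by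
  have h1 : ∀ z, a z * g z ≤ (if z = o then ε * (g o - M) else 0) + a z * M := by
    intro z
    by_cases hz : z = o
    · rw [if_pos hz, hz]
      have h2 := hM o ho
      nlinarith
    · rw [if_neg hz, zero_add]
      by_cases hzA : z ∈ A
      · exact mul_le_mul_of_nonneg_left (hM z hzA) (ha z)
      · rw [hout z hzA, zero_mul, zero_mul]
  calc ∑ z, a z * g z ≤ ∑ z, ((if z = o then ε * (g o - M) else 0) + a z * M) :=
        Finset.sum_le_sum fun z _ => h1 z
    _ = ε * (g o - M) + M := by
        rw [Finset.sum_add_distrib, ← Finset.sum_mul, hsum, one_mul]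
        simp
    _ = _ := by ring

theorem contract (A : Finset (Cube n)) (hm : IsMonotone A) (hA : A.Nonempty) (hn : 0 < n)
    (ε : ℝ) (hε1 : ε ≤ 1) (hε : ∀ x ∈ A, ε ≤ law A x n (ones n)) (y : Cube n) (j : ℕ) :
    ∀ x ∈ A, ∀ x' ∈ A, law A x (n * j) y - law A x' (n * j) y ≤ (1 - ε) ^ j := by
  have hone := ones_mem A hm hA
  induction j with
  | zero =>
    intro x _ x' _
    rw [Nat.mul_zero, pow_zero, law_zero, law_zero]
    split_ifs <;> norm_num
  | succ j ih =>
    intro x hx x' hx'
    have e : n * (j + 1) = n + n * j := by ring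
    rw [e, law_add, law_add]
    obtain ⟨zM, hzM, hM⟩ := Finset.exists_max_image A (fun z => law A z (n * j) y) hA
    obtain ⟨zm, hzm, hm'⟩ := Finset.exists_min_image A (fun z => law A z (n * j) y) hA
    have h1 := avg_bound A (law A x n) (fun z => law A z (n * j) y) ε (law A zM (n * j) y)
      (ones n) hone (law_nonneg A x n) (law_sum A x hn n) (law_out A x hx n) (hε x hx) hM
    have h2 := avg_bound A (law A x' n) (fun z => - law A z (n * j) y) ε (- law A zm (n * j) y)
      (ones n) hone (law_nonneg A x' n) (law_sum A x' hn n) (law_out A x' hx' n) (hε x' hx')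
      (fun z hz => neg_le_neg (hm' z hz))
    have h3 : ∑ z, law A x' n z * (- law A z (n * j) y) =
        - ∑ z, law A x' n z * law A z (n * j) y := by
      rw [← Finset.sum_neg_distrib]
      exact Finset.sum_congr rfl fun z _ => by ring
    rw [h3] at h2
    have h4 := ih zM hzM zm hzm
    have h5 : (1 - ε) * (law A zM (n * j) y - law A zm (n * j) y) ≤ (1 - ε) * (1 - ε) ^ j :=
      mul_le_mul_of_nonneg_left h4 (by linarith)
    rw [pow_succ']
    linarith

theorem usum_all (A : Finset (Cube n)) (hn : 0 < n) (t : ℕ) : ∀ y ∈ A, usum A A t y = 1 := by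
  induction t with
  | zero =>
    intro y hy
    rw [usum_zero, if_pos hy]
  | succ t ih =>
    intro y hy
    rw [usum_succ]
    have h0 : ∑ z, usum A A t z * step A z y = ∑ z ∈ A, usum A A t z * step A z y := by
      symm
      apply Finset.sum_subset (Finset.subset_univ A)
      intro z _ hz
      have : usum A A t z = 0 := by
        unfold usum
        exact Finset.sum_eq_zero fun x hx => law_out A x hx t z hz
      rw [this, zero_mul]
    rw [h0, Finset.sum_congr rfl fun z hz => by rw [ih z hz, one_mul, step_symm A z y hz hy]]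
    rw [← step_row A y hn]
    apply Finset.sum_subset (Finset.subset_univ A)
    intro z _ hz
    exact step_out A y z hy hz

theorem mixed_of (A : Finset (Cube n)) (hA : A.Nonempty) (hn : 0 < n) (t : ℕ) (δ : ℝ)
    (hδ : ∀ y, ∀ x ∈ A, ∀ x' ∈ A, law A x t y - law A x' t y ≤ δ) (h0 : 0 ≤ δ)
    (hs : 2 ^ n * δ ≤ 1 / 2) : Mixed A t := by
  intro x hx
  have hApos : (0:ℝ) < A.card := by exact_mod_cast Finset.card_pos.mpr hA
  have key : ∀ y, |law A x t y - unif A y| ≤ δ := by
    intro y
    by_cases hy : y ∈ A
    · have h1 : unif A y = 1 / A.card := by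
        unfold unif
        rw [if_pos hy]
      have h2 : ∑ x' ∈ A, law A x' t y = 1 := usum_all A hn t y hy
      have h3 : (A.card : ℝ) * law A x t y - 1 ≤ A.card * δ := by
        have : ∑ x' ∈ A, (law A x t y - law A x' t y) ≤ ∑ x' ∈ A, δ :=
          Finset.sum_le_sum fun x' hx' => hδ y x hx x' hx'
        rw [Finset.sum_sub_distrib, h2] at this
        simpa using this
      have h4 : 1 - (A.card : ℝ) * law A x t y ≤ A.card * δ := by
        have : ∑ x' ∈ A, (law A x' t y - law A x t y) ≤ ∑ x' ∈ A, δ :=
          Finset.sum_le_sum fun x' hx' => hδ y x' hx' x hx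
        rw [Finset.sum_sub_distrib, h2] at this
        simpa using this
      have h5 : law A x t y - unif A y = (A.card * law A x t y - 1) / A.card := by
        rw [h1]
        field_simp
      rw [h5, abs_le]
      constructor
      · rw [le_div_iff₀ hApos]
        linarith
      · rw [div_le_iff₀ hApos]
        linarith
    · rw [law_out A x hx t y hy]
      unfold unif
      rw [if_neg hy]
      simpa using h0
  unfold tv
  have h1 : ∑ y, |law A x t y - unif A y| ≤ ∑ _y : Cube n, δ := Finset.sum_le_sum fun y _ => key y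
  have h2 : ∑ _y : Cube n, δ = 2 ^ n * δ := by
    simp
  rw [h2] at h1
  linarith

/-- The mixing time of every nonempty monotone set is finite. -/
theorem exists_mixed (A : Finset (Cube n)) (hm : IsMonotone A) (hA : A.Nonempty) (hn : 0 < n) :
    ∃ t, Mixed A t := by
  set ε : ℝ := (1 / (2 * (n:ℝ))) ^ n with hεdef
  have hn1 : (1:ℝ) ≤ n := by exact_mod_cast hn
  have hε0 : 0 < ε := by positivity
  have hq1 : 1 / (2 * (n:ℝ)) ≤ 1 := by
    rw [div_le_one (by positivity)]
    linarith
  have hε1 : ε ≤ 1 := pow_le_one₀ (by positivity) hq1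
  have hε : ∀ x ∈ A, ε ≤ law A x n (ones n) := fun x hx => reach A hm hn n x hx (zeros_le x)
  have hpos : (0:ℝ) < 1 / (2 * 2 ^ n) := by positivity
  obtain ⟨j, hj⟩ := exists_pow_lt_of_lt_one hpos (show 1 - ε < 1 by linarith)
  refine ⟨n * j, mixed_of A hA hn (n * j) ((1 - ε) ^ j)
    (fun y x hx x' hx' => contract A hm hA hn ε hε1 hε y j x hx x' hx')
    (pow_nonneg (by linarith) j) ?_⟩
  have h2 : (0:ℝ) < 2 ^ n := by positivity
  have h3 : (2:ℝ) ^ n * (1 - ε) ^ j ≤ 2 ^ n * (1 / (2 * 2 ^ n)) :=
    mul_le_mul_of_nonneg_left hj.le h2.le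
  have h4 : (2:ℝ) ^ n * (1 / (2 * 2 ^ n)) = 1 / 2 := by field_simp
  linarith

/-- The mixing time is attained. -/
theorem tmix_spec (A : Finset (Cube n)) (hm : IsMonotone A) (hA : A.Nonempty) (hn : 0 < n) :
    Mixed A (tmix A) := Nat.sInf_mem (exists_mixed A hm hA hn)

end Pool.Agent.H882R3.CW
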