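import Mathlib
import Pool.Agent.H882R3.CWChain

set_option autoImplicit false

namespace Pool.Agent.H882R3.CW

open Finset

/-- The subcube of the points with `x_i = 1` for the `i` with `p i`. -/
def sub (n : ℕ) (p : Fin n → Prop) [DecidablePred p] : Finset (Cube n) :=
  Finset.univ.filter fun x => ∀ i, p i → x i = true

theorem mem_sub {n : ℕ} {p : Fin n → Prop} [DecidablePred p] {x : Cube n} :
    x ∈ sub n p ↔ ∀ i, p i → x i = true := by
  simp [sub]

theorem sub_eq_pi (n : ℕ) (p : Fin n → Prop) [DecidablePred p] :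
    sub n p = Fintype.piFinset fun i => if p i then {true} else (Finset.univ : Finset Bool) := by
  ext x
  rw [mem_sub, Fintype.mem_piFinset]
  constructor
  · intro h i
    split_ifs with hp
    · simp [h i hp]
    · simp
  · intro h i hp
    have := h i
    rw [if_pos hp] at this
    simpa using this

theorem card_sub (n : ℕ) (p : Fin n → Prop) [DecidablePred p] :
    (sub n p).card = 2 ^ (Finset.univ.filter fun i => ¬ p i).card := by
  rw [sub_eq_pi, Fintype.card_piFinset]
  have : ∀ i, (if p i then ({true} : Finset Bool) else Finset.univ).card =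
      if p i then 1 else 2 := by
    intro i
    split_ifs <;> simp
  rw [Finset.prod_congr rfl fun i _ => this i, Finset.prod_ite]
  simp

/-- first block -/
def pS (n k : ℕ) (i : Fin n) : Prop := i.1 < k
/-- second block -/
def pT (n k : ℕ) (i : Fin n) : Prop := k ≤ i.1 ∧ i.1 < 2 * k
/-- both blocks -/
def pST (n k : ℕ) (i : Fin n) : Prop := i.1 < 2 * k

instance (n k : ℕ) : DecidablePred (pS n k) := fun i => by unfold pS; infer_instance
instance (n k : ℕ) : DecidablePred (pT n k) := fun i => by unfold pT; infer_instance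
instance (n k : ℕ) : DecidablePred (pST n k) := fun i => by unfold pST; infer_instance

theorem card_lt (n m : ℕ) (h : m ≤ n) : (Finset.univ.filter fun i : Fin n => i.1 < m).card = m := by
  have := Fin.card_filter_val_lt (n := n) (m := m)
  rw [this]
  exact min_eq_right h

theorem card_not_lt (n m : ℕ) (h : m ≤ n) :
    (Finset.univ.filter fun i : Fin n => ¬ (i.1 < m)).card = n - m := by
  have h1 := Finset.card_filter_add_card_filter_not (s := (Finset.univ : Finset (Fin n)))
    (fun i : Fin n => i.1 < m)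
  rw [card_lt n m h, Finset.card_univ, Fintype.card_fin] at h1
  omega

theorem card_S (n k : ℕ) (h : 2 * k ≤ n) : (sub n (pS n k)).card = 2 ^ (n - k) := by
  rw [card_sub]
  congr 1
  exact card_not_lt n k (by omega)

theorem card_ST (n k : ℕ) (h : 2 * k ≤ n) : (sub n (pST n k)).card = 2 ^ (n - 2 * k) := by
  rw [card_sub]
  congr 1
  exact card_not_lt n (2 * k) h

theorem card_pT (n k : ℕ) (h : 2 * k ≤ n) : (Finset.univ.filter fun i => pT n k i).card = k := by
  have h1 : (Finset.univ.filter fun i : Fin n => i.1 < 2 * k) =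
      (Finset.univ.filter fun i : Fin n => i.1 < k) ∪ (Finset.univ.filter fun i => pT n k i) := by
    ext i
    simp only [Finset.mem_filter, Finset.mem_univ, true_and, Finset.mem_union, pT]
    omega
  have h2 : Disjoint (Finset.univ.filter fun i : Fin n => i.1 < k)
      (Finset.univ.filter fun i => pT n k i) := by
    rw [Finset.disjoint_left]
    intro i h3 h4
    simp only [Finset.mem_filter, Finset.mem_univ, true_and, pT] at h3 h4
    omega
  have h3 := Finset.card_union_of_disjoint h2
  rw [← h1, card_lt n (2 * k) h, card_lt n k (by omega)] at h3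
  omega

theorem card_T (n k : ℕ) (h : 2 * k ≤ n) : (sub n (pT n k)).card = 2 ^ (n - k) := by
  rw [card_sub]
  congr 1
  have h1 := Finset.card_filter_add_card_filter_not (s := (Finset.univ : Finset (Fin n)))
    (fun i : Fin n => pT n k i)
  rw [card_pT n k h, Finset.card_univ, Fintype.card_fin] at h1
  omega

/-- The union of the two subcubes. -/
def AA (n k : ℕ) : Finset (Cube n) := sub n (pS n k) ∪ sub n (pT n k)

/-- The bottleneck set: the first subcube without the second. -/
def BB (n k : ℕ) : Finset (Cube n) := sub n (pS n k) \ sub n (pT n k)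

theorem inter_eq (n k : ℕ) : sub n (pS n k) ∩ sub n (pT n k) = sub n (pST n k) := by
  ext x
  simp only [Finset.mem_inter, mem_sub, pS, pT, pST]
  constructor
  · rintro ⟨h1, h2⟩ i hi
    by_cases h : i.1 < k
    · exact h1 i h
    · exact h2 i ⟨by omega, hi⟩
  · intro h
    exact ⟨fun i hi => h i (by omega), fun i hi => h i hi.2⟩

theorem AA_mono (n k : ℕ) : IsMonotone (AA n k) := by
  intro x hx y hxy
  have up : ∀ i, x i = true → y i = true := by
    intro i hi
    have := hxy i
    rw [hi] at this
    exact Bool.eq_true_of_true_le this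
  unfold AA at hx ⊢
  rw [Finset.mem_union, mem_sub, mem_sub] at hx ⊢
  rcases hx with hx | hx
  · exact Or.inl fun i hi => up i (hx i hi)
  · exact Or.inr fun i hi => up i (hx i hi)

theorem one_mem (n k : ℕ) : (fun _ => true) ∈ AA n k := by
  unfold AA
  rw [Finset.mem_union, mem_sub]
  exact Or.inl fun _ _ => rfl

theorem AA_nonempty (n k : ℕ) : (AA n k).Nonempty := ⟨_, one_mem n k⟩

theorem BB_sub (n k : ℕ) : BB n k ⊆ AA n k := by
  intro x hx
  unfold BB at hx
  unfold AA
  exact Finset.mem_union_left _ (Finset.mem_sdiff.mp hx).1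

theorem card_AA (n k : ℕ) (h : 2 * k ≤ n) :
    (AA n k).card + 2 ^ (n - 2 * k) = 2 * 2 ^ (n - k) := by
  have h1 := Finset.card_union_add_card_inter (sub n (pS n k)) (sub n (pT n k))
  rw [inter_eq, card_ST n k h, card_S n k h, card_T n k h] at h1
  unfold AA
  omega

theorem card_BB (n k : ℕ) (h : 2 * k ≤ n) :
    (BB n k).card + 2 ^ (n - 2 * k) = 2 ^ (n - k) := by
  have h1 := Finset.card_sdiff_add_card_inter (sub n (pS n k)) (sub n (pT n k))
  rw [inter_eq, card_ST n k h, card_S n k h] at h1
  unfold BB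
  exact h1

theorem half (n k : ℕ) (h : 2 * k ≤ n) : 2 * (BB n k).card ≤ (AA n k).card := by
  have h1 := card_AA n k h
  have h2 := card_BB n k h
  generalize 2 ^ (n - 2 * k) = e at h1 h2
  generalize 2 ^ (n - k) = f at h1 h2
  omega

theorem move_out (n k : ℕ) (z : Cube n) (hz : z ∈ BB n k) (i : Fin n)
    (hm : move (AA n k) z i ∉ BB n k) : pT n k i ∧ flip z i ∈ sub n (pST n k) := by
  have hz' := Finset.mem_sdiff.mp (show z ∈ sub n (pS n k) \ sub n (pT n k) from hz)
  have hzS := mem_sub.mp hz'.1
  have hflip : flip z i ∈ AA n k := by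
    by_contra hc
    unfold move at hm
    rw [if_neg hc] at hm
    exact hm hz
  unfold move at hm
  rw [if_pos hflip] at hm
  have hT : flip z i ∈ sub n (pT n k) := by
    by_contra hc
    apply hm
    unfold AA at hflip
    rcases Finset.mem_union.mp hflip with h1 | h1
    · exact Finset.mem_sdiff.mpr ⟨h1, hc⟩
    · exact absurd h1 hc
  have hT' := mem_sub.mp hT
  have hi : pT n k i := by
    by_contra hc
    apply hz'.2
    rw [mem_sub]
    intro j hj
    have hji : j ≠ i := fun e => hc (e ▸ hj)
    have := hT' j hj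
    rwa [flip_other z i j hji] at this
  refine ⟨hi, ?_⟩
  rw [← inter_eq, Finset.mem_inter]
  refine ⟨?_, hT⟩
  rw [mem_sub]
  intro j hj
  have hji : j ≠ i := by
    intro e
    rw [e] at hj
    simp only [pS, pT] at hj hi
    omega
  rw [flip_other z i j hji]
  exact hzS j hj

theorem out_step (n k : ℕ) (z : Cube n) (hz : z ∈ BB n k) :
    ∑ y ∈ (BB n k)ᶜ, step (AA n k) z y =
      1 / (2 * n) * ∑ i : Fin n, (if move (AA n k) z i ∉ BB n k then (1:ℝ) else 0) := by
  unfold step
  rw [Finset.sum_add_distrib, ← Finset.mul_sum, ← Finset.mul_sum, ← Finset.mul_sum,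
    Finset.sum_comm]
  have h1 : ∑ y ∈ (BB n k)ᶜ, (if z = y then (1:ℝ) else 0) = 0 := by
    apply Finset.sum_eq_zero
    intro y hy
    rw [if_neg]
    intro e
    exact (Finset.mem_compl.mp hy) (e ▸ hz)
  have h2 : ∀ i : Fin n, ∑ y ∈ (BB n k)ᶜ, (if move (AA n k) z i = y then (1:ℝ) else 0) =
      if move (AA n k) z i ∉ BB n k then 1 else 0 := by
    intro i
    rw [Finset.sum_ite_eq]
    simp only [Finset.mem_compl]
  rw [h1, Finset.sum_congr rfl fun i _ => h2 i]
  ring

theorem flow_le (n k : ℕ) (h : 2 * k ≤ n) :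
    flow (AA n k) (BB n k) ≤ (k : ℝ) * 2 ^ (n - 2 * k) / (2 * n) := by
  unfold flow
  rw [Finset.sum_congr rfl fun z hz => out_step n k z hz, ← Finset.mul_sum, Finset.sum_comm]
  have key : ∑ i : Fin n, ∑ z ∈ BB n k, (if move (AA n k) z i ∉ BB n k then (1:ℝ) else 0) ≤
      (k : ℝ) * 2 ^ (n - 2 * k) := by
    have h1 : ∀ i : Fin n, ∑ z ∈ BB n k, (if move (AA n k) z i ∉ BB n k then (1:ℝ) else 0) ≤
        if pT n k i then (2:ℝ) ^ (n - 2 * k) else 0 := by
      intro i
      by_cases hi : pT n k i
      · rw [if_pos hi]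
        rw [Finset.sum_boole]
        have h2 : ((BB n k).filter fun z => move (AA n k) z i ∉ BB n k).card ≤
            (sub n (pST n k)).card := by
          apply Finset.card_le_card_of_injOn (fun z => flip z i)
          · intro z hz
            have hz' := Finset.mem_filter.mp (Finset.mem_coe.mp hz)
            exact (move_out n k z hz'.1 i hz'.2).2
          · intro z _ w _ hzw
            have : flip (flip z i) i = flip (flip w i) i := by
              simp only at hzw
              rw [hzw]
            rwa [flip_flip, flip_flip] at this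
        rw [card_ST n k h] at h2
        exact_mod_cast h2
      · rw [if_neg hi]
        apply le_of_eq
        apply Finset.sum_eq_zero
        intro z hz
        rw [if_neg]
        intro hm
        exact hi (move_out n k z hz i hm).1
    calc _ ≤ ∑ i : Fin n, (if pT n k i then (2:ℝ) ^ (n - 2 * k) else 0) :=
          Finset.sum_le_sum fun i _ => h1 i
      _ = (k : ℝ) * 2 ^ (n - 2 * k) := by
          rw [← Finset.sum_filter, Finset.sum_const, card_pT n k h, nsmul_eq_mul]
  calc _ ≤ 1 / (2 * (n:ℝ)) * ((k : ℝ) * 2 ^ (n - 2 * k)) := by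
        apply mul_le_mul_of_nonneg_left key
        positivity
    _ = (k : ℝ) * 2 ^ (n - 2 * k) / (2 * n) := by ring

/-- The lower bound for the mixing time of the union of the two subcubes. -/
theorem lower (n k : ℕ) (hk : 1 ≤ k) (h : 2 * k ≤ n) (t : ℕ) (ht : Mixed (AA n k) t) :
    (n : ℝ) * (2 ^ k - 1) / (2 * k) ≤ t := by
  have hn : 0 < n := by omega
  have h1 := bottleneck (AA n k) (BB n k) (BB_sub n k) (AA_nonempty n k) (half n k h) hn t ht
  have h2 := flow_le n k h
  have hB : ((BB n k).card : ℝ) = (2 ^ k - 1) * 2 ^ (n - 2 * k) := by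
    have h3 := card_BB n k h
    have h4 : (2:ℕ) ^ (n - k) = 2 ^ k * 2 ^ (n - 2 * k) := by
      rw [← pow_add]
      congr 1
      omega
    rw [h4] at h3
    have h5 : ((BB n k).card : ℝ) + 2 ^ (n - 2 * k) = 2 ^ k * 2 ^ (n - 2 * k) := by
      exact_mod_cast h3
    linarith
  have hpos : (0:ℝ) < 2 ^ (n - 2 * k) := by positivity
  have hn' : (0:ℝ) < n := by exact_mod_cast hn
  have hk' : (0:ℝ) < k := by exact_mod_cast hk
  have h6 : ((2:ℝ) ^ k - 1) * 2 ^ (n - 2 * k) / 4 ≤ t * ((k : ℝ) * 2 ^ (n - 2 * k) / (2 * n)) := by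
    rw [← hB]
    exact le_trans h1 (mul_le_mul_of_nonneg_left h2 (Nat.cast_nonneg t))
  have h7 : ((2:ℝ) ^ k - 1) / 4 ≤ t * ((k : ℝ) / (2 * n)) := by
    have h8 : ((2:ℝ) ^ k - 1) / 4 * 2 ^ (n - 2 * k) ≤ (t * ((k : ℝ) / (2 * n))) * 2 ^ (n - 2 * k) := by
      calc _ = ((2:ℝ) ^ k - 1) * 2 ^ (n - 2 * k) / 4 := by ring
        _ ≤ _ := h6
        _ = _ := by ring
    exact le_of_mul_le_mul_right h8 hpos
  have h9 : (t : ℝ) * ((k : ℝ) / (2 * n)) = t * k / (2 * n) := by ring
  rw [h9, div_le_div_iff₀ (by norm_num) (by positivity)] at h7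
  rw [div_le_iff₀ (by positivity)]
  nlinarith [h7]

end Pool.Agent.H882R3.CW
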