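import Mathlib
import Pool.Agent.H882R3.CWExample
import Pool.Agent.H882R3.CWErg

set_option autoImplicit false

namespace Pool.Agent.H882R3.CW

open Filter

theorem prob_lower (n k : ℕ) (h : 2 * k ≤ n) : 1 / 2 ^ k ≤ prob (AA n k) := by
  have h1 := card_AA n k h
  have h2 : (2:ℕ) ^ (n - 2 * k) ≤ 2 ^ (n - k) := Nat.pow_le_pow_right (by norm_num) (by omega)
  have h3 : (2:ℕ) ^ (n - k) ≤ (AA n k).card := by
    generalize (2:ℕ) ^ (n - 2 * k) = e at h1 h2
    generalize (2:ℕ) ^ (n - k) = f at h1 h2 ⊢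
    omega
  have h4 : (2:ℝ) ^ (n - k) ≤ ((AA n k).card : ℝ) := by exact_mod_cast h3
  have h5 : (2:ℝ) ^ n = 2 ^ k * 2 ^ (n - k) := by
    rw [← pow_add]
    congr 1
    omega
  unfold prob
  rw [div_le_div_iff₀ (by positivity) (by positivity), h5]
  have h6 : (0:ℝ) < 2 ^ k := by positivity
  nlinarith

theorem prob_upper (n k : ℕ) (h : 2 * k ≤ n) : prob (AA n k) ≤ 2 / 2 ^ k := by
  have h1 := card_AA n k h
  have h3 : (AA n k).card ≤ 2 * 2 ^ (n - k) := by
    generalize (2:ℕ) ^ (n - 2 * k) = e at h1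
    generalize (2:ℕ) ^ (n - k) = f at h1 ⊢
    omega
  have h4 : ((AA n k).card : ℝ) ≤ 2 * 2 ^ (n - k) := by exact_mod_cast h3
  have h5 : (2:ℝ) ^ n = 2 ^ k * 2 ^ (n - k) := by
    rw [← pow_add]
    congr 1
    omega
  unfold prob
  rw [div_le_div_iff₀ (by positivity) (by positivity), h5]
  have h6 : (0:ℝ) < 2 ^ k := by positivity
  nlinarith

theorem tmix_lower (n k : ℕ) (hk : 1 ≤ k) (h : 2 * k ≤ n) :
    (n : ℝ) * (2 ^ k - 1) / (2 * k) ≤ tmix (AA n k) :=
  lower n k hk h _ (tmix_spec (AA n k) (AA_mono n k) (AA_nonempty n k) (by omega))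

/-- The choice of `k` for a given large `L = log n`. -/
theorem choice (C ε L : ℝ) (hε : 0 < ε) (hL : 1 ≤ L) (h4 : 4 < L ^ (1 + ε))
    (hlog : 16 * (1 + ε) * |C| * Real.log L ≤ L ^ ε) :
    ∃ k : ℕ, 1 ≤ k ∧ (2:ℝ) ^ k ≤ L ^ (1 + ε) ∧ C * L * (2 * k) < 2 ^ k - 1 := by
  set X : ℝ := L ^ (1 + ε) with hX
  have hX0 : 0 ≤ X := by positivity
  set x : ℕ := ⌊X⌋₊ with hx
  have hx4 : 4 ≤ x := by
    rw [hx]
    apply Nat.le_floor
    exact_mod_cast h4.le
  refine ⟨Nat.log 2 x, ?_, ?_, ?_⟩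
  · exact Nat.log_pos (by norm_num) (by omega)
  · have h1 : 2 ^ Nat.log 2 x ≤ x := Nat.pow_log_le_self 2 (by omega)
    have h2 : ((2:ℝ)) ^ Nat.log 2 x ≤ x := by exact_mod_cast h1
    exact le_trans h2 (Nat.floor_le hX0)
  · have h1 : 2 ^ Nat.log 2 x ≤ x := Nat.pow_log_le_self 2 (by omega)
    have h2 : ((2:ℝ)) ^ Nat.log 2 x ≤ X := by
      have : ((2:ℝ)) ^ Nat.log 2 x ≤ x := by exact_mod_cast h1
      exact le_trans this (Nat.floor_le hX0)
    have h3 : x < 2 ^ (Nat.log 2 x).succ := Nat.lt_pow_succ_log_self (by norm_num) x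
    have h5 : X < 2 ^ (Nat.log 2 x + 1) := by
      have h6 : (x : ℝ) + 1 ≤ 2 ^ (Nat.log 2 x + 1) := by exact_mod_cast h3
      have h7 : X < (x : ℝ) + 1 := Nat.lt_floor_add_one X
      linarith
    have hlogL : 0 ≤ Real.log L := Real.log_nonneg hL
    -- bound for k
    have hk : (Nat.log 2 x : ℝ) ≤ 2 * (1 + ε) * Real.log L := by
      have h8 : Real.log ((2:ℝ) ^ Nat.log 2 x) ≤ Real.log X :=
        Real.log_le_log (by positivity) h2
      rw [Real.log_pow, hX, Real.log_rpow (by linarith)] at h8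
      have h9 : (1:ℝ) / 2 < Real.log 2 := by
        have := Real.log_two_gt_d9
        linarith
      have h10 : (0:ℝ) ≤ Nat.log 2 x := Nat.cast_nonneg _
      nlinarith
    have h11 : C * L * (2 * (Nat.log 2 x : ℝ)) ≤ |C| * L * (2 * (2 * (1 + ε) * Real.log L)) := by
      have h12 : C * L ≤ |C| * L := mul_le_mul_of_nonneg_right (le_abs_self C) (by linarith)
      have h13 : (0:ℝ) ≤ 2 * (Nat.log 2 x : ℝ) := by positivity
      have h14 : 0 ≤ |C| * L := by positivity
      calc _ ≤ |C| * L * (2 * (Nat.log 2 x : ℝ)) := mul_le_mul_of_nonneg_right h12 h13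
        _ ≤ _ := mul_le_mul_of_nonneg_left (by linarith) h14
    have h15 : X = L * L ^ ε := by
      rw [hX, Real.rpow_add (by linarith), Real.rpow_one]
    have h16 : |C| * L * (2 * (2 * (1 + ε) * Real.log L)) ≤ X / 4 := by
      rw [h15]
      have : L * (16 * (1 + ε) * |C| * Real.log L) ≤ L * L ^ ε :=
        mul_le_mul_of_nonneg_left hlog (by linarith)
      nlinarith
    rw [pow_succ] at h5
    linarith

theorem eventually_example (C ε : ℝ) (hε : 0 < ε) : ∀ᶠ n : ℕ in atTop, ∃ A : Finset (Cube n),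
    A.Nonempty ∧ IsMonotone A ∧ (Real.log n) ^ (-(1 + ε)) ≤ prob A ∧
      C * n * Real.log n < tmix A := by
  have hLt : Tendsto (fun n : ℕ => Real.log n) atTop atTop :=
    Real.tendsto_log_atTop.comp tendsto_natCast_atTop_atTop
  have e1 : ∀ᶠ L : ℝ in atTop, 16 * (1 + ε) * |C| * Real.log L ≤ L ^ ε := by
    have hc : (0:ℝ) < 1 / (16 * (1 + ε) * |C| + 1) := by positivity
    filter_upwards [(isLittleO_log_rpow_atTop hε).bound hc, eventually_ge_atTop (1:ℝ)] with L hL hL1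
    have hlog : 0 ≤ Real.log L := Real.log_nonneg hL1
    rw [Real.norm_of_nonneg hlog, Real.norm_of_nonneg (by positivity)] at hL
    have hD : (0:ℝ) < 16 * (1 + ε) * |C| + 1 := by positivity
    rw [div_mul_eq_mul_div, one_mul, le_div_iff₀ hD] at hL
    nlinarith
  have e2 : ∀ᶠ L : ℝ in atTop, (4:ℝ) < L ^ (1 + ε) :=
    (tendsto_rpow_atTop (show 0 < 1 + ε by linarith)).eventually_gt_atTop 4
  have e3 : ∀ᶠ n : ℕ in atTop, 2 * (Real.log n) ^ (1 + ε) ≤ n := by
    have hr : ∀ᶠ x : ℝ in atTop, 2 * (Real.log x) ^ (1 + ε) ≤ x := by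
      have hb := (isLittleO_log_rpow_rpow_atTop (1 + ε) (show (0:ℝ) < 1 by norm_num)).bound
        (show (0:ℝ) < 1 / 2 by norm_num)
      filter_upwards [hb, eventually_ge_atTop (1:ℝ)] with x hx hx1
      have hlog : 0 ≤ Real.log x := Real.log_nonneg hx1
      rw [Real.norm_of_nonneg (by positivity), Real.norm_of_nonneg (by positivity),
        Real.rpow_one] at hx
      linarith
    exact tendsto_natCast_atTop_atTop.eventually hr
  filter_upwards [hLt.eventually e1, hLt.eventually e2, e3, hLt.eventually (eventually_ge_atTop 1),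
    eventually_ge_atTop 1] with n h1 h2 h3 h4 h5
  obtain ⟨k, hk1, hk2, hk3⟩ := choice C ε (Real.log n) hε h4 h2 h1
  have hkn : 2 * k ≤ n := by
    have h6 : (k : ℝ) < 2 ^ k := by exact_mod_cast Nat.lt_two_pow_self
    have h7 : (2:ℝ) * k ≤ n := by linarith
    exact_mod_cast h7
  refine ⟨AA n k, AA_nonempty n k, AA_mono n k, ?_, ?_⟩
  · refine le_trans ?_ (prob_lower n k hkn)
    rw [Real.rpow_neg (by linarith), inv_eq_one_div]
    exact one_div_le_one_div_of_le (by positivity) hk2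
  · refine lt_of_lt_of_le ?_ (tmix_lower n k hk1 hkn)
    have hkpos : (0:ℝ) < k := by exact_mod_cast hk1
    have hnpos : (0:ℝ) < n := by exact_mod_cast h5
    rw [lt_div_iff₀ (by positivity)]
    have := mul_lt_mul_of_pos_left hk3 hnpos
    nlinarith

end Pool.Agent.H882R3.CW
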