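import Mathlib

set_option autoImplicit false

/-!
# The Poisson algebra `ℂ[x, y]` and its Poisson subalgebra `ℂ + 𝔪²`
-/

namespace Pool.Agent.H882R3.Poi

open MvPolynomial

/-- A Poisson bracket on a commutative `ℂ`-algebra. -/
structure IsPoisson (A : Type*) [CommRing A] [Algebra ℂ A] (br : A → A → A) : Prop where
  add_left : ∀ f g h, br (f + g) h = br f h + br g h
  smul_left : ∀ (c : ℂ) f g, br (c • f) g = c • br f g
  skew : ∀ f g, br f g = - br g f
  leibniz : ∀ f g h, br f (g * h) = br f g * h + g * br f h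
  jacobi : ∀ f g h, br f (br g h) + br g (br h f) + br h (br f g) = 0

/-- the coordinate ring `ℂ[x, y]` of the plane -/
abbrev B : Type := MvPolynomial (Fin 2) ℂ

/-- the standard Poisson bracket `{f, g} = f_x g_y - f_y g_x` -/
noncomputable def br (f g : B) : B := pderiv 0 f * pderiv 1 g - pderiv 1 f * pderiv 0 g

lemma pderiv_comm (f : B) : pderiv 0 (pderiv 1 f) = pderiv 1 (pderiv 0 f) := by
  have h : ⁅(pderiv 0 : Derivation ℂ B B), (pderiv 1 : Derivation ℂ B B)⁆ = 0 := by
    apply MvPolynomial.derivation_ext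
    intro i
    fin_cases i <;> simp [Derivation.commutator_apply, pderiv_X]
  have h2 := congrArg (fun D : Derivation ℂ B B => D f) h
  simp only [Derivation.commutator_apply, Derivation.coe_zero, Pi.zero_apply] at h2
  exact sub_eq_zero.1 h2

lemma br_isPoisson : IsPoisson B br where
  add_left f g h := by simp only [br, map_add]; ring
  smul_left c f g := by
    simp only [br, Derivation.map_smul, smul_mul_assoc, smul_sub]
  skew f g := by simp only [br]; ring
  leibniz f g h := by
    simp only [br, Derivation.leibniz, smul_eq_mul]; ring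
  jacobi f g h := by
    simp only [br, map_sub, Derivation.leibniz, smul_eq_mul, pderiv_comm]; ring

/-- the coefficient of `x_i` -/
noncomputable def lin (i : Fin 2) (f : B) : ℂ := constantCoeff (pderiv i f)

lemma lin_add (i : Fin 2) (f g : B) : lin i (f + g) = lin i f + lin i g := by simp [lin]

lemma lin_mul (i : Fin 2) (f g : B) :
    lin i (f * g) = constantCoeff f * lin i g + constantCoeff g * lin i f := by
  simp [lin, Derivation.leibniz]

/-- the Poisson subalgebra `ℂ + 𝔪²` of polynomials without linear terms at the origin -/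
noncomputable def A : Subalgebra ℂ B where
  carrier := {f | ∀ i, lin i f = 0}
  mul_mem' := by
    intro f g hf hg i
    rw [lin_mul, hf i, hg i]; simp
  add_mem' := by
    intro f g hf hg i
    rw [lin_add, hf i, hg i]; simp
  algebraMap_mem' := by
    intro c i
    simp [lin, MvPolynomial.algebraMap_eq]

lemma mem_A {f : B} : f ∈ A ↔ ∀ i, lin i f = 0 := Iff.rfl

lemma br_mem {f g : B} (hf : f ∈ A) (hg : g ∈ A) : br f g ∈ A := by
  intro i
  have h1 : ∀ j, constantCoeff (pderiv j f) = 0 := hf
  have h2 : ∀ j, constantCoeff (pderiv j g) = 0 := hg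
  simp only [lin, br, map_sub, Derivation.leibniz, smul_eq_mul, map_add, map_mul, h1, h2]
  simp

/-- the bracket of `A` -/
noncomputable def brA (f g : A) : A := ⟨br f g, br_mem f.2 g.2⟩

lemma brA_isPoisson : IsPoisson A brA where
  add_left f g h := Subtype.ext (by simpa [brA] using br_isPoisson.add_left (f : B) g h)
  smul_left c f g := Subtype.ext (by simpa [brA] using br_isPoisson.smul_left c (f : B) g)
  skew f g := Subtype.ext (by simpa [brA] using br_isPoisson.skew (f : B) g)
  leibniz f g h := Subtype.ext (by simpa [brA] using br_isPoisson.leibniz (f : B) g h)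
  jacobi f g h := Subtype.ext (by simpa [brA] using br_isPoisson.jacobi (f : B) g h)

lemma lin_X (i j : Fin 2) : lin i (X j : B) = if i = j then 1 else 0 := by
  by_cases h : i = j
  · subst h; simp [lin]
  · simp [lin, pderiv_X, Pi.single_apply, h, Ne.symm h]

lemma decomp (f : B) : ∃ g ∈ A, f = g + (C (lin 0 f) * X 0 + C (lin 1 f) * X 1) := by
  refine ⟨f - (C (lin 0 f) * X 0 + C (lin 1 f) * X 1), ?_, by ring⟩
  intro i
  have h : ∀ f g : B, lin i (f - g) = lin i f - lin i g := fun f g => by simp [lin]
  rw [h, lin_add, lin_mul, lin_mul, lin_X, lin_X]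
  have hc : ∀ c : ℂ, lin i (C c : B) = 0 := fun c => by simp [lin]
  rw [hc, hc]
  fin_cases i <;> simp

instance finite_B : Module.Finite A B := by
  refine ⟨⟨{1, X 0, X 1}, ?_⟩⟩
  rw [eq_top_iff]
  rintro f -
  obtain ⟨g, hg, h⟩ := decomp f
  have key : ∀ (a : A) (b : B), b ∈ ({1, X 0, X 1} : Finset B) →
      (a : B) * b ∈ Submodule.span A (({1, X 0, X 1} : Finset B) : Set B) := by
    intro a b hb
    have : (a : B) * b = a • b := rfl
    rw [this]
    exact Submodule.smul_mem _ _ (Submodule.subset_span (by exact_mod_cast hb))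
  rw [h]
  refine Submodule.add_mem _ ?_ (Submodule.add_mem _ ?_ ?_)
  · simpa using key ⟨g, hg⟩ 1 (by simp)
  · simpa [MvPolynomial.algebraMap_eq] using key (algebraMap ℂ A (lin 0 f)) (X 0) (by simp)
  · simpa [MvPolynomial.algebraMap_eq] using key (algebraMap ℂ A (lin 1 f)) (X 1) (by simp)

lemma fg_A : (⊤ : Subalgebra ℂ A).FG := by
  have h1 : (⊤ : Subalgebra ℂ B).FG := (inferInstance : Algebra.FiniteType ℂ B).out
  have h2 : (⊤ : Submodule A B).FG := finite_B.fg_top
  exact fg_of_fg_of_fg (A := ℂ) (B := A) (C := B) h1 h2 (Subtype.val_injective)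

lemma sq_mul_mem (f : B) : X 0 ^ 2 * f ∈ A := by
  intro i
  rw [lin_mul]
  have h1 : lin i (X 0 ^ 2 : B) = 0 := by
    rw [pow_two, lin_mul]; simp
  rw [h1]
  simp

end Pool.Agent.H882R3.Poi
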