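import Pool.Agent.H882R3.PoiDefs

set_option autoImplicit false

/-!
# Zeroth Poisson homology of `ℂ + 𝔪²`
-/

namespace Pool.Agent.H882R3.Poi

open MvPolynomial

/-- the span of the brackets of `A` -/
noncomputable def SA : Submodule ℂ A := Submodule.span ℂ {h | ∃ f g : A, h = brA f g}

/-- the constant term on `A` -/
noncomputable def cc : A →ₗ[ℂ] ℂ where
  toFun f := constantCoeff (f : B)
  map_add' f g := by simp
  map_smul' c f := by simp [MvPolynomial.smul_eq_C_mul]

lemma br_const {f g : B} (hf : f ∈ A) : constantCoeff (br f g) = 0 := by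
  have h1 : ∀ j, constantCoeff (pderiv j f) = 0 := hf
  simp [br, h1]

/-- the monomial `x^a y^b` -/
noncomputable def mo (a b : ℕ) : B := X 0 ^ a * X 1 ^ b

lemma lin_mo (i : Fin 2) (a b : ℕ) (h : 2 ≤ a + b) : lin i (mo a b) = 0 := by
  have key : ∀ (i j : Fin 2) (n : ℕ), 2 ≤ n → lin i (X j ^ n : B) = 0 := by
    intro i j n hn
    obtain ⟨m, rfl⟩ : ∃ m, n = m + 2 := ⟨n - 2, by omega⟩
    rw [pow_add, lin_mul, pow_two, lin_mul]
    simp
  rcases Nat.lt_or_ge a 2 with ha | ha
  · rcases Nat.lt_or_ge b 2 with hb | hb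
    · have : a = 1 ∧ b = 1 := by omega
      obtain ⟨rfl, rfl⟩ := this
      simp [mo, lin_mul]
    · rw [mo, lin_mul, key i 1 b hb]
      have : b ≠ 0 := by omega
      simp [this]
  · rw [mo, lin_mul, key i 0 a ha]
    have : a ≠ 0 := by omega
    simp [this]

lemma mo_mem {a b : ℕ} (h : 2 ≤ a + b) : mo a b ∈ A := fun i => lin_mo i a b h

lemma pd0_mo (a b : ℕ) : pderiv 0 (mo a b) = (a : B) * mo (a - 1) b := by
  simp only [mo, Derivation.leibniz, Derivation.leibniz_pow, pderiv_X_self, smul_eq_mul,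
    nsmul_eq_mul]
  rw [pderiv_X_of_ne (by decide : (1 : Fin 2) ≠ 0)]
  ring

lemma pd1_mo (a b : ℕ) : pderiv 1 (mo a b) = (b : B) * mo a (b - 1) := by
  simp only [mo, Derivation.leibniz, Derivation.leibniz_pow, pderiv_X_self, smul_eq_mul,
    nsmul_eq_mul]
  rw [pderiv_X_of_ne (by decide : (0 : Fin 2) ≠ 1)]
  ring

lemma br_xy (a b : ℕ) : br (mo 1 1) (mo a b) = (((b : ℂ) - a) • mo a b : B) := by
  rw [br, pd0_mo, pd1_mo, pd0_mo, pd1_mo]
  have h1 : (b : B) * mo 0 1 * mo a (b - 1) = b * mo a b := by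
    rcases b with _ | b
    · simp
    · simp only [mo, Nat.add_sub_cancel]; ring
  have h2 : (a : B) * mo 1 0 * mo (a - 1) b = a * mo a b := by
    rcases a with _ | a
    · simp
    · simp only [mo, Nat.add_sub_cancel]; ring
  have h3 : ((b : ℂ) - a) • mo a b = (b : B) * mo a b - (a : B) * mo a b := by
    rw [sub_smul, MvPolynomial.smul_eq_C_mul, MvPolynomial.smul_eq_C_mul]; simp
  rw [h3, ← h1, ← h2]
  simp only [Nat.sub_self, Nat.cast_one]
  ring

lemma br_xx (a : ℕ) : br (mo 2 0) (mo a (a + 2)) = ((2 * ((a : ℂ) + 2)) • mo (a + 1) (a + 1) : B) := by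
  rw [br, pd0_mo, pd1_mo, pd0_mo, pd1_mo, MvPolynomial.smul_eq_C_mul]
  have h : a + 2 - 1 = a + 1 := by omega
  have hc : (C (2 * ((a : ℂ) + 2)) : B) = 2 * ((a : B) + 2) := by
    rw [show (2 : ℂ) * ((a : ℂ) + 2) = ((2 * (a + 2) : ℕ) : ℂ) by push_cast; ring, map_natCast]
    push_cast
    ring
  rw [h, hc]
  simp only [mo]
  push_cast
  ring

lemma mo_mem_SA (a b : ℕ) (h : 2 ≤ a + b) : (⟨mo a b, mo_mem h⟩ : A) ∈ SA := by
  by_cases hab : a = b
  · subst hab
    obtain ⟨c, rfl⟩ : ∃ c, a = c + 1 := ⟨a - 1, by omega⟩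
    have h2 : (⟨mo (c + 1) (c + 1), mo_mem h⟩ : A) =
        (2 * ((c : ℂ) + 2))⁻¹ • brA ⟨mo 2 0, mo_mem (by omega)⟩ ⟨mo c (c + 2), mo_mem (by omega)⟩ := by
      apply Subtype.ext
      show mo (c + 1) (c + 1) = (2 * ((c : ℂ) + 2))⁻¹ • br (mo 2 0) (mo c (c + 2))
      have hne : (2 * ((c : ℂ) + 2)) ≠ 0 := by
        have : ((c : ℂ) + 2) = ((c + 2 : ℕ) : ℂ) := by push_cast; ring
        rw [this]
        exact mul_ne_zero two_ne_zero (Nat.cast_ne_zero.2 (by omega))
      rw [br_xx, smul_smul, inv_mul_cancel₀ hne, one_smul]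
    rw [h2]
    exact SA.smul_mem _ (Submodule.subset_span ⟨_, _, rfl⟩)
  · have h2 : (⟨mo a b, mo_mem h⟩ : A) =
        ((b : ℂ) - a)⁻¹ • brA ⟨mo 1 1, mo_mem (by omega)⟩ ⟨mo a b, mo_mem h⟩ := by
      apply Subtype.ext
      show mo a b = ((b : ℂ) - a)⁻¹ • br (mo 1 1) (mo a b)
      have hne : ((b : ℂ) - a) ≠ 0 := by
        intro h0
        apply hab
        have := sub_eq_zero.1 h0
        exact_mod_cast this.symm
      rw [br_xy, smul_smul, inv_mul_cancel₀ hne, one_smul]
    rw [h2]
    exact SA.smul_mem _ (Submodule.subset_span ⟨_, _, rfl⟩)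

lemma monomial_eq_mo (s : Fin 2 →₀ ℕ) (c : ℂ) :
    (monomial s c : B) = c • mo (s 0) (s 1) := by
  rw [MvPolynomial.monomial_eq, MvPolynomial.smul_eq_C_mul, mo, Finsupp.prod_fintype _ _ (by simp)]
  simp [Fin.prod_univ_two]

lemma constantCoeff_mo (a b : ℕ) (h : a + b ≠ 0) : constantCoeff (mo a b) = 0 := by
  simp only [mo, map_mul, map_pow, constantCoeff_X]
  rcases a with _ | a
  · rcases b with _ | b
    · simp at h
    · simp
  · simp

/-- the coefficient functional picking the linear coefficient -/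
lemma lin_eq_coeff (i : Fin 2) (f : B) : lin i f = coeff (Finsupp.single i 1) f := by
  induction f using MvPolynomial.induction_on' with
  | monomial s c =>
    rw [coeff_monomial]
    by_cases hs : s = Finsupp.single i 1
    · subst hs
      simp [lin, pderiv_monomial]
    · rw [if_neg hs]
      simp only [lin, pderiv_monomial]
      rw [constantCoeff_monomial]
      split_ifs with h0
      · have h1 : s i = 0 ∨ s i ≠ 0 := em _
        rcases h1 with h1 | h1
        · simp [h1]
        · exfalso
          apply hs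
          have h3 := tsub_eq_zero_iff_le.1 h0
          ext j
          have h4 := h3 j
          by_cases hj : j = i
          · subst hj
            simp at h4 ⊢
            omega
          · simp [Finsupp.single_apply, Ne.symm hj] at h4 ⊢
            exact h4
      · rfl
  | add p q hp hq => rw [lin_add, hp, hq, coeff_add]

lemma ker_le (f : A) (hf : cc f = 0) : f ∈ SA := by
  have hsum : (f : B) = ∑ s ∈ (f : B).support, coeff s (f : B) • mo (s 0) (s 1) := by
    conv_lhs => rw [(f : B).as_sum]
    exact Finset.sum_congr rfl fun s _ => monomial_eq_mo s _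
  have hs : ∀ s ∈ (f : B).support, 2 ≤ s 0 + s 1 := by
    intro s hs
    by_contra hcon
    push Not at hcon
    have h0 : coeff s (f : B) ≠ 0 := mem_support_iff.1 hs
    apply h0
    have hcase : s = 0 ∨ s = Finsupp.single 0 1 ∨ s = Finsupp.single 1 1 := by
      rcases Nat.eq_zero_or_pos (s 0) with h1 | h1
      · rcases Nat.eq_zero_or_pos (s 1) with h2 | h2
        · left; ext j; fin_cases j <;> simp [h1, h2]
        · right; right; ext j; fin_cases j
          · simp [h1]
          · have : s 1 = 1 := by omega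
            simp [this]
      · right; left; ext j; fin_cases j
        · have : s 0 = 1 := by omega
          simp [this]
        · have : s 1 = 0 := by omega
          simp [this]
    rcases hcase with rfl | rfl | rfl
    · exact hf
    · rw [← lin_eq_coeff]; exact f.2 0
    · rw [← lin_eq_coeff]; exact f.2 1
  have : f = ∑ s ∈ (f : B).support.attach,
      coeff s.1 (f : B) • (⟨mo (s.1 0) (s.1 1), mo_mem (hs s.1 s.2)⟩ : A) := by
    apply Subtype.ext
    rw [AddSubmonoidClass.coe_finsetSum]
    conv_lhs => rw [hsum, ← Finset.sum_attach]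
    rfl
  rw [this]
  exact SA.sum_mem fun s _ => SA.smul_mem _ (mo_mem_SA _ _ (hs s.1 s.2))

lemma SA_eq : SA = LinearMap.ker cc := by
  apply le_antisymm
  · rw [SA, Submodule.span_le]
    rintro _ ⟨f, g, rfl⟩
    exact br_const f.2
  · intro f hf
    exact ker_le f hf

/-- `HP₀(A) = A / {A, A}` is one-dimensional -/
lemma finrank_HP : Module.finrank ℂ (A ⧸ SA) = 1 := by
  rw [SA_eq]
  have hsurj : Function.Surjective cc := by
    intro c
    exact ⟨algebraMap ℂ A c, by simp [cc, MvPolynomial.algebraMap_eq]⟩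
  rw [(cc.quotKerEquivOfSurjective hsurj).finrank_eq, Module.finrank_self]

/-- the Hamiltonian derivation `{f, ·}` -/
noncomputable def hamD (f : B) : Derivation ℂ B B :=
  pderiv 0 f • (pderiv 1 : Derivation ℂ B B) - pderiv 1 f • (pderiv 0 : Derivation ℂ B B)

lemma hamD_apply (f g : B) : hamD f g = br f g := by simp [hamD, br]

/-- `f ↦ {f, ·}` as a derivation -/
noncomputable def hamDer : Derivation ℂ B (Derivation ℂ B B) where
  toFun f := hamD f
  map_add' f g := by
    apply Derivation.ext
    intro h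
    simp only [hamD_apply, Derivation.coe_add, Pi.add_apply]
    exact br_isPoisson.add_left f g h
  map_smul' c f := by
    apply Derivation.ext
    intro h
    simp only [hamD_apply, Derivation.coe_smul, Pi.smul_apply, RingHom.id_apply]
    exact br_isPoisson.smul_left c f h
  map_one_eq_zero' := by
    apply Derivation.ext
    intro h
    show hamD 1 h = (0 : Derivation ℂ B B) h
    rw [hamD_apply]
    simp [br]
  leibniz' f g := by
    apply Derivation.ext
    intro h
    show hamD (f * g) h = (f • hamD g + g • hamD f : Derivation ℂ B B) h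
    simp only [hamD_apply, Derivation.coe_add, Derivation.coe_smul, Pi.add_apply, Pi.smul_apply,
      smul_eq_mul]
    simp only [br, Derivation.leibniz, smul_eq_mul]
    ring

/-- the map `Ω → Der` given by the Poisson bivector -/
noncomputable def sharp : Ω[B⁄ℂ] →ₗ[B] Derivation ℂ B B := hamDer.liftKaehlerDifferential

lemma sharp_D (f g : B) : sharp (KaehlerDifferential.D ℂ B f) g = br f g := by
  rw [sharp, Derivation.liftKaehlerDifferential_comp_D]
  exact hamD_apply f g

lemma omega_decomp (w : Ω[B⁄ℂ]) : ∃ a b : B,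
    w = a • KaehlerDifferential.D ℂ B (X 0) + b • KaehlerDifferential.D ℂ B (X 1) := by
  have h := (KaehlerDifferential.mvPolynomialBasis ℂ (Fin 2)).sum_repr w
  rw [Fin.sum_univ_two] at h
  simp only [KaehlerDifferential.mvPolynomialBasis_apply] at h
  exact ⟨_, _, h.symm⟩

lemma sharp_bijective : Function.Bijective sharp := by
  constructor
  · rw [injective_iff_map_eq_zero]
    intro w hw
    obtain ⟨a, b, rfl⟩ := omega_decomp w
    have h1 := congrArg (fun D : Derivation ℂ B B => D (X 1)) hw
    have h2 := congrArg (fun D : Derivation ℂ B B => D (X 0)) hw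
    simp only [map_add, map_smul, Derivation.coe_add, Derivation.coe_smul, Pi.add_apply,
      Pi.smul_apply, sharp_D, Derivation.coe_zero, Pi.zero_apply, br, smul_eq_mul] at h1 h2
    simp at h1 h2
    rw [h1, h2]
    simp
  · intro D
    refine ⟨D (X 1) • KaehlerDifferential.D ℂ B (X 0) -
      D (X 0) • KaehlerDifferential.D ℂ B (X 1), ?_⟩
    apply MvPolynomial.derivation_ext
    intro i
    simp only [map_sub, map_smul, Derivation.coe_sub, Derivation.coe_smul, Pi.sub_apply,
      Pi.smul_apply, sharp_D, br, smul_eq_mul]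
    fin_cases i <;> simp

/-- partial derivatives of polynomials are surjective -/
lemma pderiv_surj (f : B) : ∃ g : B, pderiv 0 g = f := by
  induction f using MvPolynomial.induction_on' with
  | monomial s c =>
    refine ⟨(c / (s 0 + 1)) • mo (s 0 + 1) (s 1), ?_⟩
    rw [Derivation.map_smul, pd0_mo, monomial_eq_mo, Nat.add_sub_cancel]
    have hne : ((s 0 : ℂ) + 1) ≠ 0 := by exact_mod_cast Nat.succ_ne_zero (s 0)
    have : (((s 0 + 1 : ℕ) : B)) * mo (s 0) (s 1) = ((s 0 : ℂ) + 1) • mo (s 0) (s 1) := by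
      rw [MvPolynomial.smul_eq_C_mul]; simp
    rw [this, smul_smul, div_mul_cancel₀ _ hne]
  | add p q hp hq =>
    obtain ⟨g, hg⟩ := hp
    obtain ⟨h, hh⟩ := hq
    exact ⟨g + h, by rw [map_add, hg, hh]⟩

end Pool.Agent.H882R3.Poi
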