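import Pool.Agent.H882R3.PoiRes

set_option autoImplicit false

/-!
# Deformation quantizations of `ℂ[x, y]`
-/

namespace Pool.Agent.H882R3.Poi

open MvPolynomial

/-- the formal parameter `ħ` -/
noncomputable def hb : PowerSeries ℂ := PowerSeries.X

/-- `Q` (with the projection `π`) is a deformation quantization of the Poisson algebra `(B, br)`:
a flat, `ħ`-adically complete `ℂ[[ħ]]`-algebra with `Q / ħ Q = B` and `[a, b] = ħ {a, b}` modulo
`ħ²`. -/
structure IsQuantization (B : Type) [CommRing B] [Algebra ℂ B] (br : B → B → B)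
    (Q : Type) [Ring Q] [Algebra (PowerSeries ℂ) Q] (π : Q →+* B) : Prop where
  surj : Function.Surjective π
  ker : ∀ q : Q, π q = 0 ↔ ∃ r : Q, q = hb • r
  lin : ∀ (c : ℂ) (q : Q), π (PowerSeries.C c • q) = c • π q
  flat : ∀ q : Q, hb • q = 0 → q = 0
  complete : IsAdicComplete (Ideal.span {hb}) Q
  bracket : ∀ a b : Q, ∃ c : Q, a * b - b * a = hb • c ∧ π c = br (π a) (π b)

variable {Q : Type} [Ring Q] [Algebra (PowerSeries ℂ) Q]

lemma mem_pow_smul (n : ℕ) (q : Q) :
    q ∈ ((Ideal.span {hb}) ^ n • ⊤ : Submodule (PowerSeries ℂ) Q) ↔ ∃ r : Q, q = hb ^ n • r := by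
  rw [Ideal.span_singleton_pow, Submodule.ideal_span_singleton_smul,
    Submodule.mem_smul_pointwise_iff_exists]
  constructor
  · rintro ⟨r, -, h⟩; exact ⟨r, h.symm⟩
  · rintro ⟨r, h⟩; exact ⟨r, trivial, h.symm⟩

/-- `ħ`-adic summation -/
lemma exists_sum (hc : IsAdicComplete (Ideal.span {hb}) Q) (b : ℕ → Q) :
    ∃ s : Q, ∀ n, ∃ r : Q, (∑ i ∈ Finset.range n, hb ^ i • b i) - s = hb ^ n • r := by
  obtain ⟨s, hs⟩ := hc.toIsPrecomplete.prec (f := fun n => ∑ i ∈ Finset.range n, hb ^ i • b i) (by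
    intro m n hmn
    rw [SModEq.sub_mem, mem_pow_smul]
    obtain ⟨k, rfl⟩ := Nat.exists_eq_add_of_le hmn
    refine ⟨- ∑ i ∈ Finset.range k, hb ^ i • b (m + i), ?_⟩
    rw [Finset.sum_range_add, sub_add_cancel_left, smul_neg, Finset.smul_sum]
    congr 1
    refine Finset.sum_congr rfl fun i _ => ?_
    rw [smul_smul, pow_add])
  refine ⟨s, fun n => ?_⟩
  have h := hs n
  rw [SModEq.sub_mem, mem_pow_smul] at h
  exact h

/-- in a quantization of `ℂ[x, y]`, every element of `ħ Q` is a commutator -/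
theorem exists_commutator {π : Q →+* B} (hQ : IsQuantization B br Q π) (a : Q) :
    ∃ u v : Q, u * v - v * u = hb • a := by
  obtain ⟨u, hu⟩ := hQ.surj (X 1)
  have step : ∀ a : Q, ∃ v a' : Q, hb • a = (u * v - v * u) + hb ^ 2 • a' := by
    intro a
    obtain ⟨g, hg⟩ := pderiv_surj (- π a)
    obtain ⟨v, hv⟩ := hQ.surj g
    obtain ⟨c, hc1, hc2⟩ := hQ.bracket u v
    have h3 : π (a - c) = 0 := by
      rw [map_sub, hc2, hu, hv]
      have : br (X 1) g = π a := by
        simp [br, hg]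
      rw [this, sub_self]
    obtain ⟨a', ha'⟩ := (hQ.ker _).1 h3
    refine ⟨v, a', ?_⟩
    rw [hc1, pow_two, mul_smul, ← ha']
    rw [smul_sub]
    abel
  choose V N hVN using step
  let s : ℕ → Q := fun n => Nat.rec a (fun _ x => N x) n
  have hs0 : s 0 = a := rfl
  have hs1 : ∀ n, s (n + 1) = N (s n) := fun n => rfl
  obtain ⟨v, hv⟩ := exists_sum hQ.complete (fun n => V (s n))
  refine ⟨u, v, ?_⟩
  have hpart : ∀ n, hb • a = (u * (∑ i ∈ Finset.range n, hb ^ i • V (s i)) -
      (∑ i ∈ Finset.range n, hb ^ i • V (s i)) * u) + hb ^ (n + 1) • s n := by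
    intro n
    induction n with
    | zero => simp [hs0]
    | succ n ih =>
      rw [ih, Finset.sum_range_succ, mul_add, add_mul, hs1]
      have h := hVN (s n)
      have h2 : hb ^ (n + 1) • s n = hb ^ n • (u * V (s n) - V (s n) * u) +
          hb ^ (n + 1 + 1) • N (s n) := by
        rw [pow_succ, mul_smul, h, smul_add, smul_smul]
        congr 2
        ring
      rw [h2, smul_sub, mul_smul_comm, smul_mul_assoc]
      abel
  have hzero : ∀ n, ∃ r : Q, (u * v - v * u) - hb • a = hb ^ n • r := by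
    intro n
    obtain ⟨r, hr⟩ := hv n
    have h1 := hpart n
    have h2 : (∑ i ∈ Finset.range n, hb ^ i • V (s i)) = v + hb ^ n • r := by
      rw [← hr]; abel
    rw [h2] at h1
    refine ⟨-(u * r - r * u) - hb • s n, ?_⟩
    rw [h1, mul_add, add_mul, mul_smul_comm, smul_mul_assoc, smul_sub, smul_neg, smul_sub,
      smul_smul, ← pow_succ]
    abel
  have := hQ.complete.toIsHausdorff.haus ((u * v - v * u) - hb • a) (by
    intro n
    rw [SModEq.zero, mem_pow_smul]
    exact hzero n)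
  exact sub_eq_zero.1 this

/-- `L` is the `ℂ((ħ))`-algebra `Q[ħ⁻¹]` -/
structure IsInvert (Q : Type) [Ring Q] [Algebra (PowerSeries ℂ) Q] (L : Type) [Ring L]
    [Algebra (LaurentSeries ℂ) L] (j : Q →+* L) : Prop where
  smul : ∀ (f : PowerSeries ℂ) (q : Q), j (f • q) = (f : LaurentSeries ℂ) • j q
  surj : ∀ l : L, ∃ (n : ℕ) (q : Q), ((hb : PowerSeries ℂ) : LaurentSeries ℂ) ^ n • l = j q
  inj : Function.Injective j

lemma commutator_of_smul {K L : Type} [Field K] [Ring L] [Algebra K L] {c : K} (hc : c ≠ 0)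
    {x y l : L} (h : x * y - y * x = c • l) : ∃ u v : L, u * v - v * u = l := by
  refine ⟨c⁻¹ • x, y, ?_⟩
  rw [smul_mul_assoc, mul_smul_comm, ← smul_sub, h, smul_smul, inv_mul_cancel₀ hc, one_smul]

theorem HH0_eq_zero {π : Q →+* B} (hQ : IsQuantization B br Q π) {L : Type} [Ring L]
    [Algebra (LaurentSeries ℂ) L] {j : Q →+* L} (hL : IsInvert Q L j) (l : L) :
    ∃ u v : L, u * v - v * u = l := by
  obtain ⟨n, q, h⟩ := hL.surj l
  obtain ⟨u, v, huv⟩ := exists_commutator hQ q
  set H : LaurentSeries ℂ := ((hb : PowerSeries ℂ) : LaurentSeries ℂ) with hH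
  have hH0 : H ≠ 0 := by
    intro h0
    have : (hb : PowerSeries ℂ) = 0 := by
      apply HahnSeries.ofPowerSeries_injective (Γ := ℤ)
      rw [map_zero]
      exact h0
    exact PowerSeries.X_ne_zero this
  have h1 := congrArg j huv
  rw [map_sub, map_mul, map_mul, hL.smul, ← h, smul_smul, ← hH, ← pow_succ'] at h1
  exact commutator_of_smul (pow_ne_zero _ hH0) h1

end Pool.Agent.H882R3.Poi
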