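import Pool.Agent.H882R3.PoiHP

set_option autoImplicit false

/-!
# The plane as a symplectic resolution of `Spec (ℂ + 𝔪²)`
-/

namespace Pool.Agent.H882R3.Poi

open MvPolynomial AlgebraicGeometry

/-- The morphism `Spec B → Spec A` is a symplectic resolution of the irreducible affine Poisson
variety `Spec A`, with affine source. -/
structure SympRes (A B : Type) [CommRing A] [CommRing B] [Algebra ℂ A] [Algebra ℂ B] [Algebra A B]
    [IsScalarTower ℂ A B] (brA : A → A → A) (brB : B → B → B) : Prop where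
  /-- `Spec A` is an irreducible (reduced) affine variety of finite type over `ℂ` -/
  domA : IsDomain A
  fgA : Algebra.FiniteType ℂ A
  /-- `A` is a Poisson algebra -/
  poissonA : IsPoisson A brA
  /-- `Spec B` is an irreducible smooth affine variety -/
  domB : IsDomain B
  smoothB : Algebra.Smooth ℂ B
  /-- the bracket of `B` is a Poisson bracket, given by a nondegenerate bivector (`df ↦ {f, ·}`
  is an isomorphism from differentials to derivations), i.e. by a symplectic form -/
  poissonB : IsPoisson B brB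
  symplectic : ∃ σ : Ω[B⁄ℂ] ≃ₗ[B] Derivation ℂ B B,
    ∀ f g : B, σ (KaehlerDifferential.D ℂ B f) g = brB f g
  /-- the morphism is proper -/
  proper : IsProper (Spec.map (CommRingCat.ofHom (algebraMap A B)))
  /-- the morphism is birational: `A` is a subring of `B` with the same fraction field -/
  injective : Function.Injective (algebraMap A B)
  birational : ∀ b : B, ∃ a s : A, s ≠ 0 ∧ algebraMap A B s * b = algebraMap A B a
  /-- the morphism is Poisson -/
  poisson : ∀ f g : A, algebraMap A B (brA f g) = brB (algebraMap A B f) (algebraMap A B g)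

/-- the span of the brackets; `HP₀ = A / {A, A}` -/
def brSpan (A : Type) [CommRing A] [Algebra ℂ A] (br : A → A → A) : Submodule ℂ A :=
  Submodule.span ℂ {h | ∃ f g : A, h = br f g}

/-- exact algebraic 2-forms on `Spec B`: the differentials `d(∑ a db) = ∑ da ∧ db` of 1-forms -/
noncomputable def exact2 (B : Type) [CommRing B] [Algebra ℂ B] : Submodule ℂ (⋀[B]^2 Ω[B⁄ℂ]) :=
  Submodule.span ℂ {w | ∃ a b : B, w = exteriorPower.ιMulti B 2
    ![KaehlerDifferential.D ℂ B a, KaehlerDifferential.D ℂ B b]}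

lemma proper_B : IsProper (Spec.map (CommRingCat.ofHom (algebraMap A B))) := by
  have : IsFinite (Spec.map (CommRingCat.ofHom (algebraMap A B))) := by
    rw [IsFinite.SpecMap_iff]
    exact RingHom.finite_algebraMap.2 finite_B
  infer_instance

lemma birational_B (b : B) : ∃ a s : A, s ≠ 0 ∧ algebraMap A B s * b = algebraMap A B a := by
  have hs : (X 0 ^ 2 : B) ∈ A := by
    have := sq_mul_mem 1
    rwa [mul_one] at this
  refine ⟨⟨X 0 ^ 2 * b, sq_mul_mem b⟩, ⟨X 0 ^ 2, hs⟩, ?_, rfl⟩
  intro h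
  exact pow_ne_zero 2 (MvPolynomial.X_ne_zero (R := ℂ) (0 : Fin 2)) (congrArg Subtype.val h)

lemma smooth_B : Algebra.Smooth ℂ B where
  formallySmooth := inferInstance
  finitePresentation := inferInstance

theorem sympRes : SympRes A B brA br where
  domA := inferInstance
  fgA := ⟨fg_A⟩
  poissonA := brA_isPoisson
  domB := inferInstance
  smoothB := smooth_B
  poissonB := br_isPoisson
  symplectic := ⟨LinearEquiv.ofBijective sharp sharp_bijective, sharp_D⟩
  proper := proper_B
  injective := Subtype.val_injective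
  birational := birational_B
  poisson := fun _ _ => rfl

theorem finrank_brSpan : Module.finrank ℂ (A ⧸ brSpan A brA) = 1 := finrank_HP

lemma two_form (w : ⋀[B]^2 Ω[B⁄ℂ]) : ∃ f : B, w = f • exteriorPower.ιMulti B 2
    ![KaehlerDifferential.D ℂ B (X 0), KaehlerDifferential.D ℂ B (X 1)] := by
  have hw : w ∈ (⊤ : Submodule B (⋀[B]^2 Ω[B⁄ℂ])) := trivial
  rw [← exteriorPower.ιMulti_span B 2 (Ω[B⁄ℂ])] at hw
  induction hw using Submodule.span_induction with
  | mem w h =>
    obtain ⟨v, rfl⟩ := h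
    obtain ⟨a, b, h0⟩ := omega_decomp (v 0)
    obtain ⟨c, d, h1⟩ := omega_decomp (v 1)
    have hv : v = ![v 0, v 1] := by
      ext i; fin_cases i <;> rfl
    refine ⟨a * d - b * c, ?_⟩
    rw [hv, h0, h1]
    set φ := exteriorPower.ιMulti B 2 (M := Ω[B⁄ℂ]) with hφ
    set x := KaehlerDifferential.D ℂ B (X 0)
    set y := KaehlerDifferential.D ℂ B (X 1)
    have hadd0 : ∀ u u' t : Ω[B⁄ℂ], φ ![u + u', t] = φ ![u, t] + φ ![u', t] :=
      fun u u' t => φ.map_vecCons_add ![t] u u'
    have hsm0 : ∀ (r : B) (u t : Ω[B⁄ℂ]), φ ![r • u, t] = r • φ ![u, t] :=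
      fun r u t => φ.map_vecCons_smul ![t] r u
    have hzero : ∀ u : Ω[B⁄ℂ], φ ![u, u] = 0 := by
      intro u
      exact φ.map_eq_zero_of_eq ![u, u] (i := 0) (j := 1) rfl (by decide)
    have hsw : ∀ u t : Ω[B⁄ℂ], φ ![u, t] = - φ ![t, u] := by
      intro u t
      have h := φ.map_swap ![t, u] (i := 0) (j := 1) (by decide)
      rw [← h]
      congr 1
      ext i
      fin_cases i <;> rfl
    have hadd1 : ∀ u t t' : Ω[B⁄ℂ], φ ![u, t + t'] = φ ![u, t] + φ ![u, t'] := by
      intro u t t'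
      rw [hsw, hadd0, hsw t, hsw t']
      abel
    have hsm1 : ∀ (r : B) (u t : Ω[B⁄ℂ]), φ ![u, r • t] = r • φ ![u, t] := by
      intro r u t
      rw [hsw, hsm0, hsw t, smul_neg, neg_neg]
    have hswap : φ ![y, x] = - φ ![x, y] := hsw y x
    rw [hadd0, hadd1, hadd1, hsm0, hsm0, hsm0, hsm0, hsm1, hsm1, hsm1, hsm1, hzero, hzero, hswap]
    module
  | zero => exact ⟨0, by simp⟩
  | add u v _ _ hu hv =>
    obtain ⟨f, hf⟩ := hu
    obtain ⟨g, hg⟩ := hv
    exact ⟨f + g, by rw [hf, hg, add_smul]⟩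
  | smul r u _ hu =>
    obtain ⟨f, hf⟩ := hu
    exact ⟨r * f, by rw [hf, mul_smul]⟩

lemma wedge_eq (f g : B) (hg : pderiv 0 g = f) :
    f • exteriorPower.ιMulti B 2
      ![KaehlerDifferential.D ℂ B (X 0), KaehlerDifferential.D ℂ B (X 1)] =
    exteriorPower.ιMulti B 2 ![KaehlerDifferential.D ℂ B g, KaehlerDifferential.D ℂ B (X 1)] := by
  have hD : KaehlerDifferential.D ℂ B g = pderiv 0 g • KaehlerDifferential.D ℂ B (X 0) +
      pderiv 1 g • KaehlerDifferential.D ℂ B (X 1) := by
    have h1 := (KaehlerDifferential.mvPolynomialBasis ℂ (Fin 2)).sum_repr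
      (KaehlerDifferential.D ℂ B g)
    rw [Fin.sum_univ_two] at h1
    rw [KaehlerDifferential.mvPolynomialBasis_repr_apply,
      KaehlerDifferential.mvPolynomialBasis_repr_apply,
      KaehlerDifferential.mvPolynomialBasis_apply,
      KaehlerDifferential.mvPolynomialBasis_apply] at h1
    exact h1.symm
  rw [hD, hg]
  set φ := exteriorPower.ιMulti B 2 (M := Ω[B⁄ℂ]) with hφ
  set x := KaehlerDifferential.D ℂ B (X 0)
  set y := KaehlerDifferential.D ℂ B (X 1)
  have hadd0 : ∀ u u' t : Ω[B⁄ℂ], φ ![u + u', t] = φ ![u, t] + φ ![u', t] :=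
    fun u u' t => φ.map_vecCons_add ![t] u u'
  have hsm0 : ∀ (r : B) (u t : Ω[B⁄ℂ]), φ ![r • u, t] = r • φ ![u, t] :=
    fun r u t => φ.map_vecCons_smul ![t] r u
  have hzero : φ ![y, y] = 0 := φ.map_eq_zero_of_eq ![y, y] (i := 0) (j := 1) rfl (by decide)
  rw [hadd0, hsm0, hsm0, hzero, smul_zero, add_zero]

theorem exact2_B : exact2 B = ⊤ := by
  rw [eq_top_iff]
  rintro w -
  obtain ⟨f, rfl⟩ := two_form w
  obtain ⟨g, hg⟩ := pderiv_surj f
  apply Submodule.subset_span
  exact ⟨g, X 1, wedge_eq f g hg⟩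

theorem finrank_H2 : Module.finrank ℂ ((⋀[B]^2 Ω[B⁄ℂ]) ⧸ exact2 B) = 0 := by
  rw [exact2_B]
  exact Module.finrank_zero_of_subsingleton

end Pool.Agent.H882R3.Poi
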