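import Pool.Agent.H882R3.PoiQuant

set_option autoImplicit false

/-!
# Statements: symplectic resolutions, `HP₀`, and the plane over `Spec (ℂ + 𝔪²)`
-/

namespace Pool.Agent.H882R3.PoiS

open AlgebraicGeometry Pool.Agent.H882R3.Poi

/-- `Spec A` is an irreducible (reduced) affine Poisson variety. -/
structure IsAffinePoisson (A : Type) [CommRing A] [Algebra ℂ A] (br : A → A → A) : Prop where
  dom : IsDomain A
  fg : Algebra.FiniteType ℂ A
  poisson : IsPoisson A br

/-- the Poisson bracket `br` is given by a nondegenerate bivector, that is by a symplectic form: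
`df ↦ {f, ·}` extends to an isomorphism from differentials to derivations -/
def IsNondegenerate (B : Type) [CommRing B] [Algebra ℂ B] (br : B → B → B) : Prop :=
  ∃ σ : Ω[B⁄ℂ] ≃ₗ[B] Derivation ℂ B B, ∀ f g : B, σ (KaehlerDifferential.D ℂ B f) g = br f g

/-- `Spec B` is an irreducible smooth affine symplectic variety. -/
structure IsSymplectic (B : Type) [CommRing B] [Algebra ℂ B] (br : B → B → B) : Prop where
  dom : IsDomain B
  smooth : Algebra.Smooth ℂ B
  poisson : IsPoisson B br
  nondegenerate : IsNondegenerate B br

/-- the morphism `Spec B → Spec A` given by `i : A → B` is proper -/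
def IsProperMap {A B : Type} [CommRing A] [CommRing B] (i : A →+* B) : Prop :=
  IsProper (Spec.map (CommRingCat.ofHom i))

/-- the morphism `Spec B → Spec A` given by `i : A → B` is proper, birational (`A` is a subring of
`B` with the same fraction field) and Poisson -/
structure IsResolution {A B : Type} [CommRing A] [CommRing B] (brA : A → A → A)
    (brB : B → B → B) (i : A →+* B) : Prop where
  proper : IsProperMap i
  injective : Function.Injective i
  birational : ∀ b : B, ∃ a s : A, s ≠ 0 ∧ i s * b = i a
  poisson : ∀ f g : A, i (brA f g) = brB (i f) (i g)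

/-- the dimension of `HP₀(A) = A / {A, A}` (`0` if it is infinite-dimensional) -/
noncomputable def dimHP0 (A : Type) [CommRing A] [Algebra ℂ A] (br : A → A → A) : ℕ :=
  Module.finrank ℂ (A ⧸ brSpan A br)

/-- `v ∧ w` in the second exterior power of `M` -/
noncomputable def wedge {R M : Type} [CommRing R] [AddCommGroup M] [Module R M] (v w : M) :
    ⋀[R]^2 M := exteriorPower.ιMulti R 2 ![v, w]

/-- `W` spans (additively) the second exterior power -/
def GenWedge (R M : Type) [CommRing R] [AddCommGroup M] [Module R M] (W : Set (M × M)) : Prop :=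
  ∀ z : ⋀[R]^2 M, z ∈ AddSubgroup.closure ((fun p : M × M => wedge (R := R) p.1 p.2) '' W)

/-- every algebraic 2-form on `Spec B` is exact: it is a sum of forms `da ∧ db = d(a db)` -/
def TwoFormsExact (B : Type) [CommRing B] [Algebra ℂ B] : Prop :=
  GenWedge B Ω[B⁄ℂ]
    {p | ∃ a b : B, p = (KaehlerDifferential.D ℂ B a, KaehlerDifferential.D ℂ B b)}

/-- the coordinate ring `ℂ[x, y]` of the plane -/
def Plane : Type := MvPolynomial (Fin 2) ℂ

noncomputable instance : CommRing Plane := (inferInstance : CommRing (MvPolynomial (Fin 2) ℂ))

noncomputable instance : Algebra ℂ Plane := (inferInstance : Algebra ℂ (MvPolynomial (Fin 2) ℂ))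

/-- partial derivatives: `i = 0` with respect to `x`, `i = 1` with respect to `y` -/
noncomputable def pd (i : Fin 2) : Plane → Plane := fun f => MvPolynomial.pderiv i f

/-- the value at the origin -/
noncomputable def val0 : Plane → ℂ := fun f => MvPolynomial.constantCoeff f

/-- the standard bracket `{f, g} = f_x g_y - f_y g_x` -/
noncomputable def brP (f g : Plane) : Plane := pd 0 f * pd 1 g - pd 1 f * pd 0 g

/-- the polynomials whose partial derivatives vanish at the origin: `ℂ + 𝔪²` -/
noncomputable def X : Subalgebra ℂ Plane where
  carrier := {f | ∀ i, val0 (pd i f) = 0}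
  mul_mem' := fun {f g} hf hg => A.mul_mem' (a := f) (b := g) hf hg
  add_mem' := fun {f g} hf hg => A.add_mem' (a := f) (b := g) hf hg
  algebraMap_mem' := fun c => A.algebraMap_mem' c

/-- the ring `ℂ + 𝔪²` -/
def XRing : Type := X

noncomputable instance : CommRing XRing := (inferInstance : CommRing X)

noncomputable instance : Algebra ℂ XRing := (inferInstance : Algebra ℂ X)

/-- the inclusion of `ℂ + 𝔪²` in `ℂ[x, y]` -/
noncomputable def incl : XRing →+* Plane := X.val.toRingHom

lemma brP_mem (f g : XRing) : brP (incl f) (incl g) ∈ X := br_mem (f := incl f) (g := incl g) f.2 g.2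

/-- the bracket of `ℂ + 𝔪²` -/
noncomputable def brX (f g : XRing) : XRing := ⟨brP (incl f) (incl g), brP_mem f g⟩

theorem isAffinePoisson : IsAffinePoisson XRing brX where
  dom := sympRes.domA
  fg := sympRes.fgA
  poisson := sympRes.poissonA

theorem isSymplectic : IsSymplectic Plane brP where
  dom := sympRes.domB
  smooth := sympRes.smoothB
  poisson := sympRes.poissonB
  nondegenerate := sympRes.symplectic

theorem isResolution : IsResolution brX brP incl where
  proper := sympRes.proper
  injective := sympRes.injective
  birational := sympRes.birational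
  poisson := sympRes.poisson

theorem dimHP0_eq : dimHP0 XRing brX = 1 := finrank_brSpan

theorem twoFormsExact : TwoFormsExact Plane := by
  have key : TwoFormsExact B := by
    intro z
    obtain ⟨f, rfl⟩ := two_form z
    obtain ⟨g, hg⟩ := pderiv_surj f
    apply AddSubgroup.subset_closure
    refine ⟨(KaehlerDifferential.D ℂ B g, KaehlerDifferential.D ℂ B (MvPolynomial.X 1)),
      ⟨g, MvPolynomial.X 1, rfl⟩, ?_⟩
    exact (wedge_eq f g hg).symm
  exact key

end Pool.Agent.H882R3.PoiS
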