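import Pool.Agent.H882R3.TNDefs

/-!
Three-by-three block matrices, Cayley transforms, and the key limit: the block anti-triangular
form `[[0,0,1],[0,N,r],[L,l,c]]` (`L` orthogonal, `N` a limit of forms congruent to orthogonal
ones) is a limit of forms congruent to orthogonal ones.
-/

set_option autoImplicit false
open Matrix Filter Topology

namespace Pool.Agent.H882R3.TN

section B3
variable {α β γ α' β' γ' α'' β'' γ'' : Type} {R : Type}

/-- three by three block matrix -/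
def B3 (a11 : Matrix α α' R) (a12 : Matrix α β' R) (a13 : Matrix α γ' R)
    (a21 : Matrix β α' R) (a22 : Matrix β β' R) (a23 : Matrix β γ' R)
    (a31 : Matrix γ α' R) (a32 : Matrix γ β' R) (a33 : Matrix γ γ' R) :
    Matrix (α ⊕ (β ⊕ γ)) (α' ⊕ (β' ⊕ γ')) R :=
  Matrix.of fun i j =>
    match i, j with
    | Sum.inl i, Sum.inl j => a11 i j
    | Sum.inl i, Sum.inr (Sum.inl j) => a12 i j
    | Sum.inl i, Sum.inr (Sum.inr j) => a13 i j
    | Sum.inr (Sum.inl i), Sum.inl j => a21 i j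
    | Sum.inr (Sum.inl i), Sum.inr (Sum.inl j) => a22 i j
    | Sum.inr (Sum.inl i), Sum.inr (Sum.inr j) => a23 i j
    | Sum.inr (Sum.inr i), Sum.inl j => a31 i j
    | Sum.inr (Sum.inr i), Sum.inr (Sum.inl j) => a32 i j
    | Sum.inr (Sum.inr i), Sum.inr (Sum.inr j) => a33 i j

theorem B3_ext_iff {a11 b11 : Matrix α α' R} {a12 b12 : Matrix α β' R} {a13 b13 : Matrix α γ' R}
    {a21 b21 : Matrix β α' R} {a22 b22 : Matrix β β' R} {a23 b23 : Matrix β γ' R}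
    {a31 b31 : Matrix γ α' R} {a32 b32 : Matrix γ β' R} {a33 b33 : Matrix γ γ' R}
    (h11 : a11 = b11) (h12 : a12 = b12) (h13 : a13 = b13)
    (h21 : a21 = b21) (h22 : a22 = b22) (h23 : a23 = b23)
    (h31 : a31 = b31) (h32 : a32 = b32) (h33 : a33 = b33) :
    B3 a11 a12 a13 a21 a22 a23 a31 a32 a33 = B3 b11 b12 b13 b21 b22 b23 b31 b32 b33 := by
  subst h11 h12 h13 h21 h22 h23 h31 h32 h33; rfl

theorem B3_mul [Fintype α'] [Fintype β'] [Fintype γ'] [Semiring R]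
    (a11 : Matrix α α' R) (a12 : Matrix α β' R) (a13 : Matrix α γ' R)
    (a21 : Matrix β α' R) (a22 : Matrix β β' R) (a23 : Matrix β γ' R)
    (a31 : Matrix γ α' R) (a32 : Matrix γ β' R) (a33 : Matrix γ γ' R)
    (b11 : Matrix α' α'' R) (b12 : Matrix α' β'' R) (b13 : Matrix α' γ'' R)
    (b21 : Matrix β' α'' R) (b22 : Matrix β' β'' R) (b23 : Matrix β' γ'' R)
    (b31 : Matrix γ' α'' R) (b32 : Matrix γ' β'' R) (b33 : Matrix γ' γ'' R) :
    B3 a11 a12 a13 a21 a22 a23 a31 a32 a33 * B3 b11 b12 b13 b21 b22 b23 b31 b32 b33 =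
    B3 (a11 * b11 + a12 * b21 + a13 * b31) (a11 * b12 + a12 * b22 + a13 * b32)
      (a11 * b13 + a12 * b23 + a13 * b33)
      (a21 * b11 + a22 * b21 + a23 * b31) (a21 * b12 + a22 * b22 + a23 * b32)
      (a21 * b13 + a22 * b23 + a23 * b33)
      (a31 * b11 + a32 * b21 + a33 * b31) (a31 * b12 + a32 * b22 + a33 * b32)
      (a31 * b13 + a32 * b23 + a33 * b33) := by
  ext i j
  rcases i with i | i | i <;> rcases j with j | j | j <;>
    simp [B3, Matrix.mul_apply, Fintype.sum_sum_type, add_assoc]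

theorem B3_transpose
    (a11 : Matrix α α' R) (a12 : Matrix α β' R) (a13 : Matrix α γ' R)
    (a21 : Matrix β α' R) (a22 : Matrix β β' R) (a23 : Matrix β γ' R)
    (a31 : Matrix γ α' R) (a32 : Matrix γ β' R) (a33 : Matrix γ γ' R) :
    (B3 a11 a12 a13 a21 a22 a23 a31 a32 a33)ᵀ =
    B3 a11ᵀ a21ᵀ a31ᵀ a12ᵀ a22ᵀ a32ᵀ a13ᵀ a23ᵀ a33ᵀ := by
  ext i j
  rcases i with i | i | i <;> rcases j with j | j | j <;> simp [B3]

theorem B3_add [Add R]
    (a11 : Matrix α α' R) (a12 : Matrix α β' R) (a13 : Matrix α γ' R)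
    (a21 : Matrix β α' R) (a22 : Matrix β β' R) (a23 : Matrix β γ' R)
    (a31 : Matrix γ α' R) (a32 : Matrix γ β' R) (a33 : Matrix γ γ' R)
    (b11 : Matrix α α' R) (b12 : Matrix α β' R) (b13 : Matrix α γ' R)
    (b21 : Matrix β α' R) (b22 : Matrix β β' R) (b23 : Matrix β γ' R)
    (b31 : Matrix γ α' R) (b32 : Matrix γ β' R) (b33 : Matrix γ γ' R) :
    B3 a11 a12 a13 a21 a22 a23 a31 a32 a33 + B3 b11 b12 b13 b21 b22 b23 b31 b32 b33 =
    B3 (a11 + b11) (a12 + b12) (a13 + b13) (a21 + b21) (a22 + b22) (a23 + b23)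
      (a31 + b31) (a32 + b32) (a33 + b33) := by
  ext i j
  rcases i with i | i | i <;> rcases j with j | j | j <;> simp [B3]

theorem B3_sub [Sub R]
    (a11 : Matrix α α' R) (a12 : Matrix α β' R) (a13 : Matrix α γ' R)
    (a21 : Matrix β α' R) (a22 : Matrix β β' R) (a23 : Matrix β γ' R)
    (a31 : Matrix γ α' R) (a32 : Matrix γ β' R) (a33 : Matrix γ γ' R)
    (b11 : Matrix α α' R) (b12 : Matrix α β' R) (b13 : Matrix α γ' R)
    (b21 : Matrix β α' R) (b22 : Matrix β β' R) (b23 : Matrix β γ' R)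
    (b31 : Matrix γ α' R) (b32 : Matrix γ β' R) (b33 : Matrix γ γ' R) :
    B3 a11 a12 a13 a21 a22 a23 a31 a32 a33 - B3 b11 b12 b13 b21 b22 b23 b31 b32 b33 =
    B3 (a11 - b11) (a12 - b12) (a13 - b13) (a21 - b21) (a22 - b22) (a23 - b23)
      (a31 - b31) (a32 - b32) (a33 - b33) := by
  ext i j
  rcases i with i | i | i <;> rcases j with j | j | j <;> simp [B3]

theorem B3_neg [Neg R]
    (a11 : Matrix α α' R) (a12 : Matrix α β' R) (a13 : Matrix α γ' R)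
    (a21 : Matrix β α' R) (a22 : Matrix β β' R) (a23 : Matrix β γ' R)
    (a31 : Matrix γ α' R) (a32 : Matrix γ β' R) (a33 : Matrix γ γ' R) :
    -B3 a11 a12 a13 a21 a22 a23 a31 a32 a33 =
    B3 (-a11) (-a12) (-a13) (-a21) (-a22) (-a23) (-a31) (-a32) (-a33) := by
  ext i j
  rcases i with i | i | i <;> rcases j with j | j | j <;> simp [B3]

theorem B3_one [DecidableEq α] [DecidableEq β] [DecidableEq γ] [Zero R] [One R] :
    (1 : Matrix (α ⊕ (β ⊕ γ)) (α ⊕ (β ⊕ γ)) R) = B3 1 0 0 0 1 0 0 0 1 := by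
  ext i j
  rcases i with i | i | i <;> rcases j with j | j | j <;> simp [B3, Matrix.one_apply]

theorem B3_continuous {X : Type} [TopologicalSpace X]
    {a11 : X → Matrix α α' ℝ} {a12 : X → Matrix α β' ℝ} {a13 : X → Matrix α γ' ℝ}
    {a21 : X → Matrix β α' ℝ} {a22 : X → Matrix β β' ℝ} {a23 : X → Matrix β γ' ℝ}
    {a31 : X → Matrix γ α' ℝ} {a32 : X → Matrix γ β' ℝ} {a33 : X → Matrix γ γ' ℝ}
    (h11 : Continuous a11) (h12 : Continuous a12) (h13 : Continuous a13)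
    (h21 : Continuous a21) (h22 : Continuous a22) (h23 : Continuous a23)
    (h31 : Continuous a31) (h32 : Continuous a32) (h33 : Continuous a33) :
    Continuous fun x => B3 (a11 x) (a12 x) (a13 x) (a21 x) (a22 x) (a23 x) (a31 x) (a32 x)
      (a33 x) := by
  apply continuous_matrix
  intro i j
  rcases i with i | i | i <;> rcases j with j | j | j
  · exact h11.matrix_elem i j
  · exact h12.matrix_elem i j
  · exact h13.matrix_elem i j
  · exact h21.matrix_elem i j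
  · exact h22.matrix_elem i j
  · exact h23.matrix_elem i j
  · exact h31.matrix_elem i j
  · exact h32.matrix_elem i j
  · exact h33.matrix_elem i j

end B3

section cayley
variable {ι κ : Type} [Fintype ι] [DecidableEq ι] [Fintype κ] [DecidableEq κ]

theorem isUnit_one_sub_skew {K : Matrix ι ι ℝ} (hK : Kᵀ = -K) : IsUnit (1 - K).det := by
  rw [isUnit_iff_ne_zero]
  intro h0
  obtain ⟨v, hv, hv0⟩ := Matrix.exists_mulVec_eq_zero_iff.mpr h0
  apply hv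
  have h1 : K *ᵥ v = v := by
    rw [Matrix.sub_mulVec, Matrix.one_mulVec, sub_eq_zero] at hv0
    exact hv0.symm
  have h2 : v ⬝ᵥ (K *ᵥ v) = - (v ⬝ᵥ (K *ᵥ v)) := by
    calc v ⬝ᵥ (K *ᵥ v) = (v ᵥ* K) ⬝ᵥ v := by rw [Matrix.dotProduct_mulVec]
      _ = (Kᵀ *ᵥ v) ⬝ᵥ v := by rw [Matrix.mulVec_transpose]
      _ = - (v ⬝ᵥ (K *ᵥ v)) := by
        rw [hK, Matrix.neg_mulVec, neg_dotProduct, dotProduct_comm]
  rw [h1] at h2
  have h3 : v ⬝ᵥ v = 0 := by linarith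
  exact dotProduct_self_eq_zero.mp h3

theorem cayley_orth {K : Matrix ι ι ℝ} (hK : Kᵀ = -K) :
    ((1 - K)⁻¹ * (1 + K))ᵀ * ((1 - K)⁻¹ * (1 + K)) = 1 := by
  have hu : IsUnit (1 - K).det := isUnit_one_sub_skew hK
  have hK' : (-K)ᵀ = -(-K) := by rw [Matrix.transpose_neg, hK]
  have hu' : IsUnit (1 + K).det := by
    have := isUnit_one_sub_skew hK'
    rwa [sub_neg_eq_add] at this
  have e1 : ((1 - K)⁻¹ * (1 + K))ᵀ = (1 - K) * (1 + K)⁻¹ := by
    rw [Matrix.transpose_mul, Matrix.transpose_nonsing_inv, Matrix.transpose_add,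
      Matrix.transpose_sub, Matrix.transpose_one, hK]
    simp [sub_eq_add_neg]
  have hcomm : (1 - K) * (1 + K) = (1 + K) * (1 - K) := by
    simp only [Matrix.mul_add, Matrix.add_mul, Matrix.mul_sub, Matrix.sub_mul, Matrix.mul_one,
      Matrix.one_mul]; abel
  have e2 : (1 + K)⁻¹ * (1 - K)⁻¹ = (1 - K)⁻¹ * (1 + K)⁻¹ := by
    rw [← Matrix.mul_inv_rev, ← Matrix.mul_inv_rev, hcomm]
  rw [e1]
  calc (1 - K) * (1 + K)⁻¹ * ((1 - K)⁻¹ * (1 + K))
      = (1 - K) * ((1 + K)⁻¹ * (1 - K)⁻¹) * (1 + K) := by simp only [Matrix.mul_assoc]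
    _ = ((1 - K) * (1 - K)⁻¹) * ((1 + K)⁻¹ * (1 + K)) := by rw [e2]; simp only [Matrix.mul_assoc]
    _ = 1 := by
      rw [Matrix.mul_nonsing_inv _ hu, Matrix.nonsing_inv_mul _ hu', Matrix.one_mul]

/-- conjugation of a Cayley transform -/
theorem cayley_conj {K Kh D D' : Matrix ι ι ℝ} (h1 : D * D' = 1) (h2 : D' * D = 1)
    (hK : Kᵀ = -K) (hKh : Kh = D * K * D') :
    (1 - Kh)⁻¹ * (1 + Kh) = D * ((1 - K)⁻¹ * (1 + K)) * D' := by
  have hu : IsUnit (1 - K).det := isUnit_one_sub_skew hK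
  have e1 : 1 - Kh = D * (1 - K) * D' := by
    rw [hKh, Matrix.mul_sub, Matrix.sub_mul, Matrix.mul_one, h1]
  have e2 : 1 + Kh = D * (1 + K) * D' := by
    rw [hKh, Matrix.mul_add, Matrix.add_mul, Matrix.mul_one, h1]
  have e3 : (1 - Kh)⁻¹ = D * (1 - K)⁻¹ * D' := by
    rw [e1]
    apply Matrix.inv_eq_right_inv
    calc D * (1 - K) * D' * (D * (1 - K)⁻¹ * D')
        = D * ((1 - K) * ((D' * D) * (1 - K)⁻¹)) * D' := by simp only [Matrix.mul_assoc]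
      _ = D * ((1 - K) * (1 - K)⁻¹) * D' := by rw [h2, Matrix.one_mul]
      _ = 1 := by rw [Matrix.mul_nonsing_inv _ hu, Matrix.mul_one, h1]
  rw [e3, e2]
  calc D * (1 - K)⁻¹ * D' * (D * (1 + K) * D')
      = D * ((1 - K)⁻¹ * ((D' * D) * (1 + K))) * D' := by simp only [Matrix.mul_assoc]
    _ = _ := by rw [h2, Matrix.one_mul]

/-- The key limit, orthogonal middle block. -/
theorem antitriangular_orth {L : Matrix κ κ ℝ} {O : Matrix ι ι ℝ} (hL : Lᵀ * L = 1)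
    (hO : Oᵀ * O = 1) (r : Matrix ι κ ℝ) (l : Matrix κ ι ℝ) (c : Matrix κ κ ℝ) :
    B3 0 0 1 0 O r L l c ∈ closure (Ell (κ ⊕ (ι ⊕ κ))) := by
  classical
  have hL' : L * Lᵀ = 1 := mul_eq_one_comm.mp hL
  have hO' : O * Oᵀ = 1 := mul_eq_one_comm.mp hO
  -- the data
  set x : Matrix κ ι ℝ := (1 / 2 : ℝ) • (Lᵀ * l) with hx
  set z : Matrix ι κ ℝ := (1 / 2 : ℝ) • (Oᵀ * r) with hz
  set y : Matrix κ κ ℝ := (1 / 2 : ℝ) • (Lᵀ * c) - x * z with hy
  let M0 : Matrix (κ ⊕ (ι ⊕ κ)) (κ ⊕ (ι ⊕ κ)) ℝ := B3 0 0 1 0 O 0 L 0 0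
  let Kh : ℝ → Matrix (κ ⊕ (ι ⊕ κ)) (κ ⊕ (ι ⊕ κ)) ℝ := fun δ =>
    B3 0 x y (-(δ ^ 2 • xᵀ)) 0 z (-(δ ^ 4 • yᵀ)) (-(δ ^ 2 • zᵀ)) 0
  let K : ℝ → Matrix (κ ⊕ (ι ⊕ κ)) (κ ⊕ (ι ⊕ κ)) ℝ := fun δ =>
    B3 0 (δ • x) (δ ^ 2 • y) (-(δ • xᵀ)) 0 (δ • z) (-(δ ^ 2 • yᵀ)) (-(δ • zᵀ)) 0
  let D : ℝ → Matrix (κ ⊕ (ι ⊕ κ)) (κ ⊕ (ι ⊕ κ)) ℝ := fun δ =>
    B3 (δ⁻¹ • 1) 0 0 0 1 0 0 0 (δ • 1)
  let D' : ℝ → Matrix (κ ⊕ (ι ⊕ κ)) (κ ⊕ (ι ⊕ κ)) ℝ := fun δ =>
    B3 (δ • 1) 0 0 0 1 0 0 0 (δ⁻¹ • 1)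
  have hKskew : ∀ δ, (K δ)ᵀ = - K δ := by
    intro δ
    simp only [K]
    rw [B3_transpose, B3_neg]
    apply B3_ext_iff <;> simp
  have hDD' : ∀ δ : ℝ, δ ≠ 0 → D δ * D' δ = 1 := by
    intro δ hδ
    simp only [D, D']
    rw [B3_mul, B3_one]
    apply B3_ext_iff <;> simp [hδ, smul_smul]
  have hD'D : ∀ δ : ℝ, δ ≠ 0 → D' δ * D δ = 1 := fun δ hδ =>
    mul_eq_one_comm.mp (hDD' δ hδ)
  have hKh : ∀ δ : ℝ, δ ≠ 0 → Kh δ = D δ * K δ * D' δ := by
    intro δ hδ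
    simp only [D, D', K, Kh]
    rw [B3_mul, B3_mul]
    apply B3_ext_iff <;> simp [hδ, smul_smul] <;>
      first | (congr 1; field_simp; done) | (refine (one_smul ℝ _).symm.trans ?_; congr 1; field_simp; done) | skip
  have hM0orth : M0ᵀ * M0 = 1 := by
    simp only [M0]
    rw [B3_transpose, B3_mul, B3_one]
    apply B3_ext_iff <;> simp [hL, hO]
  have hM0D : ∀ δ : ℝ, M0 * D δ = D' δ * M0 := by
    intro δ
    simp only [M0, D, D']
    rw [B3_mul, B3_mul]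
    apply B3_ext_iff <;> simp
  let f : ℝ → Matrix (κ ⊕ (ι ⊕ κ)) (κ ⊕ (ι ⊕ κ)) ℝ := fun δ =>
    M0 * ((1 - Kh δ)⁻¹ * (1 + Kh δ))
  have hmem : ∀ δ : ℝ, δ ≠ 0 → f δ ∈ Ell (κ ⊕ (ι ⊕ κ)) := by
    intro δ hδ
    have e : f δ = (D' δ)ᵀ * (M0 * ((1 - K δ)⁻¹ * (1 + K δ))) * D' δ := by
      have eT : (D' δ)ᵀ = D' δ := by
        simp only [D']
        rw [B3_transpose]; apply B3_ext_iff <;> simp
      simp only [f]
      rw [cayley_conj (hDD' δ hδ) (hD'D δ hδ) (hKskew δ) (hKh δ hδ), eT]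
      calc M0 * (D δ * ((1 - K δ)⁻¹ * (1 + K δ)) * D' δ)
          = (M0 * D δ) * ((1 - K δ)⁻¹ * (1 + K δ)) * D' δ := by simp only [Matrix.mul_assoc]
        _ = _ := by rw [hM0D]; simp only [Matrix.mul_assoc]
    rw [e]
    apply ell_congr _ (D' δ) (D δ) (hD'D δ hδ) (hDD' δ hδ)
    apply ell_of_orth
    rw [Matrix.transpose_mul]
    calc ((1 - K δ)⁻¹ * (1 + K δ))ᵀ * M0ᵀ * (M0 * ((1 - K δ)⁻¹ * (1 + K δ)))
        = ((1 - K δ)⁻¹ * (1 + K δ))ᵀ * (M0ᵀ * M0) * ((1 - K δ)⁻¹ * (1 + K δ)) := by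
          simp only [Matrix.mul_assoc]
      _ = 1 := by rw [hM0orth, Matrix.mul_one, cayley_orth (hKskew δ)]
  -- value at zero
  have hN : (1 - Kh 0) * (1 + Kh 0 + Kh 0 * Kh 0) = 1 := by
    have h3 : Kh 0 * Kh 0 * Kh 0 = 0 := by
      simp only [Kh]
      rw [B3_mul, B3_mul]
      ext i j
      rcases i with i | i | i <;> rcases j with j | j | j <;> simp [B3]
    calc (1 - Kh 0) * (1 + Kh 0 + Kh 0 * Kh 0) = 1 - Kh 0 * Kh 0 * Kh 0 := by noncomm_ring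
      _ = 1 := by rw [h3, sub_zero]
  have hinv : (1 - Kh 0)⁻¹ = 1 + Kh 0 + Kh 0 * Kh 0 := Matrix.inv_eq_right_inv hN
  have hdet0 : (1 - Kh 0).det ≠ 0 := by
    have := congrArg Matrix.det hN
    rw [Matrix.det_mul, Matrix.det_one] at this
    intro h; rw [h, zero_mul] at this; exact zero_ne_one this
  have hf0 : f 0 = B3 0 0 1 0 O r L l c := by
    simp only [f]
    rw [hinv]
    have e : (1 + Kh 0 + Kh 0 * Kh 0) * (1 + Kh 0) =
        B3 1 (Lᵀ * l) (Lᵀ * c) 0 1 (Oᵀ * r) 0 0 1 := by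
      have h3 : Kh 0 * Kh 0 * Kh 0 = 0 := by
        simp only [Kh]
        rw [B3_mul, B3_mul]
        ext i j
        rcases i with i | i | i <;> rcases j with j | j | j <;> simp [B3]
      have e1 : (1 + Kh 0 + Kh 0 * Kh 0) * (1 + Kh 0) =
          1 + Kh 0 + Kh 0 + (Kh 0 * Kh 0 + Kh 0 * Kh 0) + Kh 0 * Kh 0 * Kh 0 := by noncomm_ring
      rw [e1, h3, add_zero]
      simp only [Kh]
      rw [B3_mul, B3_one]
      simp only [B3_add]
      apply B3_ext_iff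
      · simp
      · simp [hx, ← add_smul]; norm_num
      · simp only [hy]
        simp [← add_smul]
        have : (2⁻¹ : ℝ) • (Lᵀ * c) + (2⁻¹ : ℝ) • (Lᵀ * c) = Lᵀ * c := by
          rw [← add_smul]; norm_num
        calc (2⁻¹ : ℝ) • (Lᵀ * c) - x * z + ((2⁻¹ : ℝ) • (Lᵀ * c) - x * z) + (x * z + x * z)
            = (2⁻¹ : ℝ) • (Lᵀ * c) + (2⁻¹ : ℝ) • (Lᵀ * c) := by abel
          _ = Lᵀ * c := this
      · simp
      · simp
      · simp [hz, ← add_smul]; norm_num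
      · simp
      · simp
      · simp
    rw [e]
    simp only [M0]
    rw [B3_mul]
    apply B3_ext_iff <;> simp [← Matrix.mul_assoc, hL', hO']
  have hKhcont : Continuous Kh := by
    apply B3_continuous <;> fun_prop
  have hcont : ContinuousAt f 0 := by
    have h1 : ContinuousAt (fun δ => (1 - Kh δ)⁻¹) 0 := by
      have : (fun δ => (1 - Kh δ)⁻¹) = fun δ => ((1 - Kh δ).det)⁻¹ • (1 - Kh δ).adjugate := by
        funext δ
        rw [Matrix.inv_def, Ring.inverse_eq_inv']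
      rw [this]
      apply ContinuousAt.fun_smul
      · have hd : ContinuousAt (fun δ => (1 - Kh δ).det) 0 :=
          (Continuous.matrix_det (continuous_const.sub hKhcont)).continuousAt
        exact hd.inv₀ hdet0
      · exact (Continuous.matrix_adjugate (continuous_const.sub hKhcont)).continuousAt
    have h2 : ContinuousAt (fun δ => 1 + Kh δ) 0 := (continuous_const.add hKhcont).continuousAt
    have hmul : Continuous (fun p : Matrix (κ ⊕ (ι ⊕ κ)) (κ ⊕ (ι ⊕ κ)) ℝ ×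
        Matrix (κ ⊕ (ι ⊕ κ)) (κ ⊕ (ι ⊕ κ)) ℝ => M0 * (p.1 * p.2)) := by fun_prop
    exact hmul.continuousAt.comp (f := fun δ => ((1 - Kh δ)⁻¹, 1 + Kh δ)) (h1.prodMk h2)
  rw [← hf0]
  have ht : Tendsto f (𝓝[≠] 0) (𝓝 (f 0)) := hcont.tendsto.mono_left nhdsWithin_le_nhds
  exact mem_closure_of_tendsto ht (by
    filter_upwards [self_mem_nhdsWithin] with δ hδ using hmem δ hδ)

end cayley

end Pool.Agent.H882R3.TN
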