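import Pool.Agent.H882R3.TNLU

/-! Connectedness of the set of unipotent upper triangular matrices congruent to orthogonal
matrices: it is a continuous image (Gram-Schmidt) of a convex set. -/

set_option autoImplicit false
open Matrix Filter Topology InnerProductSpace

namespace Pool.Agent.H882R3.TN

variable {n : ℕ}

/-- lower triangular matrices with positive diagonal -/
def LP (n : ℕ) : Set (Matrix (Fin n) (Fin n) ℝ) :=
  {h | (∀ i j : Fin n, i < j → h i j = 0) ∧ ∀ i : Fin n, 0 < h i i}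

theorem LP_convex : Convex ℝ (LP n) := by
  intro x hx y hy a b ha hb hab
  refine ⟨?_, ?_⟩
  · intro i j hij
    simp [hx.1 i j hij, hy.1 i j hij]
  · intro i
    simp only [Matrix.add_apply, Matrix.smul_apply, smul_eq_mul]
    have h1 := hx.2 i
    have h2 := hy.2 i
    rcases eq_or_lt_of_le ha with h | h
    · have : b = 1 := by linarith
      rw [← h, this]; linarith
    · have : 0 < a * x i i := mul_pos h h1
      have : 0 ≤ b * y i i := mul_nonneg hb h2.le
      linarith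

/-- columns as Euclidean vectors -/
noncomputable def col (h : Matrix (Fin n) (Fin n) ℝ) (j : Fin n) : EuclideanSpace ℝ (Fin n) :=
  WithLp.toLp 2 (fun i => h i j)

/-- Gram-Schmidt vectors of the columns -/
noncomputable def gs (h : Matrix (Fin n) (Fin n) ℝ) (j : Fin n) : EuclideanSpace ℝ (Fin n) :=
  gramSchmidt ℝ (col h) j

theorem inner_col (x : EuclideanSpace ℝ (Fin n)) (h : Matrix (Fin n) (Fin n) ℝ) (j : Fin n) :
    (inner ℝ x (col h j) : ℝ) = ∑ k, x k * h k j := by
  simp only [col, PiLp.inner_apply, RCLike.inner_apply, conj_trivial]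
  exact Finset.sum_congr rfl fun k _ => mul_comm _ _

theorem linIndep {h : Matrix (Fin n) (Fin n) ℝ} (hh : IsUnit h.det) :
    LinearIndependent ℝ (col h) := by
  rw [Fintype.linearIndependent_iff]
  intro g hg i
  have h1 : h *ᵥ g = 0 := by
    ext k
    have h2 := congrArg (fun v : EuclideanSpace ℝ (Fin n) => v k) hg
    simpa [col, Matrix.mulVec, dotProduct, mul_comm] using h2
  have h2 := congrArg (h⁻¹ *ᵥ ·) h1
  have h3 : g = 0 := by
    simpa [Matrix.mulVec_mulVec, Matrix.nonsing_inv_mul _ hh] using h2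
  rw [h3]; rfl

theorem gs_ne {h : Matrix (Fin n) (Fin n) ℝ} (hh : IsUnit h.det) (j : Fin n) : gs h j ≠ 0 :=
  gramSchmidt_ne_zero j (linIndep hh)

theorem gs_cont (k : Fin n) :
    ContinuousOn (fun h : Matrix (Fin n) (Fin n) ℝ => gs h k) {h | IsUnit h.det} := by
  induction k using WellFoundedLT.induction with
  | ind k ih =>
    have e : (fun h : Matrix (Fin n) (Fin n) ℝ => gs h k) = fun h => col h k -
        ∑ i ∈ Finset.Iio k, ((inner ℝ (gs h i) (col h k) : ℝ) / (‖gs h i‖ ^ 2)) • gs h i := by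
      funext h
      simp only [gs]
      rw [gramSchmidt_def]
      simp only [Submodule.starProjection_singleton]
      rfl
    rw [e]
    have hcol : ∀ j, Continuous (fun h : Matrix (Fin n) (Fin n) ℝ => col h j) := by
      intro j
      have h1 : Continuous (fun h : Matrix (Fin n) (Fin n) ℝ => fun i => h i j) := by fun_prop
      exact (PiLp.continuous_toLp 2 _).comp h1
    apply ContinuousOn.sub (hcol k).continuousOn
    apply continuousOn_finsetSum
    intro i hi
    have hi' := ih i (Finset.mem_Iio.mp hi)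
    refine ContinuousOn.fun_smul ?_ hi'
    apply ContinuousOn.div
    · exact ContinuousOn.inner hi' (hcol k).continuousOn
    · exact hi'.norm.pow 2
    · intro h hh
      exact pow_ne_zero _ (norm_ne_zero_iff.mpr (gs_ne hh i))

/-- orthogonal factor -/
noncomputable def Qm (h : Matrix (Fin n) (Fin n) ℝ) : Matrix (Fin n) (Fin n) ℝ :=
  Matrix.of fun i j => ‖gs h j‖⁻¹ * gs h j i

theorem Qm_orth {h : Matrix (Fin n) (Fin n) ℝ} (hh : IsUnit h.det) : (Qm h)ᵀ * Qm h = 1 := by
  ext i j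
  have h1 : ((Qm h)ᵀ * Qm h) i j = ‖gs h i‖⁻¹ * ‖gs h j‖⁻¹ * (inner ℝ (gs h i) (gs h j) : ℝ) := by
    simp only [Matrix.mul_apply, Matrix.transpose_apply, Qm, Matrix.of_apply, PiLp.inner_apply,
      RCLike.inner_apply, conj_trivial, Finset.mul_sum]
    exact Finset.sum_congr rfl fun k _ => by ring
  rw [h1]
  by_cases hij : i = j
  · subst hij
    rw [real_inner_self_eq_norm_sq, Matrix.one_apply_eq]
    have : ‖gs h i‖ ≠ 0 := norm_ne_zero_iff.mpr (gs_ne hh i)
    field_simp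
  · rw [Matrix.one_apply_ne hij]
    have : (inner ℝ (gs h i) (gs h j) : ℝ) = 0 := gramSchmidt_orthogonal ℝ (col h) hij
    rw [this, mul_zero]

theorem Y_apply (h : Matrix (Fin n) (Fin n) ℝ) (i j : Fin n) :
    ((Qm h)ᵀ * h) i j = ‖gs h i‖⁻¹ * (inner ℝ (gs h i) (col h j) : ℝ) := by
  rw [inner_col, Finset.mul_sum]
  simp only [Matrix.mul_apply, Matrix.transpose_apply, Qm, Matrix.of_apply]
  exact Finset.sum_congr rfl fun k _ => by ring

theorem Y_upper (h : Matrix (Fin n) (Fin n) ℝ) {i j : Fin n} (hij : j < i) :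
    ((Qm h)ᵀ * h) i j = 0 := by
  rw [Y_apply]
  have : (inner ℝ (gs h i) (col h j) : ℝ) = 0 := gramSchmidt_inv_triangular ℝ (col h) hij
  rw [this, mul_zero]

theorem Y_diag {h : Matrix (Fin n) (Fin n) ℝ} (hh : IsUnit h.det) (i : Fin n) :
    0 < ((Qm h)ᵀ * h) i i := by
  rw [Y_apply]
  have h0 : 0 < ‖gs h i‖ := norm_pos_iff.mpr (gs_ne hh i)
  have h1 : (inner ℝ (gs h i) (col h i) : ℝ) = ‖gs h i‖ ^ 2 := by
    conv_lhs => rw [gramSchmidt_def'' ℝ (col h) i]
    rw [inner_add_right, inner_sum, Finset.sum_eq_zero, add_zero]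
    · exact real_inner_self_eq_norm_sq _
    · intro j hj
      rw [inner_smul_right]
      have : (inner ℝ (gs h i) (gramSchmidt ℝ (col h) j) : ℝ) = 0 :=
        gramSchmidt_orthogonal ℝ (col h) (Finset.mem_Iio.mp hj).ne'
      rw [this, mul_zero]
  rw [h1]
  positivity

theorem LP_det {h : Matrix (Fin n) (Fin n) ℝ} (hh : h ∈ LP n) : IsUnit h.det := by
  have h1 : (hᵀ).BlockTriangular id := fun i j hij => hh.1 j i hij
  rw [← Matrix.det_transpose, Matrix.det_of_isUpperTriangular h1, isUnit_iff_ne_zero,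
    Finset.prod_ne_zero_iff]
  intro i _
  exact (hh.2 i).ne'

/-- the unnormalised triangular matrix -/
noncomputable def St (h : Matrix (Fin n) (Fin n) ℝ) : Matrix (Fin n) (Fin n) ℝ :=
  hᵀ * ((Qm h)ᵀ * h)

theorem St_upper {h : Matrix (Fin n) (Fin n) ℝ} (hh : h ∈ LP n) {i j : Fin n} (hij : j < i) :
    St h i j = 0 := by
  rw [St, Matrix.mul_apply]
  apply Finset.sum_eq_zero
  intro k _
  rcases lt_or_ge k i with h1 | h1
  · rw [Matrix.transpose_apply, hh.1 k i h1, zero_mul]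
  · rw [Y_upper h (lt_of_lt_of_le hij h1), mul_zero]

theorem St_diag {h : Matrix (Fin n) (Fin n) ℝ} (hh : h ∈ LP n) (i : Fin n) : 0 < St h i i := by
  rw [St, Matrix.mul_apply, Finset.sum_eq_single i]
  · exact mul_pos (hh.2 i) (Y_diag (LP_det hh) i)
  · intro k _ hk
    rcases lt_or_gt_of_ne hk with h1 | h1
    · rw [Matrix.transpose_apply, hh.1 k i h1, zero_mul]
    · rw [Y_upper h h1, mul_zero]
  · intro h; exact absurd (Finset.mem_univ _) h

/-- the normalised matrix -/
noncomputable def Fm (h : Matrix (Fin n) (Fin n) ℝ) : Matrix (Fin n) (Fin n) ℝ :=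
  Matrix.of fun i j => St h i j / (Real.sqrt (St h i i) * Real.sqrt (St h j j))

theorem St_ell {h : Matrix (Fin n) (Fin n) ℝ} (hh : IsUnit h.det) : St h ∈ Ell (Fin n) := by
  have h1 : ((Qm h)ᵀ)ᵀ * (Qm h)ᵀ = 1 := by
    rw [Matrix.transpose_transpose]; exact mul_eq_one_comm.mp (Qm_orth hh)
  have := ell_congr (ell_of_orth h1) h h⁻¹ (Matrix.mul_nonsing_inv _ hh)
    (Matrix.nonsing_inv_mul _ hh)
  rw [St, ← Matrix.mul_assoc]
  exact this

theorem Fm_mem {h : Matrix (Fin n) (Fin n) ℝ} (hh : h ∈ LP n) :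
    Fm h ∈ Ell (Fin n) ∩ UT n := by
  refine ⟨?_, ?_, ?_⟩
  · let D : Matrix (Fin n) (Fin n) ℝ := Matrix.diagonal fun i => (Real.sqrt (St h i i))⁻¹
    let D' : Matrix (Fin n) (Fin n) ℝ := Matrix.diagonal fun i => (Real.sqrt (St h i i))
    have hpos : ∀ i, Real.sqrt (St h i i) ≠ 0 := fun i => (Real.sqrt_pos.mpr (St_diag hh i)).ne'
    have h1 : D * D' = 1 := by
      simp only [D, D', Matrix.diagonal_mul_diagonal]
      rw [← Matrix.diagonal_one]
      congr 1
      funext i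
      exact inv_mul_cancel₀ (hpos i)
    have h2 : D' * D = 1 := mul_eq_one_comm.mp h1
    have := ell_congr (St_ell (LP_det hh)) D D' h1 h2
    have e : Dᵀ * St h * D = Fm h := by
      ext i j
      simp only [D, Matrix.diagonal_transpose, Matrix.mul_diagonal, Matrix.diagonal_mul, Fm,
        Matrix.of_apply]
      rw [div_eq_mul_inv, mul_inv]; ring
    rwa [e] at this
  · intro i j hij
    simp [Fm, St_upper hh hij]
  · intro i
    simp only [Fm, Matrix.of_apply]
    rw [Real.mul_self_sqrt (St_diag hh i).le, div_self (St_diag hh i).ne']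

theorem Fm_cont : ContinuousOn (fun h : Matrix (Fin n) (Fin n) ℝ => Fm h) (LP n) := by
  have hsub : LP n ⊆ {h | IsUnit h.det} := fun h hh => LP_det hh
  have hgs : ∀ k i, ContinuousOn (fun h : Matrix (Fin n) (Fin n) ℝ => gs h k i) (LP n) := by
    intro k i
    have h1 := (gs_cont k).mono hsub
    have h2 : Continuous (fun v : EuclideanSpace ℝ (Fin n) => v i) := by fun_prop
    exact h2.comp_continuousOn h1
  have hQ : ∀ i j, ContinuousOn (fun h : Matrix (Fin n) (Fin n) ℝ => Qm h i j) (LP n) := by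
    intro i j
    simp only [Qm, Matrix.of_apply]
    apply ContinuousOn.mul _ (hgs j i)
    apply ContinuousOn.inv₀ ((gs_cont j).mono hsub).norm
    intro h hh
    exact norm_ne_zero_iff.mpr (gs_ne (LP_det hh) j)
  have hS : ∀ i j, ContinuousOn (fun h : Matrix (Fin n) (Fin n) ℝ => St h i j) (LP n) := by
    intro i j
    simp only [St, Matrix.mul_apply, Matrix.transpose_apply]
    apply continuousOn_finsetSum
    intro k _
    apply ContinuousOn.mul
    · exact (Continuous.matrix_elem continuous_id k i).continuousOn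
    · apply continuousOn_finsetSum
      intro l _
      apply ContinuousOn.mul (hQ l k)
      exact (Continuous.matrix_elem continuous_id l j).continuousOn
  have hF : ∀ i j, ContinuousOn (fun h : Matrix (Fin n) (Fin n) ℝ => Fm h i j) (LP n) := by
    intro i j
    simp only [Fm, Matrix.of_apply]
    apply ContinuousOn.div (hS i j)
    · exact ((hS i i).sqrt).mul ((hS j j).sqrt)
    · intro h hh
      exact mul_ne_zero (Real.sqrt_pos.mpr (St_diag hh i)).ne' (Real.sqrt_pos.mpr (St_diag hh j)).ne'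
  exact continuousOn_pi.mpr fun i => continuousOn_pi.mpr fun j => hF i j

theorem upper_inv {Y : Matrix (Fin n) (Fin n) ℝ} (hY : Y.BlockTriangular id)
    (hpos : ∀ i, 0 < Y i i) : IsUnit Y.det ∧ (Y⁻¹).BlockTriangular id ∧ ∀ i, 0 < Y⁻¹ i i := by
  have hdet : IsUnit Y.det := by
    rw [Matrix.det_of_isUpperTriangular hY, isUnit_iff_ne_zero, Finset.prod_ne_zero_iff]
    intro i _; exact (hpos i).ne'
  have : Invertible Y := Matrix.invertibleOfIsUnitDet Y hdet
  have hinv : (Y⁻¹).BlockTriangular id := Matrix.blockTriangular_inv_of_blockTriangular hY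
  refine ⟨hdet, hinv, ?_⟩
  intro i
  have h1 := congrFun (congrFun (Matrix.mul_nonsing_inv _ hdet) i) i
  rw [Matrix.mul_apply, Finset.sum_eq_single i, Matrix.one_apply_eq] at h1
  · have h2 := hpos i
    by_contra hcon
    push Not at hcon
    nlinarith
  · intro k _ hk
    rcases lt_or_gt_of_ne hk with h2 | h2
    · rw [hY h2, zero_mul]
    · rw [hinv h2, mul_zero]
  · intro h; exact absurd (Finset.mem_univ _) h

theorem mul_diag_upper {A B : Matrix (Fin n) (Fin n) ℝ} (hA : A.BlockTriangular id)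
    (hB : B.BlockTriangular id) (i : Fin n) : (A * B) i i = A i i * B i i := by
  rw [Matrix.mul_apply, Finset.sum_eq_single i]
  · intro k _ hk
    rcases lt_or_gt_of_ne hk with h2 | h2
    · rw [hA h2, zero_mul]
    · rw [hB h2, mul_zero]
  · intro h; exact absurd (Finset.mem_univ _) h

theorem orth_upper_one {W : Matrix (Fin n) (Fin n) ℝ} (hW : W.BlockTriangular id)
    (hpos : ∀ i, 0 < W i i) (hO : Wᵀ * W = 1) : W = 1 := by
  obtain ⟨hdet, hinv, _⟩ := upper_inv hW hpos
  have h1 : W⁻¹ = Wᵀ := Matrix.inv_eq_left_inv hO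
  rw [h1] at hinv
  have hdiag : ∀ i j, i ≠ j → W i j = 0 := by
    intro i j hij
    rcases lt_or_gt_of_ne hij with h2 | h2
    · have := hinv (i := j) (j := i) h2
      simpa using this
    · exact hW h2
  ext i j
  by_cases hij : i = j
  · subst hij
    have h2 := congrFun (congrFun hO i) i
    rw [Matrix.mul_apply, Finset.sum_eq_single i, Matrix.one_apply_eq, Matrix.transpose_apply] at h2
    · rw [Matrix.one_apply_eq]
      have := hpos i
      nlinarith
    · intro k _ hk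
      rw [Matrix.transpose_apply, hdiag k i hk, zero_mul]
    · intro h; exact absurd (Finset.mem_univ _) h
  · rw [hdiag i j hij, Matrix.one_apply_ne hij]

theorem surj {S : Matrix (Fin n) (Fin n) ℝ} (hS : S ∈ Ell (Fin n)) (hU : S ∈ UT n) :
    ∃ h ∈ LP n, Fm h = S := by
  obtain ⟨g, g', O, h1, h2, hO, hSg⟩ := ell_orth hS
  have hg : IsUnit g.det := isUnit_det_of_exists_inv h1
  have hg' : IsUnit (g'ᵀ).det := by
    rw [Matrix.det_transpose]; exact isUnit_det_of_exists_inv h2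
  -- QR decomposition of `g'ᵀ`
  set Q := Qm (g'ᵀ) with hQ
  have hQo : Qᵀ * Q = 1 := Qm_orth hg'
  have hQo' : Q * Qᵀ = 1 := mul_eq_one_comm.mp hQo
  set Y := Qᵀ * g'ᵀ with hY
  have hYup : Y.BlockTriangular id := fun i j hij => Y_upper (g'ᵀ) hij
  have hYpos : ∀ i, 0 < Y i i := fun i => Y_diag hg' i
  obtain ⟨hYdet, hYinv, hYinvpos⟩ := upper_inv hYup hYpos
  set h := (Y⁻¹)ᵀ with hh
  have hLP : h ∈ LP n := ⟨fun i j hij => hYinv hij, fun i => hYinvpos i⟩
  have hQY : Q * Y = g'ᵀ := by rw [hY, ← Matrix.mul_assoc, hQo', Matrix.one_mul]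
  -- `g = Q h`
  have hgQ : g = Q * h := by
    have e1 : g'ᵀ * gᵀ = 1 := by rw [← Matrix.transpose_mul, h1, Matrix.transpose_one]
    have e2 : gᵀ = Y⁻¹ * Qᵀ := by
      have : (Y⁻¹ * Qᵀ) * (g'ᵀ * gᵀ) = gᵀ := by
        calc (Y⁻¹ * Qᵀ) * (g'ᵀ * gᵀ) = Y⁻¹ * (Qᵀ * g'ᵀ) * gᵀ := by simp only [Matrix.mul_assoc]
          _ = gᵀ := by rw [← hY, Matrix.nonsing_inv_mul _ hYdet, Matrix.one_mul]
      rw [e1, Matrix.mul_one] at this
      exact this.symm
    have := congrArg Matrix.transpose e2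
    simpa [Matrix.transpose_mul, hh] using this
  set O' := Qᵀ * O * Q with hO'
  have hO'o : O'ᵀ * O' = 1 := by
    calc O'ᵀ * O' = Qᵀ * Oᵀ * (Q * Qᵀ) * O * Q := by
          simp only [hO', Matrix.transpose_mul, Matrix.transpose_transpose, Matrix.mul_assoc]
      _ = Qᵀ * (Oᵀ * O) * Q := by rw [hQo']; simp only [Matrix.mul_one, Matrix.mul_assoc]
      _ = 1 := by rw [hO, Matrix.mul_one, hQo]
  have hSh : S = hᵀ * (O' * h) := by
    rw [hSg, hgQ, Matrix.transpose_mul]; simp only [hO', Matrix.mul_assoc]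
  have hhdet := LP_det hLP
  -- `O' h` is upper triangular
  have hhT : (hᵀ).BlockTriangular id := fun i j hij => hLP.1 j i hij
  obtain ⟨hd1, hd2, hd3⟩ := upper_inv hhT (fun i => hLP.2 i)
  have hY' : O' * h = (hᵀ)⁻¹ * S := by
    rw [hSh, ← Matrix.mul_assoc, Matrix.nonsing_inv_mul _ hd1, Matrix.one_mul]
  have hY'up : (O' * h).BlockTriangular id := by rw [hY']; exact hd2.mul (ut_block hU)
  have hY'pos : ∀ i, 0 < (O' * h) i i := by
    intro i
    rw [hY', mul_diag_upper hd2 (ut_block hU), hU.2 i, mul_one]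
    exact hd3 i
  -- Gram-Schmidt of `h`
  set Q₂ := Qm h with hQ₂
  have hQ₂o : Q₂ᵀ * Q₂ = 1 := Qm_orth hhdet
  have hQ₂o' : Q₂ * Q₂ᵀ = 1 := mul_eq_one_comm.mp hQ₂o
  have hY₂up : (Q₂ᵀ * h).BlockTriangular id := fun i j hij => Y_upper h hij
  obtain ⟨hk1, hk2, hk3⟩ := upper_inv hY₂up (fun i => Y_diag hhdet i)
  have hW : (O' * h) * (Q₂ᵀ * h)⁻¹ = O' * Q₂ := by
    have e : h * (Q₂ᵀ * h)⁻¹ = Q₂ := by
      have e3 : Q₂ * (Q₂ᵀ * h) = h := by rw [← Matrix.mul_assoc, hQ₂o', Matrix.one_mul]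
      calc h * (Q₂ᵀ * h)⁻¹ = (Q₂ * (Q₂ᵀ * h)) * (Q₂ᵀ * h)⁻¹ := by rw [e3]
        _ = Q₂ := by rw [Matrix.mul_assoc, Matrix.mul_nonsing_inv _ hk1, Matrix.mul_one]
    rw [Matrix.mul_assoc, e]
  have hWup : (O' * Q₂).BlockTriangular id := by rw [← hW]; exact hY'up.mul hk2
  have hWpos : ∀ i, 0 < (O' * Q₂) i i := by
    intro i
    rw [← hW, mul_diag_upper hY'up hk2]
    exact mul_pos (hY'pos i) (hk3 i)
  have hWo : (O' * Q₂)ᵀ * (O' * Q₂) = 1 := by
    rw [Matrix.transpose_mul]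
    calc Q₂ᵀ * O'ᵀ * (O' * Q₂) = Q₂ᵀ * (O'ᵀ * O') * Q₂ := by simp only [Matrix.mul_assoc]
      _ = 1 := by rw [hO'o, Matrix.mul_one, hQ₂o]
  have hone := orth_upper_one hWup hWpos hWo
  have hO'Q : O' = Q₂ᵀ := by
    calc O' = O' * (Q₂ * Q₂ᵀ) := by rw [hQ₂o', Matrix.mul_one]
      _ = (O' * Q₂) * Q₂ᵀ := (Matrix.mul_assoc _ _ _).symm
      _ = Q₂ᵀ := by rw [hone, Matrix.one_mul]
  have hSt : St h = S := by
    have e : St h = hᵀ * (Q₂ᵀ * h) := rfl
    rw [e, ← hO'Q, ← hSh]
  refine ⟨h, hLP, ?_⟩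
  ext i j
  simp only [Fm, Matrix.of_apply, hSt, hU.2]
  simp

theorem ell_ut_preconnected : IsPreconnected (Ell (Fin n) ∩ UT n) := by
  have h1 : IsPreconnected (LP n) := LP_convex.isPreconnected
  have h2 := h1.image (fun h : Matrix (Fin n) (Fin n) ℝ => Fm h) Fm_cont
  have e : (fun h : Matrix (Fin n) (Fin n) ℝ => Fm h) '' LP n = Ell (Fin n) ∩ UT n := by
    ext S
    constructor
    · rintro ⟨h, hh, rfl⟩
      exact Fm_mem hh
    · rintro ⟨hS, hU⟩
      obtain ⟨h, hh, he⟩ := surj hS hU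
      exact ⟨h, hh, he⟩
  rwa [e] at h2

end Pool.Agent.H882R3.TN
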