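import Mathlib

/-!
Helper file for S00185 (connectedness of the Cecotti-Vafa space `T(n,ℝ)`).
`Ell ι`: bilinear forms congruent to an orthogonal matrix, written `M = H T`, `H > 0`, `T` an
isometry of `H`.  `US M`: all eigenvalues of the asymmetry `M⁻¹ Mᵀ` have modulus one.
-/

set_option autoImplicit false
open Matrix

namespace Pool.Agent.H882R3.TN

variable {ι κ : Type} [Fintype ι] [DecidableEq ι] [Fintype κ] [DecidableEq κ]

/-- Forms congruent to orthogonal matrices. -/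
def Ell (ι : Type) [Fintype ι] [DecidableEq ι] : Set (Matrix ι ι ℝ) :=
  {M | ∃ H T : Matrix ι ι ℝ, H.PosDef ∧ M = H * T ∧ Tᵀ * H * T = H}

/-- Unit spectrum of the asymmetry. -/
def US (M : Matrix ι ι ℝ) : Prop :=
  ∀ (z : ℂ) (v : ι → ℂ), v ≠ 0 →
    (M.map Complex.ofReal)ᵀ *ᵥ v = z • ((M.map Complex.ofReal) *ᵥ v) → ‖z‖ = 1

theorem ell_congr {M : Matrix ι ι ℝ} (hM : M ∈ Ell ι) (g : Matrix ι κ ℝ) (g' : Matrix κ ι ℝ)
    (h1 : g * g' = 1) (h2 : g' * g = 1) : gᵀ * M * g ∈ Ell κ := by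
  obtain ⟨H, T, hH, rfl, hT⟩ := hM
  refine ⟨gᵀ * H * g, g' * T * g, ?_, ?_, ?_⟩
  · have hinj : Function.Injective g.mulVec := by
      intro x y hxy
      have := congrArg (g' *ᵥ ·) hxy
      simpa [Matrix.mulVec_mulVec, h2] using this
    have := Matrix.PosDef.conjTranspose_mul_mul_same (B := g) hH hinj
    simpa [Matrix.conjTranspose_eq_transpose_of_trivial] using this
  · calc gᵀ * (H * T) * g = gᵀ * H * (1 * T) * g := by simp [Matrix.mul_assoc]
      _ = gᵀ * H * ((g * g') * T) * g := by rw [h1]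
      _ = _ := by simp only [Matrix.mul_assoc]
  · have e1 : g'ᵀ * gᵀ = 1 := by rw [← Matrix.transpose_mul, h1, Matrix.transpose_one]
    calc (g' * T * g)ᵀ * (gᵀ * H * g) * (g' * T * g)
        = gᵀ * (Tᵀ * ((g'ᵀ * gᵀ) * (H * ((g * g') * T)))) * g := by
          simp only [Matrix.transpose_mul, Matrix.mul_assoc]
      _ = gᵀ * (Tᵀ * H * T) * g := by rw [e1, h1]; simp only [Matrix.one_mul, Matrix.mul_assoc]
      _ = gᵀ * H * g := by rw [hT]

theorem closure_congr {M : Matrix ι ι ℝ} (hM : M ∈ closure (Ell ι)) (g : Matrix ι κ ℝ)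
    (g' : Matrix κ ι ℝ) (h1 : g * g' = 1) (h2 : g' * g = 1) :
    gᵀ * M * g ∈ closure (Ell κ) := by
  have hc : Continuous (fun N : Matrix ι ι ℝ => gᵀ * N * g) := by fun_prop
  exact map_mem_closure (f := fun N : Matrix ι ι ℝ => gᵀ * N * g) hc hM
    (fun N hN => ell_congr hN g g' h1 h2)

/-- converse transport -/
theorem closure_of_congr {M : Matrix ι ι ℝ} (g : Matrix ι κ ℝ)
    (g' : Matrix κ ι ℝ) (h1 : g * g' = 1) (h2 : g' * g = 1)
    (hM : gᵀ * M * g ∈ closure (Ell κ)) : M ∈ closure (Ell ι) := by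
  have := closure_congr hM g' g h2 h1
  have e : g'ᵀ * (gᵀ * M * g) * g' = M := by
    calc g'ᵀ * (gᵀ * M * g) * g' = (g'ᵀ * gᵀ) * M * (g * g') := by simp only [Matrix.mul_assoc]
      _ = M := by rw [← Matrix.transpose_mul, h1]; simp
  rwa [e] at this

theorem ell_of_orth {O : Matrix ι ι ℝ} (hO : Oᵀ * O = 1) : O ∈ Ell ι :=
  ⟨1, O, Matrix.PosDef.one, by simp, by simpa using hO⟩

theorem ell_smul {M : Matrix ι ι ℝ} (hM : M ∈ Ell ι) {r : ℝ} (hr : 0 < r) : r • M ∈ Ell ι := by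
  obtain ⟨H, T, hH, rfl, hT⟩ := hM
  refine ⟨r • H, T, hH.smul hr, by simp, ?_⟩
  simp [hT]

theorem posDef_fromBlocks {A : Matrix ι ι ℝ} {B : Matrix κ κ ℝ} (hA : A.PosDef) (hB : B.PosDef) :
    (Matrix.fromBlocks A 0 0 B).PosDef := by
  rw [Matrix.posDef_iff_dotProduct_mulVec] at *
  refine ⟨?_, ?_⟩
  · rw [Matrix.IsHermitian, Matrix.fromBlocks_conjTranspose, hA.1, hB.1]; simp
  · intro x hx
    have hx' : x = Sum.elim (x ∘ Sum.inl) (x ∘ Sum.inr) := by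
      ext i; cases i <;> rfl
    have key : star x ⬝ᵥ (Matrix.fromBlocks A 0 0 B *ᵥ x) =
        star (x ∘ Sum.inl) ⬝ᵥ (A *ᵥ (x ∘ Sum.inl)) + star (x ∘ Sum.inr) ⬝ᵥ (B *ᵥ (x ∘ Sum.inr)) := by
      rw [Matrix.fromBlocks_mulVec]
      simp only [dotProduct, Fintype.sum_sum_type, Sum.elim_inl, Sum.elim_inr,
        Matrix.zero_mulVec, add_zero, zero_add]
      rfl
    rw [key]
    by_cases h1 : x ∘ Sum.inl = 0
    · have h2 : x ∘ Sum.inr ≠ 0 := by
        intro h2; apply hx; rw [hx', h1, h2]; ext i; cases i <;> rfl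
      have := hB.2 h2
      rw [h1]; simpa using this
    · have a1 := hA.2 h1
      have a2 : 0 ≤ star (x ∘ Sum.inr) ⬝ᵥ (B *ᵥ (x ∘ Sum.inr)) := by
        by_cases h2 : x ∘ Sum.inr = 0
        · rw [h2]; simp
        · exact (hB.2 h2).le
      linarith

theorem ell_fromBlocks {M : Matrix ι ι ℝ} {N : Matrix κ κ ℝ} (hM : M ∈ Ell ι) (hN : N ∈ Ell κ) :
    Matrix.fromBlocks M 0 0 N ∈ Ell (ι ⊕ κ) := by
  obtain ⟨H, T, hH, rfl, hT⟩ := hM
  obtain ⟨H', T', hH', rfl, hT'⟩ := hN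
  refine ⟨Matrix.fromBlocks H 0 0 H', Matrix.fromBlocks T 0 0 T', posDef_fromBlocks hH hH', ?_, ?_⟩
  · simp [Matrix.fromBlocks_multiply]
  · simp [Matrix.fromBlocks_multiply, Matrix.fromBlocks_transpose, hT, hT']

theorem closure_fromBlocks {M : Matrix ι ι ℝ} {N : Matrix κ κ ℝ} (hM : M ∈ Ell ι)
    (hN : N ∈ closure (Ell κ)) :
    Matrix.fromBlocks M 0 0 N ∈ closure (Ell (ι ⊕ κ)) := by
  have hc : Continuous (fun N : Matrix κ κ ℝ => Matrix.fromBlocks M 0 0 N) := by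
    apply Continuous.matrix_fromBlocks <;> fun_prop
  exact map_mem_closure hc hN (fun N hN => ell_fromBlocks hM hN)

section
open scoped MatrixOrder
theorem posSemidef_factor {H : Matrix ι ι ℝ} (hH : H.PosSemidef) :
    ∃ g : Matrix ι ι ℝ, H = gᵀ * g := by
  obtain ⟨B, hB⟩ := CStarAlgebra.nonneg_iff_eq_star_mul_self.mp hH.nonneg
  exact ⟨B, by rw [hB, Matrix.star_eq_conjTranspose, Matrix.conjTranspose_eq_transpose_of_trivial]⟩
end

/-- A positive definite `H` factors as `gᵀ g` with `g` invertible. -/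
theorem posDef_factor {H : Matrix ι ι ℝ} (hH : H.PosDef) :
    ∃ g g' : Matrix ι ι ℝ, H = gᵀ * g ∧ g * g' = 1 ∧ g' * g = 1 := by
  obtain ⟨g, hg⟩ := posSemidef_factor hH.posSemidef
  have hu : IsUnit H := hH.isUnit
  have hdet : IsUnit g.det := by
    have h1 : IsUnit H.det := (Matrix.isUnit_iff_isUnit_det H).mp hu
    rw [hg, Matrix.det_mul] at h1
    exact isUnit_of_mul_isUnit_right h1
  exact ⟨g, g⁻¹, hg, Matrix.mul_nonsing_inv g hdet, Matrix.nonsing_inv_mul g hdet⟩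

/-- Elements of `Ell` are congruent to orthogonal matrices. -/
theorem ell_orth {M : Matrix ι ι ℝ} (hM : M ∈ Ell ι) :
    ∃ g g' O : Matrix ι ι ℝ, g * g' = 1 ∧ g' * g = 1 ∧ Oᵀ * O = 1 ∧ M = gᵀ * O * g := by
  obtain ⟨H, T, hH, rfl, hT⟩ := hM
  obtain ⟨g, g', hg, h1, h2⟩ := posDef_factor hH
  refine ⟨g, g', g * T * g', h1, h2, ?_, ?_⟩
  · have e1 : g'ᵀ * gᵀ = 1 := by rw [← Matrix.transpose_mul, h1, Matrix.transpose_one]
    calc (g * T * g')ᵀ * (g * T * g') = g'ᵀ * (Tᵀ * (gᵀ * g) * T) * g' := by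
          simp only [Matrix.transpose_mul, Matrix.mul_assoc]
      _ = g'ᵀ * (gᵀ * g) * g' := by rw [← hg, hT]
      _ = (g'ᵀ * gᵀ) * (g * g') := by simp only [Matrix.mul_assoc]
      _ = 1 := by rw [e1, h1, Matrix.one_mul]
  · calc H * T = gᵀ * g * T := by rw [← hg]
      _ = gᵀ * g * T * (g' * g) := by rw [h2, Matrix.mul_one]
      _ = gᵀ * (g * T * g') * g := by simp only [Matrix.mul_assoc]

end Pool.Agent.H882R3.TN
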