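import Pool.Agent.H882R3.TNInduct

/-! Density theorem for forms. -/

set_option autoImplicit false
open Matrix Filter Topology

namespace Pool.Agent.H882R3.TN

variable {ι : Type} [Fintype ι] [DecidableEq ι]

theorem exists_eig [Nonempty ι] {M : Matrix ι ι ℝ} (hM : IsUnit M.det) :
    ∃ (z : ℂ) (v : ι → ℂ), v ≠ 0 ∧
      (M.map Complex.ofReal)ᵀ *ᵥ v = z • ((M.map Complex.ofReal) *ᵥ v) := by
  have h1 : M.map Complex.ofReal * (M⁻¹).map Complex.ofReal = 1 := by
    rw [← cmap_mul, Matrix.mul_nonsing_inv _ hM, cmap_one]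
  obtain ⟨μ, hμ⟩ := Module.End.exists_eigenvalue
    (Matrix.toLin' ((M⁻¹).map Complex.ofReal * (M.map Complex.ofReal)ᵀ))
  obtain ⟨v, hv⟩ := hμ.exists_hasEigenvector
  refine ⟨μ, v, hv.2, ?_⟩
  have h2 := hv.apply_eq_smul
  rw [Matrix.toLin'_apply] at h2
  have h3 := congrArg ((M.map Complex.ofReal) *ᵥ ·) h2
  simp only [Matrix.mulVec_mulVec, Matrix.mulVec_smul] at h3
  rw [← Matrix.mul_assoc, h1, Matrix.one_mul] at h3
  exact h3

theorem cmap_mulVec_re {α : Type} (M : Matrix α ι ℝ) (v : ι → ℂ) (i : α) :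
    ((M.map Complex.ofReal *ᵥ v) i).re = (M *ᵥ fun j => (v j).re) i := by
  simp [Matrix.mulVec, dotProduct, Complex.re_sum]

theorem cmap_mulVec_im {α : Type} (M : Matrix α ι ℝ) (v : ι → ℂ) (i : α) :
    ((M.map Complex.ofReal *ᵥ v) i).im = (M *ᵥ fun j => (v j).im) i := by
  simp [Matrix.mulVec, dotProduct, Complex.im_sum]

theorem ell_unit {G : Matrix Unit Unit ℝ} (hG : G () () ≠ 0) : G ∈ Ell Unit := by
  rcases lt_or_gt_of_ne hG with h | h
  · have e : G = (-(G () ())) • (-1 : Matrix Unit Unit ℝ) := by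
      ext i j; simp
    rw [e]
    exact ell_smul (ell_of_orth (by simp)) (by linarith)
  · have e : G = (G () ()) • (1 : Matrix Unit Unit ℝ) := by
      ext i j; simp
    rw [e]
    exact ell_smul (ell_of_orth (by simp)) h

theorem density_real {M : Matrix ι ι ℝ} (hM : IsUnit M.det) (hUS : US M)
    (w : ι → ℝ) (hw : w ≠ 0) (c : ℝ) (hc : c ^ 2 = 1) (hrel : Mᵀ *ᵥ w = c • (M *ᵥ w))
    (IH : ∀ (m : ℕ), m < Fintype.card ι → ∀ N : Matrix (Fin m) (Fin m) ℝ, IsUnit N.det → US N →
      N ∈ closure (Ell (Fin m))) :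
    M ∈ closure (Ell ι) := by
  let E : Matrix ι Unit ℝ := Matrix.of fun i _ => w i
  let R : Matrix Unit Unit ℝ := Matrix.of fun _ _ => c
  have hR : Rᵀ * R = 1 := by
    ext i j; simp [R, Matrix.mul_apply]; nlinarith
  have hrel' : Mᵀ * E = M * E * R := by
    ext i j
    have h1 : (Mᵀ * E) i j = (Mᵀ *ᵥ w) i := by
      simp [E, Matrix.mul_apply, Matrix.mulVec, dotProduct]
    have h2 : (M * E * R) i j = (M *ᵥ w) i * c := by
      rw [Matrix.mul_apply]; simp [E, R, Matrix.mul_apply, Matrix.mulVec, dotProduct]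
    rw [h1, h2, hrel]; simp [mul_comm]
  have hE : Function.Injective E.mulVec := by
    intro x y hxy
    obtain ⟨i, hi⟩ := Function.ne_iff.mp hw
    have := congrFun hxy i
    simp [E, Matrix.mulVec, dotProduct] at this
    ext u
    rcases this with h | h
    · exact h
    · exact absurd h hi
  by_cases hG : (Eᵀ * M * E) () () = 0
  · refine step_two hM hUS E R hR hrel' hE ?_ (by simp) IH
    ext i j; exact hG
  · refine step_one hM hUS E R hR hrel' (ell_unit hG) ?_ (by simp) IH
    rw [isUnit_iff_ne_zero, Matrix.det_unique]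
    exact hG

theorem density_complex {M : Matrix ι ι ℝ} (hM : IsUnit M.det) (hUS : US M)
    (a b : ι → ℝ) (hab : a ≠ 0 ∨ b ≠ 0) (c s : ℝ) (hc : c ^ 2 + s ^ 2 = 1) (hs : s ≠ 0)
    (hra : Mᵀ *ᵥ a = c • (M *ᵥ a) - s • (M *ᵥ b))
    (hrb : Mᵀ *ᵥ b = s • (M *ᵥ a) + c • (M *ᵥ b))
    (IH : ∀ (m : ℕ), m < Fintype.card ι → ∀ N : Matrix (Fin m) (Fin m) ℝ, IsUnit N.det → US N →
      N ∈ closure (Ell (Fin m))) :
    M ∈ closure (Ell ι) := by
  let E : Matrix ι (Fin 2) ℝ := Matrix.of fun i j => (![a i, b i] : Fin 2 → ℝ) j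
  let R : Matrix (Fin 2) (Fin 2) ℝ := !![c, s; -s, c]
  have hR : Rᵀ * R = 1 := by
    ext i j
    fin_cases i <;> fin_cases j <;> simp [R, Matrix.mul_apply, Fin.sum_univ_two] <;> nlinarith
  have hME : ∀ (N : Matrix ι ι ℝ) (i : ι), (N * E) i 0 = (N *ᵥ a) i ∧ (N * E) i 1 = (N *ᵥ b) i := by
    intro N i
    constructor <;> simp [E, Matrix.mul_apply, Matrix.mulVec, dotProduct]
  have hrel' : Mᵀ * E = M * E * R := by
    ext i j
    have h2 : (M * E * R) i j = (M * E) i 0 * R 0 j + (M * E) i 1 * R 1 j := by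
      rw [Matrix.mul_apply, Fin.sum_univ_two]
    rw [h2, (hME M i).1, (hME M i).2]
    fin_cases j
    · have := congrFun hra i
      simp only [Pi.sub_apply, Pi.smul_apply, smul_eq_mul] at this
      simp only [Fin.zero_eta, Fin.isValue, (hME Mᵀ i).1, R]
      simp
      linarith
    · have := congrFun hrb i
      simp only [Pi.add_apply, Pi.smul_apply, smul_eq_mul] at this
      simp only [Fin.mk_one, Fin.isValue, (hME Mᵀ i).2, R]
      simp
      linarith
  have hE0 : ∀ x : Fin 2 → ℝ, E *ᵥ x = 0 → x = 0 := by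
    intro x hx
    have hu : x 0 • a + x 1 • b = 0 := by
      ext i
      have := congrFun hx i
      simp [E, Matrix.mulVec, dotProduct, Fin.sum_univ_two] at this
      simp; linarith
    -- `w' = x0 b - x1 a`
    have h1 : Mᵀ *ᵥ (x 0 • a + x 1 • b) = c • (M *ᵥ (x 0 • a + x 1 • b)) -
        s • (M *ᵥ (x 0 • b - x 1 • a)) := by
      simp only [Matrix.mulVec_add, Matrix.mulVec_sub, Matrix.mulVec_smul, hra, hrb]
      ext i; simp; ring
    rw [hu, Matrix.mulVec_zero, Matrix.mulVec_zero, smul_zero, zero_sub, eq_comm, neg_eq_zero,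
      smul_eq_zero] at h1
    have h2 : M *ᵥ (x 0 • b - x 1 • a) = 0 := by
      rcases h1 with h | h
      · exact absurd h hs
      · exact h
    have h3 : x 0 • b - x 1 • a = 0 := by
      have := congrArg (M⁻¹ *ᵥ ·) h2
      simpa [Matrix.mulVec_mulVec, Matrix.nonsing_inv_mul _ hM] using this
    have h4 : (x 0 ^ 2 + x 1 ^ 2) • a = 0 := by
      have : (x 0 ^ 2 + x 1 ^ 2) • a = x 0 • (x 0 • a + x 1 • b) - x 1 • (x 0 • b - x 1 • a) := by
        ext i; simp; ring
      rw [this, hu, h3]; simp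
    have h5 : (x 0 ^ 2 + x 1 ^ 2) • b = 0 := by
      have : (x 0 ^ 2 + x 1 ^ 2) • b = x 1 • (x 0 • a + x 1 • b) + x 0 • (x 0 • b - x 1 • a) := by
        ext i; simp; ring
      rw [this, hu, h3]; simp
    have h6 : x 0 ^ 2 + x 1 ^ 2 = 0 := by
      rcases hab with h | h
      · exact (smul_eq_zero.mp h4).resolve_right h
      · exact (smul_eq_zero.mp h5).resolve_right h
    have h7 : x 0 = 0 := by nlinarith [sq_nonneg (x 0), sq_nonneg (x 1)]
    have h8 : x 1 = 0 := by nlinarith [sq_nonneg (x 0), sq_nonneg (x 1)]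
    ext i; fin_cases i
    · exact h7
    · exact h8
  have hE : Function.Injective E.mulVec := by
    intro x y hxy
    have hxy' : E *ᵥ x = E *ᵥ y := hxy
    exact sub_eq_zero.mp (hE0 (x - y) (by rw [Matrix.mulVec_sub, hxy', sub_self]))
  set G := Eᵀ * M * E with hGdef
  have hGT : Gᵀ = G * R := by
    rw [hGdef, Matrix.transpose_mul, Matrix.transpose_mul, Matrix.transpose_transpose,
      hrel']
    simp only [Matrix.mul_assoc]
  have e00 := congrFun (congrFun hGT 0) 0
  have e01 := congrFun (congrFun hGT 0) 1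
  have e10 := congrFun (congrFun hGT 1) 0
  have e11 := congrFun (congrFun hGT 1) 1
  simp [R, Matrix.mul_apply, Fin.sum_univ_two] at e00 e01 e10 e11
  set p := G 0 0 with hp
  set q := G 0 1 with hq
  set u := G 1 0 with hu
  set w := G 1 1 with hw
  have f1 : q * s = p * (c - 1) := by linarith
  have f2 : s * u = p * (1 - c) := by
    have : s * u = p * s ^ 2 + c * (q * s) := by rw [e01]; ring
    rw [this, f1]
    have : s ^ 2 = 1 - c ^ 2 := by linarith
    rw [this]; ring
  have f3 : u = -q := by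
    have : s * (u + q) = 0 := by nlinarith
    rcases mul_eq_zero.mp this with h | h
    · exact absurd h hs
    · linarith
  have f4 : w = p := by
    have h1 : w * s = -q * (1 + c) := by rw [f3] at e10; linarith
    have h2 : w * s ^ 2 = p * s ^ 2 := by
      have : w * s ^ 2 = -(q * s) * (1 + c) := by
        calc w * s ^ 2 = (w * s) * s := by ring
          _ = _ := by rw [h1]; ring
      rw [this, f1]
      have : s ^ 2 = 1 - c ^ 2 := by linarith
      rw [this]; ring
    have h3 : s ^ 2 ≠ 0 := pow_ne_zero _ hs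
    exact mul_right_cancel₀ h3 h2
  by_cases hp0 : p = 0
  · have hq0 : q = 0 := by
      rw [hp0, zero_mul] at f1
      rcases mul_eq_zero.mp f1 with h | h
      · exact h
      · exact absurd h hs
    refine step_two hM hUS E R hR hrel' hE ?_ (by simp) IH
    rw [← hGdef]
    ext i j
    fin_cases i <;> fin_cases j
    · exact hp0
    · exact hq0
    · show u = 0; rw [f3, hq0, neg_zero]
    · show w = 0; rw [f4, hp0]
  · have hr : 0 < p ^ 2 + q ^ 2 := by positivity
    set ρ := Real.sqrt (p ^ 2 + q ^ 2) with hρ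
    have hρpos : 0 < ρ := Real.sqrt_pos.mpr hr
    have hρsq : ρ ^ 2 = p ^ 2 + q ^ 2 := Real.sq_sqrt hr.le
    have hGG : Gᵀ * G = (ρ ^ 2) • (1 : Matrix (Fin 2) (Fin 2) ℝ) := by
      ext i j
      fin_cases i <;> fin_cases j <;>
        simp [Matrix.mul_apply, Fin.sum_univ_two, ← hp, ← hq, ← hu, ← hw, f3, f4, hρsq] <;> ring
    have hGell : G ∈ Ell (Fin 2) := by
      have e : G = ρ • (ρ⁻¹ • G) := by rw [smul_smul, mul_inv_cancel₀ hρpos.ne', one_smul]
      rw [e]
      apply ell_smul _ hρpos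
      apply ell_of_orth
      rw [Matrix.transpose_smul, Matrix.smul_mul, Matrix.mul_smul, hGG, smul_smul, smul_smul]
      have : ρ⁻¹ * ρ⁻¹ * ρ ^ 2 = 1 := by field_simp
      rw [this, one_smul]
    refine step_one hM hUS E R hR hrel' hGell ?_ (by simp) IH
    rw [isUnit_iff_ne_zero, ← hGdef, Matrix.det_fin_two, ← hp, ← hq, ← hu, ← hw, f3, f4]
    nlinarith

/-- **Density.** -/
theorem density : ∀ (n : ℕ) (M : Matrix (Fin n) (Fin n) ℝ), IsUnit M.det → US M →
    M ∈ closure (Ell (Fin n)) := by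
  intro n
  induction n using Nat.strong_induction_on with
  | _ n ih =>
    intro M hM hUS
    rcases Nat.eq_zero_or_pos n with h0 | hpos
    · subst h0
      exact subset_closure (ell_of_orth (by ext i; exact i.elim0))
    · haveI : Nonempty (Fin n) := ⟨⟨0, hpos⟩⟩
      have IH : ∀ (m : ℕ), m < Fintype.card (Fin n) → ∀ N : Matrix (Fin m) (Fin m) ℝ,
          IsUnit N.det → US N → N ∈ closure (Ell (Fin m)) := by
        intro m hm N hN hN'
        exact ih m (by simpa using hm) N hN hN'
      obtain ⟨z, v, hv, hz⟩ := exists_eig hM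
      have hz1 : ‖z‖ = 1 := hUS z v hv hz
      have hcs : z.re ^ 2 + z.im ^ 2 = 1 := by
        have h1 := Complex.normSq_eq_norm_sq z
        rw [hz1, Complex.normSq_apply] at h1
        nlinarith
      set a : Fin n → ℝ := fun j => (v j).re with ha
      set b : Fin n → ℝ := fun j => (v j).im with hb
      have hab : a ≠ 0 ∨ b ≠ 0 := by
        by_contra hcon
        push Not at hcon
        apply hv
        funext j
        exact Complex.ext (congrFun hcon.1 j) (congrFun hcon.2 j)
      have hra : Mᵀ *ᵥ a = z.re • (M *ᵥ a) - z.im • (M *ᵥ b) := by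
        ext i
        have h1 := congrArg Complex.re (congrFun hz i)
        rw [← cmap_transpose, cmap_mulVec_re] at h1
        rw [h1]
        simp only [Pi.smul_apply, smul_eq_mul, Complex.mul_re, cmap_mulVec_re, cmap_mulVec_im,
          Pi.sub_apply]
        rfl
      have hrb : Mᵀ *ᵥ b = z.im • (M *ᵥ a) + z.re • (M *ᵥ b) := by
        ext i
        have h1 := congrArg Complex.im (congrFun hz i)
        rw [← cmap_transpose, cmap_mulVec_im] at h1
        rw [h1]
        simp only [Pi.smul_apply, smul_eq_mul, Complex.mul_im, cmap_mulVec_re, cmap_mulVec_im,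
          Pi.add_apply]
        rw [add_comm]
      by_cases hs : z.im = 0
      · rw [hs] at hra hrb hcs
        simp only [zero_smul, sub_zero, zero_add] at hra hrb
        have hc2 : z.re ^ 2 = 1 := by linarith
        rcases hab with h | h
        · exact density_real hM hUS a h z.re hc2 hra IH
        · exact density_real hM hUS b h z.re hc2 hrb IH
      · exact density_complex hM hUS a b hab z.re z.im hcs hs hra hrb IH

end Pool.Agent.H882R3.TN
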