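import Pool.Agent.H882R3.TNUS

/-! Density: every invertible real form whose asymmetry has unit-modulus spectrum is a limit of
forms congruent to orthogonal matrices. -/

set_option autoImplicit false
open Matrix Filter Topology

namespace Pool.Agent.H882R3.TN

variable {ι κ ρ : Type} [Fintype ι] [DecidableEq ι] [Fintype κ] [DecidableEq κ]
  [Fintype ρ] [DecidableEq ρ]

/-- a basis of the kernel of a matrix of full row rank -/
theorem kerBasis (C : Matrix ρ ι ℝ) (C' : Matrix ι ρ ℝ) (h : C * C' = 1) :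
    ∃ (m : ℕ) (F : Matrix ι (Fin m) ℝ), C * F = 0 ∧ Function.Injective F.mulVec ∧
      Fintype.card ρ + m = Fintype.card ι := by
  classical
  let W := LinearMap.ker C.mulVecLin
  let b := Module.finBasis ℝ W
  let m := Module.finrank ℝ W
  let F : Matrix ι (Fin m) ℝ := Matrix.of fun i j => (b j : ι → ℝ) i
  have hF : ∀ x : Fin m → ℝ, F *ᵥ x = ((∑ j, x j • b j : W) : ι → ℝ) := by
    intro x
    ext i
    simp [F, Matrix.mulVec, dotProduct, mul_comm]
  refine ⟨m, F, ?_, ?_, ?_⟩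
  · ext i j
    have hj : C *ᵥ (b j : ι → ℝ) = 0 := by
      have := (b j).2
      rwa [LinearMap.mem_ker, Matrix.mulVecLin_apply] at this
    have := congrFun hj i
    simpa [Matrix.mul_apply, Matrix.mulVec, dotProduct, F] using this
  · intro x y hxy
    rw [hF, hF] at hxy
    have h1 : (∑ j, x j • b j : W) = ∑ j, y j • b j := Subtype.ext hxy
    have h2 := congrArg b.repr h1
    ext j
    have := DFunLike.congr_fun h2 j
    simpa [map_sum, Finsupp.single_apply] using this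
  · have hsurj : LinearMap.range C.mulVecLin = ⊤ := by
      rw [LinearMap.range_eq_top]
      intro y
      refine ⟨C' *ᵥ y, ?_⟩
      rw [Matrix.mulVecLin_apply, Matrix.mulVec_mulVec, h, Matrix.one_mulVec]
    have := LinearMap.finrank_range_add_finrank_ker C.mulVecLin
    rw [hsurj, finrank_top] at this
    simpa using this

theorem inverse_of_injective (g : Matrix ι κ ℝ) (hg : Function.Injective g.mulVec)
    (hc : Fintype.card ι = Fintype.card κ) :
    ∃ g' : Matrix κ ι ℝ, g * g' = 1 ∧ g' * g = 1 := by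
  have hker : LinearMap.ker g.mulVecLin = ⊥ := by
    rw [LinearMap.ker_eq_bot]; exact hg
  obtain ⟨f, hf⟩ := LinearMap.exists_leftInverse_of_injective g.mulVecLin hker
  have h2 : (LinearMap.toMatrix' f) * g = 1 := by
    have h3 : LinearMap.toMatrix' (f ∘ₗ g.mulVecLin) = 1 := by rw [hf, LinearMap.toMatrix'_id]
    rw [LinearMap.toMatrix'_comp] at h3
    have h4 : g.mulVecLin = Matrix.toLin' g := rfl
    rw [h4, LinearMap.toMatrix'_toLin'] at h3
    exact h3
  exact ⟨LinearMap.toMatrix' f, (Matrix.mul_eq_one_comm_of_card_eq _ _ _ hc).mpr h2, h2⟩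

theorem isUnit_det_of_exists_inv {M N : Matrix ι ι ℝ} (h : M * N = 1) : IsUnit M.det := by
  have := congrArg Matrix.det h
  rw [Matrix.det_mul, Matrix.det_one] at this
  exact IsUnit.of_mul_eq_one _ this

theorem isUnit_congr {M : Matrix ι ι ℝ} (hM : IsUnit M.det) (g : Matrix ι κ ℝ)
    (g' : Matrix κ ι ℝ) (h1 : g * g' = 1) (h2 : g' * g = 1) : IsUnit (gᵀ * M * g).det := by
  have e1 : gᵀ * g'ᵀ = 1 := by rw [← Matrix.transpose_mul, h2, Matrix.transpose_one]
  apply isUnit_det_of_exists_inv (N := g' * M⁻¹ * g'ᵀ)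
  calc gᵀ * M * g * (g' * M⁻¹ * g'ᵀ) = gᵀ * M * (g * g') * M⁻¹ * g'ᵀ := by
        simp only [Matrix.mul_assoc]
    _ = gᵀ * (M * M⁻¹) * g'ᵀ := by rw [h1]; simp only [Matrix.mul_assoc, Matrix.mul_one]
    _ = 1 := by rw [Matrix.mul_nonsing_inv _ hM, Matrix.mul_one, e1]

/-- Case I: the invariant subspace is nondegenerate. -/
theorem step_one {M : Matrix ι ι ℝ} (hM : IsUnit M.det) (hUS : US M)
    (E : Matrix ι κ ℝ) (R : Matrix κ κ ℝ) (hR : Rᵀ * R = 1) (hrel : Mᵀ * E = M * E * R)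
    (hG : Eᵀ * M * E ∈ Ell κ) (hGdet : IsUnit (Eᵀ * M * E).det) (hpos : 0 < Fintype.card κ)
    (IH : ∀ (m : ℕ), m < Fintype.card ι → ∀ N : Matrix (Fin m) (Fin m) ℝ, IsUnit N.det → US N →
      N ∈ closure (Ell (Fin m))) :
    M ∈ closure (Ell ι) := by
  have hR' : R * Rᵀ = 1 := mul_eq_one_comm.mp hR
  obtain ⟨m, F, hF0, hFinj, hcard⟩ := kerBasis (Eᵀ * M) (E * (Eᵀ * M * E)⁻¹) (by
    rw [← Matrix.mul_assoc, Matrix.mul_nonsing_inv _ hGdet])
  -- the transposed relation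
  have hrelT : Eᵀ * M = Rᵀ * (Eᵀ * Mᵀ) := by
    have := congrArg Matrix.transpose hrel
    simpa [Matrix.transpose_mul, Matrix.mul_assoc] using this
  have hF1 : Fᵀ * M * E = 0 := by
    have h1 : Eᵀ * Mᵀ = R * (Eᵀ * M) := by
      rw [hrelT, ← Matrix.mul_assoc, hR', Matrix.one_mul]
    have h2 : Eᵀ * Mᵀ * F = 0 := by rw [h1, Matrix.mul_assoc, hF0, Matrix.mul_zero]
    have := congrArg Matrix.transpose h2
    simpa [Matrix.transpose_mul, Matrix.mul_assoc] using this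
  let g : Matrix ι (κ ⊕ Fin m) ℝ := Matrix.fromCols E F
  have hginj : Function.Injective g.mulVec := by
    have : ∀ x : κ ⊕ Fin m → ℝ, g *ᵥ x = 0 → x = 0 := by
      intro x hx
      have hx' : E *ᵥ (x ∘ Sum.inl) + F *ᵥ (x ∘ Sum.inr) = 0 := by
        rw [← hx]; simp [g, Matrix.fromCols_mulVec]
      have h1 := congrArg ((Eᵀ * M) *ᵥ ·) hx'
      simp only [Matrix.mulVec_add, Matrix.mulVec_mulVec, hF0, Matrix.zero_mulVec, add_zero,
        Matrix.mulVec_zero] at h1
      have h2 : x ∘ Sum.inl = 0 := by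
        have := congrArg ((Eᵀ * M * E)⁻¹ *ᵥ ·) h1
        simpa [Matrix.mulVec_mulVec, Matrix.nonsing_inv_mul _ hGdet] using this
      rw [h2, Matrix.mulVec_zero, zero_add] at hx'
      have h3 : x ∘ Sum.inr = 0 := hFinj (by rw [hx', Matrix.mulVec_zero])
      ext i
      rcases i with i | i
      · exact congrFun h2 i
      · exact congrFun h3 i
    intro x y hxy
    have := this (x - y) (by
      have hxy' : g *ᵥ x = g *ᵥ y := hxy
      rw [Matrix.mulVec_sub, hxy', sub_self])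
    exact sub_eq_zero.mp this
  have hc : Fintype.card ι = Fintype.card (κ ⊕ Fin m) := by simp; omega
  obtain ⟨g', hg1, hg2⟩ := inverse_of_injective g hginj hc
  have hblock : gᵀ * M * g = Matrix.fromBlocks (Eᵀ * M * E) 0 0 (Fᵀ * M * F) := by
    simp only [g]
    rw [Matrix.transpose_fromCols, Matrix.fromRows_mul, Matrix.fromRows_mul_fromCols]
    rw [hF0, hF1]
  have hblockUS : US (Matrix.fromBlocks (Eᵀ * M * E) 0 0 (Fᵀ * M * F)) := by
    rw [← hblock]; exact us_congr hUS g g' hg1 hg2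
  have hblockU : IsUnit (Matrix.fromBlocks (Eᵀ * M * E) 0 0 (Fᵀ * M * F)).det := by
    rw [← hblock]; exact isUnit_congr hM g g' hg1 hg2
  have hNU : IsUnit (Fᵀ * M * F).det := by
    rw [Matrix.det_fromBlocks_zero₂₁] at hblockU
    exact isUnit_of_mul_isUnit_right hblockU
  have hN := IH m (by omega) (Fᵀ * M * F) hNU (us_fromBlocks hblockUS)
  apply closure_of_congr g g' hg1 hg2
  rw [hblock]
  exact closure_fromBlocks hG hN

/-- Case II: the invariant subspace is isotropic. -/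
theorem step_two {M : Matrix ι ι ℝ} (hM : IsUnit M.det) (hUS : US M)
    (E : Matrix ι κ ℝ) (R : Matrix κ κ ℝ) (hR : Rᵀ * R = 1) (hrel : Mᵀ * E = M * E * R)
    (hE : Function.Injective E.mulVec)
    (hG : Eᵀ * M * E = 0) (hpos : 0 < Fintype.card κ)
    (IH : ∀ (m : ℕ), m < Fintype.card ι → ∀ N : Matrix (Fin m) (Fin m) ℝ, IsUnit N.det → US N →
      N ∈ closure (Ell (Fin m))) :
    M ∈ closure (Ell ι) := by
  have hR' : R * Rᵀ = 1 := mul_eq_one_comm.mp hR
  -- `P = (Eᵀ E)⁻¹`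
  have hPD : (Eᵀ * E).PosDef := by
    have := Matrix.PosDef.conjTranspose_mul_self E hE
    simpa [Matrix.conjTranspose_eq_transpose_of_trivial] using this
  have hu : IsUnit (Eᵀ * E).det := (Matrix.isUnit_iff_isUnit_det _).mp hPD.isUnit
  set P := (Eᵀ * E)⁻¹ with hP
  have hEP : Eᵀ * (E * P) = 1 := by rw [← Matrix.mul_assoc, Matrix.mul_nonsing_inv _ hu]
  let E' : Matrix ι κ ℝ := M⁻¹ * (E * P)
  have hE' : Eᵀ * M * E' = 1 := by
    calc Eᵀ * M * (M⁻¹ * (E * P)) = Eᵀ * ((M * M⁻¹) * (E * P)) := by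
          simp only [Matrix.mul_assoc]
      _ = 1 := by rw [Matrix.mul_nonsing_inv _ hM, Matrix.one_mul, hEP]
  have hEMEP : Eᵀ * M * (E * P) = 0 := by rw [← Matrix.mul_assoc, hG, Matrix.zero_mul]
  -- the stacked matrix
  let C : Matrix (κ ⊕ κ) ι ℝ := Matrix.fromRows (Eᵀ * M) Eᵀ
  let C' : Matrix ι (κ ⊕ κ) ℝ := Matrix.fromCols (E' - (E * P) * (Eᵀ * E')) (E * P)
  have hCC' : C * C' = 1 := by
    simp only [C, C']
    rw [Matrix.fromRows_mul_fromCols, ← Matrix.fromBlocks_one]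
    congr 1
    · rw [Matrix.mul_sub, hE', ← Matrix.mul_assoc (Eᵀ * M), hEMEP, Matrix.zero_mul, sub_zero]
    · rw [Matrix.mul_sub, ← Matrix.mul_assoc Eᵀ (E * P), hEP, Matrix.one_mul, sub_self]
  obtain ⟨m, F, hF0, hFinj, hcard⟩ := kerBasis C C' hCC'
  have hF0' : Eᵀ * M * F = 0 ∧ Eᵀ * F = 0 := by
    simp only [C] at hF0
    rw [Matrix.fromRows_mul] at hF0
    constructor
    · ext i j; exact congrFun (congrFun hF0 (Sum.inl i)) j
    · ext i j; exact congrFun (congrFun hF0 (Sum.inr i)) j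
  obtain ⟨hF1, hF2⟩ := hF0'
  have hrelT : Eᵀ * M = Rᵀ * (Eᵀ * Mᵀ) := by
    have := congrArg Matrix.transpose hrel
    simpa [Matrix.transpose_mul, Matrix.mul_assoc] using this
  have h1 : Eᵀ * Mᵀ = R * (Eᵀ * M) := by
    rw [hrelT, ← Matrix.mul_assoc, hR', Matrix.one_mul]
  have hF3 : Fᵀ * M * E = 0 := by
    have h2 : Eᵀ * Mᵀ * F = 0 := by rw [h1, Matrix.mul_assoc, hF1, Matrix.mul_zero]
    have := congrArg Matrix.transpose h2
    simpa [Matrix.transpose_mul, Matrix.mul_assoc] using this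
  have hE'3 : E'ᵀ * M * E = Rᵀ := by
    have h2 : Eᵀ * Mᵀ * E' = R := by rw [h1, Matrix.mul_assoc, hE', Matrix.mul_one]
    have := congrArg Matrix.transpose h2
    simpa [Matrix.transpose_mul, Matrix.mul_assoc] using this
  let g : Matrix ι (κ ⊕ (Fin m ⊕ κ)) ℝ := Matrix.fromCols E (Matrix.fromCols F E')
  have hginj : Function.Injective g.mulVec := by
    have : ∀ x : κ ⊕ (Fin m ⊕ κ) → ℝ, g *ᵥ x = 0 → x = 0 := by
      intro x hx
      have hx' : E *ᵥ (x ∘ Sum.inl) + (F *ᵥ ((x ∘ Sum.inr) ∘ Sum.inl) +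
          E' *ᵥ ((x ∘ Sum.inr) ∘ Sum.inr)) = 0 := by
        rw [← hx]; simp [g, Matrix.fromCols_mulVec]
      have h1 := congrArg ((Eᵀ * M) *ᵥ ·) hx'
      simp only [Matrix.mulVec_add, Matrix.mulVec_mulVec, hF1, hG, hE', Matrix.zero_mulVec,
        zero_add, Matrix.mulVec_zero, Matrix.one_mulVec] at h1
      rw [h1, Matrix.mulVec_zero, add_zero] at hx'
      have h2 := congrArg (Eᵀ *ᵥ ·) hx'
      simp only [Matrix.mulVec_add, Matrix.mulVec_mulVec, hF2, Matrix.zero_mulVec,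
        add_zero, Matrix.mulVec_zero] at h2
      have h3 : x ∘ Sum.inl = 0 := by
        have := congrArg ((Eᵀ * E)⁻¹ *ᵥ ·) h2
        simpa [Matrix.mulVec_mulVec, Matrix.nonsing_inv_mul _ hu] using this
      rw [h3, Matrix.mulVec_zero, zero_add] at hx'
      have h4 : (x ∘ Sum.inr) ∘ Sum.inl = 0 := hFinj (by rw [hx', Matrix.mulVec_zero])
      ext i
      rcases i with i | i | i
      · exact congrFun h3 i
      · exact congrFun h4 i
      · exact congrFun h1 i
    intro x y hxy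
    have := this (x - y) (by
      have hxy' : g *ᵥ x = g *ᵥ y := hxy
      rw [Matrix.mulVec_sub, hxy', sub_self])
    exact sub_eq_zero.mp this
  have hc : Fintype.card ι = Fintype.card (κ ⊕ (Fin m ⊕ κ)) := by
    simp at hcard ⊢; omega
  obtain ⟨g', hg1, hg2⟩ := inverse_of_injective g hginj hc
  have hblock : gᵀ * M * g = B3 0 0 1 0 (Fᵀ * M * F) (Fᵀ * M * E') Rᵀ (E'ᵀ * M * F)
      (E'ᵀ * M * E') := by
    ext i j
    rcases i with i | i | i <;> rcases j with j | j | j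
    · exact congrFun (congrFun hG i) j
    · exact congrFun (congrFun hF1 i) j
    · exact congrFun (congrFun hE' i) j
    · exact congrFun (congrFun hF3 i) j
    · rfl
    · rfl
    · exact congrFun (congrFun hE'3 i) j
    · rfl
    · rfl
  have hblockUS : US (B3 (0 : Matrix κ κ ℝ) 0 1 0 (Fᵀ * M * F) (Fᵀ * M * E') Rᵀ (E'ᵀ * M * F)
      (E'ᵀ * M * E')) := by
    rw [← hblock]; exact us_congr hUS g g' hg1 hg2
  have hblockU : IsUnit (B3 (0 : Matrix κ κ ℝ) 0 1 0 (Fᵀ * M * F) (Fᵀ * M * E') Rᵀ (E'ᵀ * M * F)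
      (E'ᵀ * M * E')).det := by
    rw [← hblock]; exact isUnit_congr hM g g' hg1 hg2
  have hRT : (Rᵀ)ᵀ * Rᵀ = 1 := by rw [Matrix.transpose_transpose]; exact hR'
  have hNU : IsUnit (Fᵀ * M * F).det := by
    rw [isUnit_iff_ne_zero]
    intro h0
    obtain ⟨b, hb, hb0⟩ := Matrix.exists_mulVec_eq_zero_iff.mpr h0
    have h3 : (B3 (0 : Matrix κ κ ℝ) 0 1 0 (Fᵀ * M * F) (Fᵀ * M * E') Rᵀ (E'ᵀ * M * F)
      (E'ᵀ * M * E')).det = 0 := by
      rw [← Matrix.exists_mulVec_eq_zero_iff]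
      refine ⟨Sum.elim (-(R *ᵥ ((E'ᵀ * M * F) *ᵥ b))) (Sum.elim b 0), ?_, ?_⟩
      · intro h; apply hb; ext i; exact congrFun h (Sum.inr (Sum.inl i))
      · rw [B3_mulVec, hb0]
        have h4 : Rᵀ *ᵥ (-(R *ᵥ ((E'ᵀ * M * F) *ᵥ b))) + (E'ᵀ * M * F) *ᵥ b +
            (E'ᵀ * M * E') *ᵥ 0 = 0 := by
          rw [Matrix.mulVec_neg, Matrix.mulVec_mulVec, hR, Matrix.one_mulVec]; simp
        rw [h4]
        ext i
        rcases i with i | i | i <;> simp
    exact (isUnit_iff_ne_zero.mp hblockU) h3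
  have hN := IH m (by simp at hcard; omega) (Fᵀ * M * F) hNU (us_B3 hRT hblockUS)
  apply closure_of_congr g g' hg1 hg2
  rw [hblock]
  exact antitriangular hRT hN _ _ _

end Pool.Agent.H882R3.TN
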