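import Pool.Agent.H882R3.TNDensity

/-! From density of forms to density of triangular matrices (inverse function theorem). -/

set_option autoImplicit false
open Matrix Filter Topology

namespace Pool.Agent.H882R3.TN

/-- upper triangular unipotent matrices -/
def UT (n : ℕ) : Set (Matrix (Fin n) (Fin n) ℝ) :=
  {S | (∀ i j : Fin n, j < i → S i j = 0) ∧ ∀ i : Fin n, S i i = 1}

variable {n : ℕ}

/-- lower part -/
def low (Z : Fin n → Fin n → ℝ) : Matrix (Fin n) (Fin n) ℝ :=
  Matrix.of fun i j => (if j ≤ i then (1 : ℝ) else 0) * Z i j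

/-- strictly upper part -/
def upp (Z : Fin n → Fin n → ℝ) : Matrix (Fin n) (Fin n) ℝ :=
  Matrix.of fun i j => (if i < j then (1 : ℝ) else 0) * Z i j

theorem low_smul (t : ℝ) (Z : Fin n → Fin n → ℝ) : low (t • Z) = t • low Z := by
  ext i j; simp [low]

theorem upp_smul (t : ℝ) (Z : Fin n → Fin n → ℝ) : upp (t • Z) = t • upp Z := by
  ext i j; simp [upp]

/-- the parametrisation -/
def Psi (S : Matrix (Fin n) (Fin n) ℝ) (Z : Fin n → Fin n → ℝ) : Fin n → Fin n → ℝ :=
  ((1 + low Z)ᵀ * (S + upp Z) * (1 + low Z) : Matrix (Fin n) (Fin n) ℝ)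

theorem Psi_contDiff (S : Matrix (Fin n) (Fin n) ℝ) : ContDiff ℝ 1 (Psi S) := by
  rw [contDiff_pi]
  intro i
  rw [contDiff_pi]
  intro j
  have : (fun Z => Psi S Z i j) = fun Z : Fin n → Fin n → ℝ => ∑ k, (∑ l,
      ((1 : Matrix (Fin n) (Fin n) ℝ) l i + (if i ≤ l then (1 : ℝ) else 0) * Z l i) *
      (S l k + (if l < k then (1 : ℝ) else 0) * Z l k)) *
      ((1 : Matrix (Fin n) (Fin n) ℝ) k j + (if j ≤ k then (1 : ℝ) else 0) * Z k j) := by
    funext Z
    simp only [Psi, Matrix.mul_apply, Matrix.transpose_apply, Matrix.add_apply, low, upp,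
      Matrix.of_apply]
  rw [this]
  fun_prop

/-- derivative in direction `Z` -/
theorem Psi_expand (S : Matrix (Fin n) (Fin n) ℝ) (Z : Fin n → Fin n → ℝ) (t : ℝ) :
    Psi S (t • Z) = (S : Fin n → Fin n → ℝ) +
      t • (((low Z)ᵀ * S + S * low Z + upp Z : Matrix (Fin n) (Fin n) ℝ) : Fin n → Fin n → ℝ) +
      t ^ 2 • (((low Z)ᵀ * upp Z + upp Z * low Z + (low Z)ᵀ * S * low Z :
        Matrix (Fin n) (Fin n) ℝ) : Fin n → Fin n → ℝ) +
      t ^ 3 • (((low Z)ᵀ * upp Z * low Z : Matrix (Fin n) (Fin n) ℝ) : Fin n → Fin n → ℝ) := by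
  have : ((1 + low (t • Z))ᵀ * (S + upp (t • Z)) * (1 + low (t • Z)) :
      Matrix (Fin n) (Fin n) ℝ) = S + t • ((low Z)ᵀ * S + S * low Z + upp Z) +
      t ^ 2 • ((low Z)ᵀ * upp Z + upp Z * low Z + (low Z)ᵀ * S * low Z) +
      t ^ 3 • ((low Z)ᵀ * upp Z * low Z) := by
    rw [low_smul, upp_smul]
    simp only [Matrix.transpose_add, Matrix.transpose_one, Matrix.transpose_smul,
      Matrix.add_mul, Matrix.mul_add, Matrix.one_mul, Matrix.mul_one, Matrix.smul_mul,
      Matrix.mul_smul, smul_smul, smul_add]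
    ext i j
    simp only [Matrix.add_apply, Matrix.smul_apply, smul_eq_mul]
    ring
  exact this

theorem Psi_zero (S : Matrix (Fin n) (Fin n) ℝ) : Psi S 0 = S := by
  have := Psi_expand S 0 0
  simp only [zero_smul, smul_zero, add_zero] at this
  simpa using this

theorem poly_deriv {V : Type} [NormedAddCommGroup V] [NormedSpace ℝ V] (A T Q C : V) :
    HasDerivAt (fun t : ℝ => A + t • T + t ^ 2 • Q + t ^ 3 • C) T 0 := by
  have h := (((hasDerivAt_const (0 : ℝ) A).add ((hasDerivAt_id (0 : ℝ)).smul_const T)).add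
      ((hasDerivAt_pow 2 (0 : ℝ)).smul_const Q)).add ((hasDerivAt_pow 3 (0 : ℝ)).smul_const C)
  simp at h
  exact h

theorem fderiv_Psi (S : Matrix (Fin n) (Fin n) ℝ) (Z : Fin n → Fin n → ℝ) :
    fderiv ℝ (Psi S) 0 Z =
      (((low Z)ᵀ * S + S * low Z + upp Z : Matrix (Fin n) (Fin n) ℝ) : Fin n → Fin n → ℝ) := by
  have h1 : HasFDerivAt (Psi S) (fderiv ℝ (Psi S) 0) ((0 : ℝ) • Z) := by
    rw [zero_smul]
    exact ((Psi_contDiff S).differentiable (by norm_num) 0).hasFDerivAt
  have h2 : HasDerivAt (fun t : ℝ => t • Z) Z 0 := by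
    simpa using (hasDerivAt_id (0 : ℝ)).smul_const Z
  have h3 := h1.comp_hasDerivAt (0 : ℝ) h2
  have h5 : (Psi S ∘ fun t : ℝ => t • Z) = fun t : ℝ => (S : Fin n → Fin n → ℝ) +
      t • (((low Z)ᵀ * S + S * low Z + upp Z : Matrix (Fin n) (Fin n) ℝ) : Fin n → Fin n → ℝ) +
      t ^ 2 • (((low Z)ᵀ * upp Z + upp Z * low Z + (low Z)ᵀ * S * low Z :
        Matrix (Fin n) (Fin n) ℝ) : Fin n → Fin n → ℝ) +
      t ^ 3 • (((low Z)ᵀ * upp Z * low Z : Matrix (Fin n) (Fin n) ℝ) : Fin n → Fin n → ℝ) := by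
    funext t
    exact Psi_expand S Z t
  rw [h5] at h3
  exact h3.unique (poly_deriv _ _ _ _)

theorem ut_block {S : Matrix (Fin n) (Fin n) ℝ} (hS : S ∈ UT n) : S.BlockTriangular id :=
  fun i j h => hS.1 i j h

theorem ut_det {S : Matrix (Fin n) (Fin n) ℝ} (hS : S ∈ UT n) : S.det = 1 := by
  rw [Matrix.det_of_isUpperTriangular (ut_block hS)]
  simp [hS.2]

theorem T_injective {S : Matrix (Fin n) (Fin n) ℝ} (hS : S ∈ UT n) (Z : Fin n → Fin n → ℝ)
    (h : (low Z)ᵀ * S + S * low Z + upp Z = 0) : Z = 0 := by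
  set L := low Z with hL
  set U := upp Z with hU
  have hLlow : ∀ i j, i < j → L i j = 0 := by
    intro i j hij
    simp [hL, low, not_le.mpr hij]
  have hUup : ∀ i j, j ≤ i → U i j = 0 := by
    intro i j hij
    simp [hU, upp, not_lt.mpr hij]
  have hLT : (Lᵀ).BlockTriangular id := by
    intro i j hij
    exact hLlow j i hij
  have hUT : U.BlockTriangular id := fun i j hij => hUup i j (le_of_lt hij)
  have hSdet : IsUnit S.det := by rw [ut_det hS]; exact isUnit_one
  have hW : (S * L).BlockTriangular id := by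
    have e : S * L = -(Lᵀ * S + U) := by
      have h' : S * L + (Lᵀ * S + U) = 0 := by rw [← h]; abel
      exact eq_neg_of_add_eq_zero_left h'
    rw [e]
    have := (hLT.mul (ut_block hS)).add hUT
    intro i j hij
    rw [Matrix.neg_apply, this hij, neg_zero]
  have hLup : L.BlockTriangular id := by
    haveI : Invertible S := Matrix.invertibleOfIsUnitDet S hSdet
    have h1 : (S⁻¹).BlockTriangular id := Matrix.blockTriangular_inv_of_blockTriangular (ut_block hS)
    have h2 := h1.mul hW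
    rwa [← Matrix.mul_assoc, Matrix.nonsing_inv_mul _ hSdet, Matrix.one_mul] at h2
  have hdiag : ∀ i j, i ≠ j → L i j = 0 := by
    intro i j hij
    rcases lt_or_gt_of_ne hij with h1 | h1
    · exact hLlow i j h1
    · exact hLup h1
  have hLii : ∀ i, L i i = 0 := by
    intro i
    have h1 := congrFun (congrFun h i) i
    simp only [Matrix.add_apply, Matrix.mul_apply, Matrix.transpose_apply, Matrix.zero_apply,
      hUup i i le_rfl, add_zero] at h1
    rw [Finset.sum_eq_single i, Finset.sum_eq_single i, hS.2 i] at h1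
    · linarith
    · intro b _ hb; rw [hdiag b i hb, mul_zero]
    · intro h; exact absurd (Finset.mem_univ _) h
    · intro b _ hb; rw [hdiag b i hb, zero_mul]
    · intro h; exact absurd (Finset.mem_univ _) h
  have hL0 : L = 0 := by
    ext i j
    by_cases hij : i = j
    · subst hij; exact hLii i
    · exact hdiag i j hij
  have hU0 : U = 0 := by
    rw [hL0] at h; simpa using h
  funext i j
  rcases le_or_gt j i with hij | hij
  · have := congrFun (congrFun hL0 i) j
    simpa [hL, low, hij] using this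
  · have := congrFun (congrFun hU0 i) j
    simpa [hU, upp, hij] using this

theorem ut_closure {S : Matrix (Fin n) (Fin n) ℝ} (hS : S ∈ UT n)
    (hcl : S ∈ closure (Ell (Fin n))) : S ∈ closure (Ell (Fin n) ∩ UT n) := by
  have hstrict : HasStrictFDerivAt (Psi S) (fderiv ℝ (Psi S) 0) 0 :=
    (Psi_contDiff S).contDiffAt.hasStrictFDerivAt (by norm_num)
  have hinj : Function.Injective (fderiv ℝ (Psi S) 0 :
      (Fin n → Fin n → ℝ) →ₗ[ℝ] (Fin n → Fin n → ℝ)) := by
    rw [← LinearMap.ker_eq_bot, LinearMap.ker_eq_bot']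
    intro Z hZ
    have hZ' : fderiv ℝ (Psi S) 0 Z = 0 := hZ
    rw [fderiv_Psi] at hZ'
    exact T_injective hS Z hZ'
  have hsurj : Function.Surjective (fderiv ℝ (Psi S) 0 :
      (Fin n → Fin n → ℝ) →ₗ[ℝ] (Fin n → Fin n → ℝ)) :=
    LinearMap.injective_iff_surjective.mp hinj
  have hmap : Filter.map (Psi S) (𝓝 0) = 𝓝 (Psi S 0) := by
    apply hstrict.map_nhds_eq_of_surj
    exact LinearMap.range_eq_top.mpr hsurj
  rw [Psi_zero] at hmap
  rw [mem_closure_iff_frequently] at hcl ⊢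
  have hcl' : ∃ᶠ M : Fin n → Fin n → ℝ in 𝓝 (S : Fin n → Fin n → ℝ),
      (M : Matrix (Fin n) (Fin n) ℝ) ∈ Ell (Fin n) := hcl
  rw [← hmap, Filter.frequently_map] at hcl'
  have hlowc : Continuous (fun Z : Fin n → Fin n → ℝ => low Z) := by
    apply continuous_matrix
    intro i j
    simp only [low, Matrix.of_apply]
    fun_prop
  have huppc : Continuous (fun Z : Fin n → Fin n → ℝ => upp Z) := by
    apply continuous_matrix
    intro i j
    simp only [upp, Matrix.of_apply]
    fun_prop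
  have hlow0 : low (0 : Fin n → Fin n → ℝ) = 0 := by ext i j; simp [low]
  have hupp0 : upp (0 : Fin n → Fin n → ℝ) = 0 := by ext i j; simp [upp]
  have hev : ∀ᶠ Z : Fin n → Fin n → ℝ in 𝓝 0, (1 + low Z).det ≠ 0 := by
    have hc : Continuous (fun Z : Fin n → Fin n → ℝ => (1 + low Z).det) :=
      Continuous.matrix_det (continuous_const.add hlowc)
    apply hc.continuousAt.eventually_ne
    rw [hlow0]; simp
  have hfreq := hcl'.and_eventually hev
  have htend : Tendsto (fun Z : Fin n → Fin n → ℝ => S + upp Z) (𝓝 0) (𝓝 S) := by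
    have hc : Continuous (fun Z : Fin n → Fin n → ℝ => S + upp Z) := continuous_const.add huppc
    have := hc.tendsto 0
    simpa [hupp0] using this
  refine htend.frequently (hfreq.mono ?_)
  intro Z ⟨hZ1, hZ2⟩
  have hu : IsUnit (1 + low Z).det := isUnit_iff_ne_zero.mpr hZ2
  refine ⟨?_, ?_, ?_⟩
  · have h1 := ell_congr (M := ((1 + low Z)ᵀ * (S + upp Z) * (1 + low Z))) hZ1 (1 + low Z)⁻¹
      (1 + low Z) (Matrix.nonsing_inv_mul _ hu) (Matrix.mul_nonsing_inv _ hu)
    have e : ((1 + low Z)⁻¹)ᵀ * ((1 + low Z)ᵀ * (S + upp Z) * (1 + low Z)) * (1 + low Z)⁻¹ =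
        S + upp Z := by
      have e1 : ((1 + low Z)⁻¹)ᵀ * (1 + low Z)ᵀ = 1 := by
        rw [← Matrix.transpose_mul, Matrix.mul_nonsing_inv _ hu, Matrix.transpose_one]
      calc ((1 + low Z)⁻¹)ᵀ * ((1 + low Z)ᵀ * (S + upp Z) * (1 + low Z)) * (1 + low Z)⁻¹
          = (((1 + low Z)⁻¹)ᵀ * (1 + low Z)ᵀ) * (S + upp Z) * ((1 + low Z) * (1 + low Z)⁻¹) := by
            simp only [Matrix.mul_assoc]
        _ = _ := by rw [e1, Matrix.mul_nonsing_inv _ hu, Matrix.one_mul, Matrix.mul_one]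
    rwa [e] at h1
  · intro i j hij
    rw [Matrix.add_apply, hS.1 i j hij]
    simp [upp, not_lt.mpr hij.le]
  · intro i
    rw [Matrix.add_apply, hS.2 i]
    simp [upp]

end Pool.Agent.H882R3.TN
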