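import Pool.Agent.H882R3.TNCayley

/-! Spectral condition `US`: congruence invariance and behaviour on blocks. -/

set_option autoImplicit false
open Matrix Filter Topology

namespace Pool.Agent.H882R3.TN

variable {ι κ : Type} [Fintype ι] [DecidableEq ι] [Fintype κ] [DecidableEq κ]

theorem antitriangular {L : Matrix κ κ ℝ} {N : Matrix ι ι ℝ} (hL : Lᵀ * L = 1)
    (hN : N ∈ closure (Ell ι)) (r : Matrix ι κ ℝ) (l : Matrix κ ι ℝ) (c : Matrix κ κ ℝ) :
    B3 0 0 1 0 N r L l c ∈ closure (Ell (κ ⊕ (ι ⊕ κ))) := by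
  have hc : Continuous (fun N : Matrix ι ι ℝ => B3 (0 : Matrix κ κ ℝ) 0 1 0 N r L l c) := by
    apply B3_continuous <;> fun_prop
  have hmaps : Set.MapsTo (fun N : Matrix ι ι ℝ => B3 (0 : Matrix κ κ ℝ) 0 1 0 N r L l c)
      (Ell ι) (closure (Ell (κ ⊕ (ι ⊕ κ)))) := by
    intro N hN
    obtain ⟨g, g', O, h1, h2, hO, rfl⟩ := ell_orth hN
    have e1 : g'ᵀ * gᵀ = 1 := by rw [← Matrix.transpose_mul, h1, Matrix.transpose_one]
    have e2 : gᵀ * g'ᵀ = 1 := by rw [← Matrix.transpose_mul, h2, Matrix.transpose_one]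
    have key := closure_congr (antitriangular_orth hL hO (g'ᵀ * r) (l * g') c)
      (B3 1 0 0 0 g 0 0 0 1 : Matrix (κ ⊕ (ι ⊕ κ)) (κ ⊕ (ι ⊕ κ)) ℝ)
      (B3 1 0 0 0 g' 0 0 0 1)
      (by rw [B3_mul, B3_one]; apply B3_ext_iff <;> simp [h1])
      (by rw [B3_mul, B3_one]; apply B3_ext_iff <;> simp [h2])
    have e : (B3 1 0 0 0 g 0 0 0 1 : Matrix (κ ⊕ (ι ⊕ κ)) (κ ⊕ (ι ⊕ κ)) ℝ)ᵀ *
        B3 0 0 1 0 O (g'ᵀ * r) L (l * g') c * B3 1 0 0 0 g 0 0 0 1 =
        B3 0 0 1 0 (gᵀ * O * g) r L l c := by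
      rw [B3_transpose, B3_mul, B3_mul]
      apply B3_ext_iff <;> simp [Matrix.mul_assoc, h2]
      rw [← Matrix.mul_assoc, e2, Matrix.one_mul]
    rw [e] at key
    exact key
  have := map_mem_closure hc hN hmaps
  rwa [closure_closure] at this

theorem cmap_mul {α β γ : Type} [Fintype β] (M : Matrix α β ℝ) (N : Matrix β γ ℝ) :
    (M * N).map Complex.ofReal = M.map Complex.ofReal * N.map Complex.ofReal := by
  ext i j; simp [Matrix.mul_apply]

theorem cmap_one {α : Type} [DecidableEq α] :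
    (1 : Matrix α α ℝ).map Complex.ofReal = 1 := by
  ext i j; simp [Matrix.one_apply]; split_ifs <;> simp

theorem cmap_transpose {α β : Type} (M : Matrix α β ℝ) :
    (Mᵀ).map Complex.ofReal = (M.map Complex.ofReal)ᵀ := rfl

theorem us_congr {M : Matrix ι ι ℝ} (hM : US M) (g : Matrix ι κ ℝ) (g' : Matrix κ ι ℝ)
    (h1 : g * g' = 1) (h2 : g' * g = 1) : US (gᵀ * M * g) := by
  intro z v hv h
  have c1 : g'.map Complex.ofReal * g.map Complex.ofReal = 1 := by rw [← cmap_mul, h2, cmap_one]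
  have c2 : (g'.map Complex.ofReal)ᵀ * (g.map Complex.ofReal)ᵀ = 1 := by
    rw [← Matrix.transpose_mul, ← cmap_mul, h1, cmap_one, Matrix.transpose_one]
  refine hM z (g.map Complex.ofReal *ᵥ v) ?_ ?_
  · intro h0
    apply hv
    have := congrArg (g'.map Complex.ofReal *ᵥ ·) h0
    simpa [Matrix.mulVec_mulVec, c1] using this
  · have := congrArg ((g'.map Complex.ofReal)ᵀ *ᵥ ·) h
    simp only [cmap_mul, cmap_transpose, Matrix.transpose_mul, Matrix.transpose_transpose,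
      Matrix.mulVec_smul, Matrix.mulVec_mulVec] at this
    simp only [Matrix.mulVec_mulVec]
    have a1 : (g'.map Complex.ofReal)ᵀ * ((g.map Complex.ofReal)ᵀ *
        ((M.map Complex.ofReal)ᵀ * g.map Complex.ofReal)) =
        (M.map Complex.ofReal)ᵀ * g.map Complex.ofReal := by
      rw [← Matrix.mul_assoc, c2, Matrix.one_mul]
    have a2 : (g'.map Complex.ofReal)ᵀ * ((g.map Complex.ofReal)ᵀ * (M.map Complex.ofReal) *
        g.map Complex.ofReal) = (M.map Complex.ofReal) * g.map Complex.ofReal := by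
      rw [Matrix.mul_assoc, ← Matrix.mul_assoc, c2, Matrix.one_mul]
    rw [a1, a2] at this
    exact this

theorem us_fromBlocks {G : Matrix κ κ ℝ} {N : Matrix ι ι ℝ}
    (h : US (Matrix.fromBlocks G 0 0 N)) : US N := by
  intro z v hv hz
  refine h z (Sum.elim 0 v) ?_ ?_
  · intro h0; apply hv; ext i; exact congrFun h0 (Sum.inr i)
  · rw [Matrix.fromBlocks_map, Matrix.fromBlocks_transpose, Matrix.fromBlocks_mulVec,
      Matrix.fromBlocks_mulVec]
    ext i
    rcases i with i | i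
    · simp
    · have := congrFun hz i
      simpa using this

open scoped ComplexOrder in
theorem norm_eq_one_of_orth {L : Matrix κ κ ℝ} (hL : Lᵀ * L = 1) {z : ℂ} {x : κ → ℂ}
    (hx : x ≠ 0) (h : x = z • (L.map Complex.ofReal *ᵥ x)) : ‖z‖ = 1 := by
  set w := L.map Complex.ofReal *ᵥ x with hw
  have hstar : (L.map Complex.ofReal)ᴴ = (L.map Complex.ofReal)ᵀ := by
    ext i j; simp [Matrix.conjTranspose_apply]
  have h1 : star w ⬝ᵥ w = star x ⬝ᵥ x := by
    rw [hw, Matrix.star_mulVec, ← Matrix.dotProduct_mulVec, Matrix.mulVec_mulVec, hstar,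
      ← cmap_transpose, ← cmap_mul, hL, cmap_one, Matrix.one_mulVec]
  have h2 : star x ⬝ᵥ x = (star z * z) * (star w ⬝ᵥ w) := by
    conv_lhs => rw [h]
    rw [star_smul, smul_dotProduct, dotProduct_smul]
    simp only [smul_eq_mul]; ring
  rw [h1] at h2
  have h3 : star x ⬝ᵥ x ≠ 0 := by
    intro h0; exact hx (dotProduct_star_self_eq_zero.mp h0)
  have h4 : star z * z = 1 := by
    have : (star z * z - 1) * (star x ⬝ᵥ x) = 0 := by
      rw [sub_mul, one_mul, ← h2, sub_self]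
    rcases mul_eq_zero.mp this with h | h
    · exact sub_eq_zero.mp h
    · exact absurd h h3
  have h5 : Complex.normSq z = 1 := by
    have := Complex.normSq_eq_conj_mul_self (z := z)
    have h6 : ((Complex.normSq z : ℝ) : ℂ) = 1 := by rw [this]; exact h4
    exact_mod_cast h6
  rw [Complex.normSq_eq_norm_sq] at h5
  nlinarith [norm_nonneg z]

theorem B3_mulVec {α β γ α' β' γ' R : Type} [Fintype α'] [Fintype β'] [Fintype γ'] [Semiring R]
    (a11 : Matrix α α' R) (a12 : Matrix α β' R) (a13 : Matrix α γ' R)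
    (a21 : Matrix β α' R) (a22 : Matrix β β' R) (a23 : Matrix β γ' R)
    (a31 : Matrix γ α' R) (a32 : Matrix γ β' R) (a33 : Matrix γ γ' R)
    (x : α' → R) (y : β' → R) (w : γ' → R) :
    B3 a11 a12 a13 a21 a22 a23 a31 a32 a33 *ᵥ (Sum.elim x (Sum.elim y w)) =
    Sum.elim (a11 *ᵥ x + a12 *ᵥ y + a13 *ᵥ w) (Sum.elim (a21 *ᵥ x + a22 *ᵥ y + a23 *ᵥ w)
      (a31 *ᵥ x + a32 *ᵥ y + a33 *ᵥ w)) := by
  ext i
  rcases i with i | i | i <;>
    simp [B3, Matrix.mulVec, dotProduct, Fintype.sum_sum_type, add_assoc]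

theorem B3_cmap {α β γ α' β' γ' : Type}
    (a11 : Matrix α α' ℝ) (a12 : Matrix α β' ℝ) (a13 : Matrix α γ' ℝ)
    (a21 : Matrix β α' ℝ) (a22 : Matrix β β' ℝ) (a23 : Matrix β γ' ℝ)
    (a31 : Matrix γ α' ℝ) (a32 : Matrix γ β' ℝ) (a33 : Matrix γ γ' ℝ) :
    (B3 a11 a12 a13 a21 a22 a23 a31 a32 a33).map Complex.ofReal =
    B3 (a11.map Complex.ofReal) (a12.map Complex.ofReal) (a13.map Complex.ofReal)
      (a21.map Complex.ofReal) (a22.map Complex.ofReal) (a23.map Complex.ofReal)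
      (a31.map Complex.ofReal) (a32.map Complex.ofReal) (a33.map Complex.ofReal) := by
  ext i j
  rcases i with i | i | i <;> rcases j with j | j | j <;> simp [B3]

theorem us_B3 {L : Matrix κ κ ℝ} {N : Matrix ι ι ℝ} (hL : Lᵀ * L = 1)
    {r : Matrix ι κ ℝ} {l : Matrix κ ι ℝ} {c : Matrix κ κ ℝ}
    (h : US (B3 0 0 1 0 N r L l c)) : US N := by
  intro z y hy hz
  by_cases hex : ∃ x : κ → ℂ, x ≠ 0 ∧ (1 - z • L.map Complex.ofReal) *ᵥ x = 0
  · obtain ⟨x, hx, hx0⟩ := hex
    apply norm_eq_one_of_orth hL hx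
    rw [Matrix.sub_mulVec, Matrix.one_mulVec, sub_eq_zero, Matrix.smul_mulVec] at hx0
    exact hx0
  · have hdet : (1 - z • L.map Complex.ofReal).det ≠ 0 := by
      intro h0
      apply hex
      obtain ⟨x, hx, hx0⟩ := Matrix.exists_mulVec_eq_zero_iff.mpr h0
      exact ⟨x, hx, hx0⟩
    have hu : IsUnit (1 - z • L.map Complex.ofReal).det := isUnit_iff_ne_zero.mpr hdet
    set b : κ → ℂ := -(((r.map Complex.ofReal)ᵀ *ᵥ y) - z • (l.map Complex.ofReal *ᵥ y)) with hb
    set x : κ → ℂ := (1 - z • L.map Complex.ofReal)⁻¹ *ᵥ b with hx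
    have hx1 : (1 - z • L.map Complex.ofReal) *ᵥ x = b := by
      rw [hx, Matrix.mulVec_mulVec, Matrix.mul_nonsing_inv _ hu, Matrix.one_mulVec]
    refine h z (Sum.elim x (Sum.elim y 0)) ?_ ?_
    · intro h0
      apply hy; ext i; exact congrFun h0 (Sum.inr (Sum.inl i))
    · rw [B3_cmap, B3_transpose, B3_mulVec, B3_mulVec]
      rw [Matrix.sub_mulVec, Matrix.one_mulVec, Matrix.smul_mulVec] at hx1
      have e1 : x + (r.map Complex.ofReal)ᵀ *ᵥ y =
          z • (L.map Complex.ofReal *ᵥ x) + z • (l.map Complex.ofReal *ᵥ y) := by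
        ext i
        have := congrFun hx1 i
        simp only [hb, Pi.sub_apply, Pi.smul_apply, Pi.neg_apply, Pi.add_apply] at this ⊢
        linear_combination this
      ext i
      rcases i with i | i | i
      · simp [cmap_one, Matrix.map_zero]
      · have := congrFun hz i
        simpa [Matrix.map_zero] using this
      · have := congrFun e1 i
        simpa [cmap_one, Matrix.map_zero, mul_add] using this

theorem us_orth {O : Matrix ι ι ℝ} (hO : Oᵀ * O = 1) : US O := by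
  intro z v hv h
  have hO' : O * Oᵀ = 1 := mul_eq_one_comm.mp hO
  have h2 : (O * O)ᵀ * (O * O) = 1 := by
    rw [Matrix.transpose_mul]
    calc Oᵀ * Oᵀ * (O * O) = Oᵀ * (Oᵀ * O) * O := by simp only [Matrix.mul_assoc]
      _ = 1 := by rw [hO, Matrix.mul_one, hO]
  apply norm_eq_one_of_orth h2 hv
  have h3 := congrArg (O.map Complex.ofReal *ᵥ ·) h
  simp only [Matrix.mulVec_smul, Matrix.mulVec_mulVec, ← cmap_transpose, ← cmap_mul, hO',
    cmap_one, Matrix.one_mulVec] at h3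
  exact h3

theorem us_ell {M : Matrix ι ι ℝ} (hM : M ∈ Ell ι) : US M := by
  obtain ⟨g, g', O, h1, h2, hO, rfl⟩ := ell_orth hM
  exact us_congr (us_orth hO) g g' h1 h2

end Pool.Agent.H882R3.TN
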